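import Pool.Agent.H543.DG.Def

/-!
# The error terms for one `x`
-/

set_option autoImplicit false

namespace Pool.Agent.H543.DG

open Finset Filter
open scoped Classical

theorem rmul2 (X : ℝ) (hX : 1 ≤ X) (a b c : ℝ) (h : a + b ≤ c) : X ^ a * X ^ b ≤ X ^ c := by
  rw [← Real.rpow_add (by linarith)]
  exact Real.rpow_le_rpow_of_exponent_le hX h

theorem rmul3 (X : ℝ) (hX : 1 ≤ X) (a b c d : ℝ) (h : a + b + c ≤ d) : X ^ a * X ^ b * X ^ c ≤ X ^ d := by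
  rw [← Real.rpow_add (by linarith), ← Real.rpow_add (by linarith)]
  exact Real.rpow_le_rpow_of_exponent_le hX h

/-- the window -/
noncomputable def hwd (X : ℕ) (κ : ℝ) (x : ℕ) : ℕ := ⌊(x : ℝ) * (X : ℝ) ^ (-20 * κ)⌋₊ + 1

/-- bounds for one `x` -/
theorem one_x (C κ ε : ℝ) (K : ℕ) (hK : 1 ≤ K) (hC : 1 ≤ C) (hκ : 0 < κ) (hκε : 100 * κ ≤ ε) (hε : ε ≤ 1 / 100) (X H x N : ℕ)
    (hX : 1 ≤ X) (hHX : H ≤ X) (hx1 : (X : ℝ) ^ (11 / 25 : ℝ) ≤ x) (hx2 : (x : ℝ) ^ 2 ≤ (X : ℝ) ^ (1 - ε))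
    (hN : (N : ℝ) ≤ (X : ℝ) ^ (1 / 12 - ε)) :
    16 * Vv K X H x (hwd X κ x) + 16 ≤ 1 / x * (X * (592 * (K : ℝ) ^ 4 * (X : ℝ) ^ (-20 * κ))) ∧
    E2 C κ K X H x (hwd X κ x) N ≤
      1 / x * (234 * (K : ℝ) ^ 4 * C * (X : ℝ) ^ (5 / 6 - 7 * ε / 4 + 21 * κ)) := by
  have hKr : (1 : ℝ) ≤ K := by exact_mod_cast hK
  have hK4 : (1 : ℝ) ≤ (K : ℝ) ^ 4 := one_le_pow₀ hKr
  have hK14 : (K : ℝ) ≤ (K : ℝ) ^ 4 := le_self_pow₀ hKr (by norm_num)
  have hXr : (1 : ℝ) ≤ X := by exact_mod_cast hX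
  have hX0 : (0 : ℝ) < X := by linarith
  have hx0 : (0 : ℝ) < x := lt_of_lt_of_le (by positivity) hx1
  have hxn : 1 ≤ x := by
    have : 0 < x := by exact_mod_cast hx0
    exact this
  have hxr1 : (1 : ℝ) ≤ x := by exact_mod_cast hxn
  have hHr : (H : ℝ) ≤ X := by exact_mod_cast hHX
  have hH0 : (0 : ℝ) ≤ H := Nat.cast_nonneg H
  set h := hwd X κ x with hh
  have hκ' : κ ≤ 1 / 10000 := by linarith
  -- the window
  have w1 : (1 : ℝ) ≤ (x : ℝ) * (X : ℝ) ^ (-20 * κ) := by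
    calc (1 : ℝ) = (X : ℝ) ^ (0 : ℝ) := (Real.rpow_zero _).symm
      _ ≤ (X : ℝ) ^ (11 / 25 + -20 * κ) := Real.rpow_le_rpow_of_exponent_le hXr (by linarith)
      _ = (X : ℝ) ^ (11 / 25 : ℝ) * (X : ℝ) ^ (-20 * κ) := Real.rpow_add hX0 _ _
      _ ≤ _ := mul_le_mul_of_nonneg_right hx1 (by positivity)
  have w2 : (h : ℝ) ≤ 2 * (x * (X : ℝ) ^ (-20 * κ)) := by
    rw [hh]
    unfold hwd
    push_cast
    have := Nat.floor_le (show 0 ≤ (x : ℝ) * (X : ℝ) ^ (-20 * κ) by positivity)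
    linarith
  have w3 : (x : ℝ) * (X : ℝ) ^ (-20 * κ) ≤ h := by
    rw [hh]
    unfold hwd
    push_cast
    exact (Nat.lt_floor_add_one _).le
  have hh0 : (0 : ℝ) < h := by linarith
  -- sizes
  have hxx : (x : ℝ) ≤ (X : ℝ) ^ ((1 - ε) / 2) := by
    rw [← Real.sqrt_sq hx0.le]
    have h1 : Real.sqrt ((x : ℝ) ^ 2) ≤ Real.sqrt ((X : ℝ) ^ (1 - ε)) := Real.sqrt_le_sqrt hx2
    refine h1.trans (le_of_eq ?_)
    rw [Real.sqrt_eq_rpow, ← Real.rpow_mul hX0.le]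
    congr 1
    ring
  have hx2X : (x : ℝ) ^ 2 ≤ X := by
    refine hx2.trans ?_
    calc (X : ℝ) ^ (1 - ε) ≤ (X : ℝ) ^ (1 : ℝ) := Real.rpow_le_rpow_of_exponent_le hXr (by linarith)
      _ = X := Real.rpow_one _
  have hxX : (x : ℝ) ≤ 1 / x * X := by
    rw [div_mul_eq_mul_div, one_mul, le_div_iff₀ hx0]
    nlinarith
  have h1X : (1 : ℝ) ≤ 1 / x * X := hxr1.trans hxX
  -- variation
  have hV : Vv K X H x h ≤ 1 / x * (36 * (K : ℝ) ^ 4 * (X * (X : ℝ) ^ (-20 * κ))) := by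
    unfold Vv
    have h1 : 6 * (K : ℝ) ^ 4 * (((X + H : ℕ) : ℝ) + 1) ≤ 18 * (K : ℝ) ^ 4 * X := by
      push_cast
      have : (K : ℝ) ^ 4 * ((X : ℝ) + H + 1) ≤ (K : ℝ) ^ 4 * (3 * X) :=
        mul_le_mul_of_nonneg_left (by linarith) (by positivity)
      linarith
    calc (h : ℝ) * (6 * (K : ℝ) ^ 4 * (((X + H : ℕ) : ℝ) + 1) / (x : ℝ) ^ 2) ≤
        (2 * (x * (X : ℝ) ^ (-20 * κ))) * (18 * (K : ℝ) ^ 4 * X / (x : ℝ) ^ 2) := by
          apply mul_le_mul w2 _ (by positivity) (by positivity)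
          exact div_le_div_of_nonneg_right h1 (by positivity)
      _ = _ := by
          field_simp
          ring
  have hVn : 0 ≤ Vv K X H x h := by unfold Vv; positivity
  have hr1 : (X : ℝ) ^ (-20 * κ) ≤ 1 := Real.rpow_le_one_of_one_le_of_nonpos hXr (by linarith)
  have hr0 : (0 : ℝ) < (X : ℝ) ^ (-20 * κ) := by positivity
  constructor
  · have h2 : (1 : ℝ) ≤ 1 / x * (X * (X : ℝ) ^ (-20 * κ)) := by
      rw [div_mul_eq_mul_div, one_mul, le_div_iff₀ hx0, one_mul]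
      calc (x : ℝ) ≤ (X : ℝ) ^ ((1 - ε) / 2) := hxx
        _ ≤ (X : ℝ) ^ (1 + -20 * κ) := Real.rpow_le_rpow_of_exponent_le hXr (by linarith)
        _ = (X : ℝ) ^ (1 : ℝ) * (X : ℝ) ^ (-20 * κ) := Real.rpow_add hX0 _ _
        _ = _ := by rw [Real.rpow_one]
    have h3 : 1 / (x : ℝ) * (X * (X : ℝ) ^ (-20 * κ)) * 1 ≤
        1 / x * (X * (X : ℝ) ^ (-20 * κ)) * (K : ℝ) ^ 4 :=
      mul_le_mul_of_nonneg_left hK4 (by positivity)
    calc 16 * Vv K X H x h + 16 ≤ 16 * (1 / x * (36 * (K : ℝ) ^ 4 * (X * (X : ℝ) ^ (-20 * κ)))) +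
        16 * (1 / x * (X * (X : ℝ) ^ (-20 * κ)) * (K : ℝ) ^ 4) := by linarith
      _ = _ := by ring
  · -- the error
    have hT : TT K X H x h ≤ 1 / x * (77 * (K : ℝ) ^ 4 * X) := by
      unfold TT
      have h3 : (h : ℝ) ≤ 2 * (1 / x * X) := by
        refine w2.trans ?_
        have : (x : ℝ) * (X : ℝ) ^ (-20 * κ) ≤ x * 1 := mul_le_mul_of_nonneg_left hr1 hx0.le
        linarith
      have h4 : (K : ℝ) * H / x ≤ (K : ℝ) ^ 4 * (1 / x * X) := by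
        calc (K : ℝ) * H / x ≤ (K : ℝ) ^ 4 * X / x := by
              apply div_le_div_of_nonneg_right _ hx0.le
              exact mul_le_mul hK14 hHr hH0 (by positivity)
          _ = _ := by ring
      have h5 : Vv K X H x h ≤ 36 * ((K : ℝ) ^ 4 * (1 / x * X)) := by
        refine hV.trans ?_
        have : 36 * (K : ℝ) ^ 4 * (1 / (x : ℝ) * X) * (X : ℝ) ^ (-20 * κ) ≤
            36 * (K : ℝ) ^ 4 * (1 / x * X) * 1 :=
          mul_le_mul_of_nonneg_left hr1 (by positivity)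
        linarith
      have h6 : 1 * (1 / (x : ℝ) * X) ≤ (K : ℝ) ^ 4 * (1 / x * X) :=
        mul_le_mul_of_nonneg_right hK4 (by positivity)
      linarith
    have hTn : 0 ≤ TT K X H x h := by unfold TT Vv; positivity
    have hZ : ((x * (N * N) : ℕ) : ℝ) ^ κ ≤ (X : ℝ) ^ κ := by
      apply Real.rpow_le_rpow (Nat.cast_nonneg _) _ hκ.le
      push_cast
      calc (x : ℝ) * (N * N) ≤ (X : ℝ) ^ ((1 - ε) / 2) * ((X : ℝ) ^ (1 / 12 - ε) * (X : ℝ) ^ (1 / 12 - ε)) := by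
            apply mul_le_mul hxx _ (by positivity) (by positivity)
            exact mul_le_mul hN hN (Nat.cast_nonneg _) (by positivity)
        _ = (X : ℝ) ^ ((1 - ε) / 2) * (X : ℝ) ^ (1 / 12 - ε) * (X : ℝ) ^ (1 / 12 - ε) := by ring
        _ ≤ (X : ℝ) ^ (1 : ℝ) := rmul3 X hXr _ _ _ _ (by linarith)
        _ = X := Real.rpow_one _
    have hZ0 : (0 : ℝ) ≤ ((x * (N * N) : ℕ) : ℝ) ^ κ := by positivity
    have hsx : Real.sqrt x ≤ (X : ℝ) ^ ((1 - ε) / 4) := by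
      have h1 := Real.sqrt_le_sqrt hxx
      refine h1.trans (le_of_eq ?_)
      rw [Real.sqrt_eq_rpow, ← Real.rpow_mul hX0.le]
      congr 1
      ring
    have hsx2 : (X : ℝ) ^ (11 / 50 : ℝ) ≤ Real.sqrt x := by
      have h1 := Real.sqrt_le_sqrt hx1
      refine le_trans (le_of_eq ?_) h1
      rw [Real.sqrt_eq_rpow, ← Real.rpow_mul hX0.le]
      congr 1
      norm_num
    have hsx0 : 0 < Real.sqrt x := Real.sqrt_pos.2 hx0
    have hA : Real.sqrt x * N ≤ 1 / x * (X : ℝ) ^ (5 / 6 - 7 * ε / 4) := by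
      rw [div_mul_eq_mul_div, one_mul, le_div_iff₀ hx0]
      calc Real.sqrt x * N * x ≤ (X : ℝ) ^ ((1 - ε) / 4) * (X : ℝ) ^ (1 / 12 - ε) * (X : ℝ) ^ ((1 - ε) / 2) := by
            apply mul_le_mul _ hxx hx0.le (by positivity)
            exact mul_le_mul hsx hN (Nat.cast_nonneg _) (by positivity)
        _ ≤ _ := rmul3 X hXr _ _ _ _ (by linarith)
    have hB : 1 / Real.sqrt x * TT K X H x h ≤
        1 / x * (77 * (K : ℝ) ^ 4 * (X : ℝ) ^ (5 / 6 - 7 * ε / 4)) := by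
      calc 1 / Real.sqrt x * TT K X H x h ≤
          (X : ℝ) ^ (-(11 / 50) : ℝ) * (1 / x * (77 * (K : ℝ) ^ 4 * X)) := by
            apply mul_le_mul _ hT hTn (by positivity)
            rw [Real.rpow_neg hX0.le, ← one_div]
            exact one_div_le_one_div_of_le (by positivity) hsx2
        _ = 1 / x * (77 * (K : ℝ) ^ 4 * ((X : ℝ) ^ (1 : ℝ) * (X : ℝ) ^ (-(11 / 50) : ℝ))) := by
            rw [Real.rpow_one]
            ring
        _ ≤ _ := by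
            apply mul_le_mul_of_nonneg_left _ (by positivity)
            apply mul_le_mul_of_nonneg_left _ (by positivity)
            exact rmul2 X hXr _ _ _ (by linarith)
    have hW : 2 * (x : ℝ) / h + 1 ≤ 3 * (X : ℝ) ^ (20 * κ) := by
      have h1 : 2 * (x : ℝ) / h ≤ 2 * (X : ℝ) ^ (20 * κ) := by
        rw [div_le_iff₀ hh0]
        calc 2 * (x : ℝ) = 2 * (X : ℝ) ^ (20 * κ) * (x * (X : ℝ) ^ (-20 * κ)) := by
              have : (X : ℝ) ^ (20 * κ) * (X : ℝ) ^ (-20 * κ) = 1 := by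
                rw [← Real.rpow_add hX0]
                rw [show 20 * κ + -20 * κ = 0 by ring, Real.rpow_zero]
              linear_combination (-2 * (x : ℝ)) * this
          _ ≤ _ := mul_le_mul_of_nonneg_left w3 (by positivity)
      have h2 : (1 : ℝ) ≤ (X : ℝ) ^ (20 * κ) := Real.one_le_rpow hXr (by positivity)
      linarith
    unfold E2
    calc (2 * (x : ℝ) / h + 1) * (C * ((x * (N * N) : ℕ) : ℝ) ^ κ * (Real.sqrt x * N) +
        C * ((x * (N * N) : ℕ) : ℝ) ^ κ / Real.sqrt x * TT K X H x h) =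
        (2 * (x : ℝ) / h + 1) * (C * ((x * (N * N) : ℕ) : ℝ) ^ κ * (Real.sqrt x * N +
          1 / Real.sqrt x * TT K X H x h)) := by ring
      _ ≤ (3 * (X : ℝ) ^ (20 * κ)) * (C * (X : ℝ) ^ κ * (1 / x * (X : ℝ) ^ (5 / 6 - 7 * ε / 4) +
          1 / x * (77 * (K : ℝ) ^ 4 * (X : ℝ) ^ (5 / 6 - 7 * ε / 4)))) := by
          apply mul_le_mul hW _ (by positivity) (by positivity)
          apply mul_le_mul _ (add_le_add hA hB) (by positivity) (by positivity)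
          exact mul_le_mul_of_nonneg_left hZ (by linarith)
      _ = 1 / x * ((3 * (1 + 77 * (K : ℝ) ^ 4) * C) *
          ((X : ℝ) ^ (20 * κ) * (X : ℝ) ^ κ * (X : ℝ) ^ (5 / 6 - 7 * ε / 4))) := by ring
      _ ≤ 1 / x * ((234 * (K : ℝ) ^ 4 * C) * (X : ℝ) ^ (5 / 6 - 7 * ε / 4 + 21 * κ)) := by
          apply mul_le_mul_of_nonneg_left _ (by positivity)
          apply mul_le_mul _ (rmul3 X hXr _ _ _ _ (by linarith)) (by positivity) (by positivity)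
          apply mul_le_mul_of_nonneg_right _ (by linarith)
          linarith

end Pool.Agent.H543.DG
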