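import Pool.Agent.H543.DG.Vp
import Pool.Graph.R_seed8.Helper112.Arith
import Pool.Agent.H543.PF.Small

/-!
# The parameters of the dispersion method
-/

set_option autoImplicit false

namespace Pool.Agent.H543.DG

open Finset Filter
open Pool.Agent.Y882.PX (ro ro_eq ro_prod pow_card_le)
open Pool.Agent.Y882.SI (QF QF_eval ro_quad_le)
open scoped Classical

theorem Rt_ro (a : ℤ) (n : ℕ) : (Rt a n).card = ro (QF a) 0 n := by
  rw [ro_eq]
  unfold Rt
  congr 1
  ext i
  rw [mem_filter, mem_filter, QF_eval, add_zero]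

theorem Rt_sqf (a : ℤ) (η : ℝ) (hη : 0 < η) : ∃ C : ℝ, 1 ≤ C ∧ ∀ n : ℕ, Squarefree n →
    ((Rt a n).card : ℝ) ≤ C * (n : ℝ) ^ η := by
  obtain ⟨C, hC, h⟩ := pow_card_le 2 η hη
  refine ⟨C, hC, ?_⟩
  intro n hn
  have h1 : ∏ p ∈ n.primeFactors, p = n := Nat.prod_primeFactors_of_squarefree hn
  have h2 := h n.primeFactors (fun p hp => Nat.prime_of_mem_primeFactors hp)
  rw [h1] at h2
  refine le_trans ?_ h2
  rw [Rt_ro]
  have h3 := ro_prod (QF a) 0 n.primeFactors (fun p hp => Nat.prime_of_mem_primeFactors hp)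
  rw [h1] at h3
  rw [h3]
  push_cast
  rw [← prod_const]
  apply Finset.prod_le_prod
  · intro p _; positivity
  · intro p hp
    exact_mod_cast ro_quad_le a p (Nat.prime_of_mem_primeFactors hp)

/-- harmonic sums -/
theorem harm (N : ℕ) : ∑ n ∈ Icc 1 N, 1 / (n : ℝ) ≤ 1 + Real.log N := by
  have h := harmonic_le_one_add_log N
  have h2 : ((harmonic N : ℚ) : ℝ) = ∑ n ∈ Icc 1 N, 1 / (n : ℝ) := by
    rw [harmonic_eq_sum_Icc]
    push_cast
    apply sum_congr rfl
    intro n _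
    rw [one_div]
  rw [← h2]
  exact h

/-- the elementary inequalities for large `X` -/
theorem ev_all (a : ℤ) (κ : ℝ) (hκ : 0 < κ) : ∃ X0 : ℕ, ∀ X : ℕ, X0 ≤ X →
    (∀ n : ℕ, 1 ≤ n → (n : ℝ) ≤ 5 * (X : ℝ) ^ 2 → (n.divisors.card : ℝ) ≤ (X : ℝ) ^ κ) ∧
    (∀ n : ℕ, n ≤ X → Squarefree n → ((Rt a n).card : ℝ) * (2 + Real.log X) ≤ (X : ℝ) ^ κ) ∧
    2 + Real.log X ≤ (X : ℝ) ^ κ ∧ 3 ≤ X := by
  obtain ⟨C1, hC1, h1⟩ := Pool.Agent.Helper112.divisor_bound (κ / 4) (by positivity)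
  obtain ⟨C2, hC2, h2⟩ := Rt_sqf a (κ / 4) (by positivity)
  have e1 : ∀ᶠ X : ℕ in atTop, C1 * (5 : ℝ) ^ (κ / 4) ≤ (X : ℝ) ^ (κ / 2) :=
    tendsto_natCast_atTop_atTop.eventually
      ((tendsto_rpow_atTop (by positivity)).eventually_ge_atTop _)
  have e2 : ∀ᶠ X : ℕ in atTop, 2 + Real.log X ≤ (X : ℝ) ^ (κ / 4) := by
    have h := (isLittleO_log_rpow_atTop (show 0 < κ / 4 by positivity)).bound (show (0 : ℝ) < 1 / 2 by norm_num)
    have h' := tendsto_natCast_atTop_atTop (R := ℝ) |>.eventually h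
    have h'' : ∀ᶠ X : ℕ in atTop, (4 : ℝ) ≤ (X : ℝ) ^ (κ / 4) :=
      tendsto_natCast_atTop_atTop.eventually
        ((tendsto_rpow_atTop (by positivity)).eventually_ge_atTop _)
    filter_upwards [h', h''] with X hX hX'
    rw [Real.norm_eq_abs, Real.norm_eq_abs, abs_of_nonneg (by positivity : (0 : ℝ) ≤ (X : ℝ) ^ (κ / 4))] at hX
    have := le_abs_self (Real.log X)
    linarith
  have e3 : ∀ᶠ X : ℕ in atTop, C2 ≤ (X : ℝ) ^ (κ / 4) :=
    tendsto_natCast_atTop_atTop.eventually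
      ((tendsto_rpow_atTop (by positivity)).eventually_ge_atTop _)
  obtain ⟨X0, hX0⟩ := eventually_atTop.1 (e1.and (e2.and (e3.and (eventually_ge_atTop 3))))
  refine ⟨X0, fun X hX => ?_⟩
  obtain ⟨a1, a2, a3, a4⟩ := hX0 X hX
  have hXr : (3 : ℝ) ≤ X := by exact_mod_cast a4
  have hX0' : (0 : ℝ) < X := by linarith
  have hX1 : (1 : ℝ) ≤ X := by linarith
  have hlog : 0 ≤ Real.log X := Real.log_nonneg hX1
  refine ⟨?_, ?_, ?_, a4⟩
  · intro n hn hn2
    have hnr : (0 : ℝ) < n := by exact_mod_cast hn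
    calc (n.divisors.card : ℝ) ≤ C1 * (n : ℝ) ^ (κ / 4) := h1 n hn
      _ ≤ C1 * (5 * (X : ℝ) ^ 2) ^ (κ / 4) := by
          apply mul_le_mul_of_nonneg_left _ hC1.le
          exact Real.rpow_le_rpow hnr.le hn2 (by positivity)
      _ = C1 * 5 ^ (κ / 4) * (X : ℝ) ^ (κ / 2) := by
          rw [Real.mul_rpow (by norm_num) (by positivity), ← Real.rpow_natCast, ← Real.rpow_mul hX0'.le,
            mul_assoc]
          congr 3
          push_cast
          ring
      _ ≤ (X : ℝ) ^ (κ / 2) * (X : ℝ) ^ (κ / 2) := mul_le_mul_of_nonneg_right a1 (by positivity)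
      _ = (X : ℝ) ^ κ := by
          rw [← Real.rpow_add hX0']
          congr 1
          ring
  · intro n hn hs
    have hnr : (0 : ℝ) ≤ n := Nat.cast_nonneg n
    calc ((Rt a n).card : ℝ) * (2 + Real.log X) ≤ (C2 * (n : ℝ) ^ (κ / 4)) * (X : ℝ) ^ (κ / 4) :=
          mul_le_mul (h2 n hs) a2 (by linarith) (by positivity)
      _ ≤ ((X : ℝ) ^ (κ / 4) * (X : ℝ) ^ (κ / 4)) * (X : ℝ) ^ (κ / 4) := by
          apply mul_le_mul_of_nonneg_right _ (by positivity)
          apply mul_le_mul a3 _ (by positivity) (by positivity)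
          exact Real.rpow_le_rpow hnr (by exact_mod_cast hn) (by positivity)
      _ = (X : ℝ) ^ (3 * (κ / 4)) := by
          rw [← Real.rpow_add hX0', ← Real.rpow_add hX0']
          congr 1
          ring
      _ ≤ (X : ℝ) ^ κ := Real.rpow_le_rpow_of_exponent_le hX1 (by linarith)
  · exact a2.trans (Real.rpow_le_rpow_of_exponent_le hX1 (by linarith))

theorem hyp_holds (a : ℤ) (ha : a ≠ 0) (K : ℕ) (κ ρ ε : ℝ) (hκ : 0 < κ) (hκρ : κ ≤ ρ) (hκε : 2 * κ ≤ ε) :
    ∃ X0 : ℕ, ∀ X : ℕ, X0 ≤ X → ∀ H N M2 : ℕ, (X : ℝ) ^ (1 - κ) ≤ H → H ≤ X →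
      (N : ℝ) ≤ (X : ℝ) ^ (1 / 12 : ℝ) → (M2 : ℝ) ≤ K * (X : ℝ) ^ (1 - ε) → κ ≤ 1 / 2 →
      Hyp a K X H (Bs X N ρ) N M2 ((X : ℝ) ^ κ) ((X : ℝ) ^ ρ) (N * (X : ℝ) ^ κ) ((X : ℝ) ^ (κ - ρ)) := by
  obtain ⟨X1, hX1⟩ := ev_all a κ hκ
  have e1 : ∀ᶠ X : ℕ in atTop, (3 : ℝ) ≤ (X : ℝ) ^ κ :=
    tendsto_natCast_atTop_atTop.eventually
      ((tendsto_rpow_atTop (by positivity)).eventually_ge_atTop _)
  have e2 : ∀ᶠ X : ℕ in atTop, (K : ℝ) ≤ (X : ℝ) ^ (ε - κ) :=
    tendsto_natCast_atTop_atTop.eventually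
      ((tendsto_rpow_atTop (by linarith)).eventually_ge_atTop _)
  have e3 : ∀ᶠ X : ℕ in atTop, (K : ℝ) + |(a : ℝ)| + 1 ≤ (X : ℝ) ^ κ :=
    tendsto_natCast_atTop_atTop.eventually
      ((tendsto_rpow_atTop (by positivity)).eventually_ge_atTop _)
  have e4 : ∀ᶠ X : ℕ in atTop, |(a : ℝ)| + 1 ≤ (X : ℝ) :=
    tendsto_natCast_atTop_atTop.eventually_ge_atTop _
  obtain ⟨X2, hX2⟩ := eventually_atTop.1 (e1.and (e2.and (e3.and e4)))
  refine ⟨max X1 X2, fun X hX H N M2 hH1 hH2 hN hM2 hκh => ?_⟩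
  obtain ⟨a1, a2, a3, a4⟩ := hX1 X ((le_max_left _ _).trans hX)
  obtain ⟨b1, b2, b3, b4⟩ := hX2 X ((le_max_right _ _).trans hX)
  have hXr : (3 : ℝ) ≤ X := by exact_mod_cast a4
  have hX0' : (0 : ℝ) < X := by linarith
  have hX1' : (1 : ℝ) ≤ X := by linarith
  have hlog : 0 ≤ Real.log X := Real.log_nonneg hX1'
  have hρ0 : 0 < ρ := by linarith
  have hNX : (N : ℝ) ≤ X := by
    refine hN.trans ?_
    calc (X : ℝ) ^ (1 / 12 : ℝ) ≤ (X : ℝ) ^ (1 : ℝ) :=
          Real.rpow_le_rpow_of_exponent_le hX1' (by norm_num)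
      _ = X := Real.rpow_one _
  have hNX' : N ≤ X := by exact_mod_cast hNX
  have hNH : N ≤ H := by
    have : (N : ℝ) ≤ H := hN.trans ((Real.rpow_le_rpow_of_exponent_le hX1' (by linarith)).trans hH1)
    exact_mod_cast this
  have hz0 : (0 : ℝ) < (X : ℝ) ^ ρ := by positivity
  have hlogN : 1 + Real.log N ≤ 2 + Real.log X := by
    rcases Nat.eq_zero_or_pos N with h | h
    · rw [h]
      simp
      linarith
    · have : Real.log N ≤ Real.log X := Real.log_le_log (by exact_mod_cast h) hNX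
      linarith
  have hmem : ∀ n ∈ Bs X N ρ, 1 ≤ n ∧ n ≤ N ∧ Squarefree n ∧ ∀ p ∈ n.primeFactors, (X : ℝ) ^ ρ ≤ p := by
    intro n hn
    unfold Bs at hn
    rw [mem_filter, mem_Icc] at hn
    exact ⟨hn.1.1, hn.1.2, hn.2.1, hn.2.2⟩
  have hPB : ∀ p ∈ (Bs X N ρ).biUnion Nat.primeFactors, p.Prime ∧ p ≤ N ∧ (X : ℝ) ^ ρ ≤ p := by
    intro p hp
    rw [mem_biUnion] at hp
    obtain ⟨n, hn, hpn⟩ := hp
    obtain ⟨c1, c2, c3, c4⟩ := hmem n hn
    exact ⟨Nat.prime_of_mem_primeFactors hpn,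
      (Nat.le_of_dvd (by omega) (Nat.dvd_of_mem_primeFactors hpn)).trans c2, c4 p hpn⟩
  have hlogp : 0 < 2 + Real.log X := by linarith
  have hRt : ∀ n ∈ Bs X N ρ, ((Rt a n).card : ℝ) ≤ (X : ℝ) ^ κ / (2 + Real.log X) := by
    intro n hn
    obtain ⟨c1, c2, c3, c4⟩ := hmem n hn
    rw [le_div_iff₀ hlogp]
    exact a2 n (c2.trans hNX') c3
  have hRt' : ∀ n ∈ Bs X N ρ, ((Rt a n).card : ℝ) ≤ (X : ℝ) ^ κ := by
    intro n hn
    refine (hRt n hn).trans ?_
    apply div_le_self (by positivity)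
    linarith
  have hP1 : ∑ p ∈ (Bs X N ρ).biUnion Nat.primeFactors, 1 / (p : ℝ) ≤ (X : ℝ) ^ κ := by
    calc ∑ p ∈ (Bs X N ρ).biUnion Nat.primeFactors, 1 / (p : ℝ) ≤ ∑ n ∈ Icc 1 N, 1 / (n : ℝ) := by
          apply sum_le_sum_of_subset_of_nonneg
          · intro p hp
            obtain ⟨c1, c2, c3⟩ := hPB p hp
            rw [mem_Icc]
            exact ⟨c1.one_le, c2⟩
          · intro _ _ _
            positivity
      _ ≤ 1 + Real.log N := harm N
      _ ≤ 2 + Real.log X := hlogN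
      _ ≤ _ := a3
  have hbig : ∀ p ∈ (Bs X N ρ).biUnion Nat.primeFactors, (K : ℝ) + |(a : ℝ)| + 1 ≤ p := by
    intro p hp
    obtain ⟨c1, c2, c3⟩ := hPB p hp
    exact (b3.trans (Real.rpow_le_rpow_of_exponent_le hX1' hκρ)).trans c3
  refine ⟨by linarith, hz0, by positivity, ?_, ?_, ?_, ?_, ?_, hP1, ?_, ?_, ?_, ?_, ?_⟩
  · -- divisors
    intro k hk1 hk2
    have hk1' : (X : ℝ) ≤ k := by exact_mod_cast hk1.le
    have hk2' : (k : ℝ) ≤ 2 * X := by
      have : k ≤ 2 * (X : ℤ) := by omega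
      exact_mod_cast this
    have ha1 := neg_abs_le (a : ℝ)
    have ha2 := le_abs_self (a : ℝ)
    have hpos : 0 < k ^ 2 + a := by
      have : (0 : ℝ) < (k : ℝ) ^ 2 + a := by nlinarith
      exact_mod_cast this
    refine ⟨hpos, ?_⟩
    apply a1
    · omega
    · have h1 : (((k ^ 2 + a).natAbs : ℕ) : ℝ) = (k : ℝ) ^ 2 + a := by
        rw [Nat.cast_natAbs, abs_of_nonneg hpos.le]
        push_cast
        ring
      rw [h1]
      nlinarith
  · intro n hn
    obtain ⟨c1, c2, _⟩ := hmem n hn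
    exact ⟨c1, c2⟩
  · -- coprime
    intro n hn c hc0 hcK
    rw [Int.isCoprime_iff_gcd_eq_one]
    by_contra hg
    obtain ⟨p, hp, hpg⟩ := Nat.exists_prime_and_dvd hg
    have hp1 : (p : ℤ) ∣ (n : ℤ) := (Int.natCast_dvd_natCast.2 hpg).trans (Int.gcd_dvd_left _ _)
    have hp2 : (p : ℤ) ∣ c := (Int.natCast_dvd_natCast.2 hpg).trans (Int.gcd_dvd_right _ _)
    have hpn : p ∣ n := by exact_mod_cast hp1
    obtain ⟨c1, c2, _⟩ := hmem n hn
    have hpm : p ∈ (Bs X N ρ).biUnion Nat.primeFactors := by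
      rw [mem_biUnion]
      exact ⟨n, hn, Nat.mem_primeFactors.2 ⟨hp, hpn, by omega⟩⟩
    have h1 := hbig p hpm
    have h2 : (p : ℤ) ≤ |c| := Int.le_of_dvd (abs_pos.2 hc0) ((dvd_abs _ _).2 hp2)
    have h3 : (p : ℝ) ≤ K := by exact_mod_cast h2.trans hcK
    have h4 := abs_nonneg (a : ℝ)
    linarith
  · -- G
    calc ∑ n ∈ Bs X N ρ, gd a n ≤ ∑ n ∈ Bs X N ρ, (X : ℝ) ^ κ / (2 + Real.log X) * (1 / (n : ℝ)) := by
          apply sum_le_sum
          intro n hn
          unfold gd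
          rw [div_eq_mul_one_div]
          exact mul_le_mul_of_nonneg_right (hRt n hn) (by positivity)
      _ = (X : ℝ) ^ κ / (2 + Real.log X) * ∑ n ∈ Bs X N ρ, (1 / (n : ℝ)) := by rw [mul_sum]
      _ ≤ (X : ℝ) ^ κ / (2 + Real.log X) * (2 + Real.log X) := by
          apply mul_le_mul_of_nonneg_left _ (by positivity)
          refine le_trans ?_ ((harm N).trans hlogN)
          apply sum_le_sum_of_subset_of_nonneg
          · unfold Bs
            exact filter_subset _ _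
          · intro _ _ _
            positivity
      _ = _ := by field_simp
  · -- Gp
    intro p hp
    obtain ⟨d1, d2, d3⟩ := hPB p hp
    have hpr : (0 : ℝ) < p := by exact_mod_cast d1.pos
    calc ∑ n ∈ (Bs X N ρ).filter (fun n => p ∣ n), gd a n ≤
        ∑ n ∈ (Bs X N ρ).filter (fun n => p ∣ n), (X : ℝ) ^ κ / (2 + Real.log X) * (1 / (n : ℝ)) := by
          apply sum_le_sum
          intro n hn
          unfold gd
          rw [div_eq_mul_one_div]
          exact mul_le_mul_of_nonneg_right (hRt n (mem_filter.1 hn).1) (by positivity)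
      _ = (X : ℝ) ^ κ / (2 + Real.log X) * ∑ n ∈ (Bs X N ρ).filter (fun n => p ∣ n), (1 / (n : ℝ)) := by
          rw [mul_sum]
      _ ≤ (X : ℝ) ^ κ / (2 + Real.log X) * ((1 / p) * (2 + Real.log X)) := by
          apply mul_le_mul_of_nonneg_left _ (by positivity)
          have h1 : ∑ n ∈ (Bs X N ρ).filter (fun n => p ∣ n), (1 / (n : ℝ)) ≤
              ∑ n ∈ (Icc 1 N).image (fun j => p * j), (1 / (n : ℝ)) := by
            apply sum_le_sum_of_subset_of_nonneg
            · intro n hn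
              rw [mem_filter] at hn
              obtain ⟨c1, c2, _⟩ := hmem n hn.1
              obtain ⟨j, hj⟩ := hn.2
              rw [mem_image]
              refine ⟨j, ?_, hj.symm⟩
              rw [mem_Icc]
              constructor
              · rcases Nat.eq_zero_or_pos j with h | h
                · rw [h] at hj; omega
                · exact h
              · have : j ≤ p * j := Nat.le_mul_of_pos_left j d1.pos
                omega
            · intro _ _ _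
              positivity
          refine h1.trans ?_
          rw [sum_image (fun a _ b _ h => Nat.eq_of_mul_eq_mul_left d1.pos h)]
          calc ∑ j ∈ Icc 1 N, (1 / ((p * j : ℕ) : ℝ)) = (1 / p) * ∑ j ∈ Icc 1 N, (1 / (j : ℝ)) := by
                rw [mul_sum]
                apply sum_congr rfl
                intro j _
                push_cast
                rw [one_div_mul_one_div]
            _ ≤ _ := by
                apply mul_le_mul_of_nonneg_left _ (by positivity)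
                exact (harm N).trans hlogN
      _ = _ := by field_simp
  · -- P2
    calc ∑ p ∈ (Bs X N ρ).biUnion Nat.primeFactors, 1 / (p : ℝ) ^ 2 ≤
        ∑ p ∈ (Bs X N ρ).biUnion Nat.primeFactors, (1 / (X : ℝ) ^ ρ) * (1 / (p : ℝ)) := by
          apply sum_le_sum
          intro p hp
          obtain ⟨d1, d2, d3⟩ := hPB p hp
          have hpr : (0 : ℝ) < p := by exact_mod_cast d1.pos
          rw [one_div_mul_one_div, sq]
          apply one_div_le_one_div_of_le (by positivity)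
          exact mul_le_mul_of_nonneg_right d3 hpr.le
      _ = (1 / (X : ℝ) ^ ρ) * ∑ p ∈ (Bs X N ρ).biUnion Nat.primeFactors, (1 / (p : ℝ)) := by
          rw [mul_sum]
      _ ≤ (1 / (X : ℝ) ^ ρ) * (X : ℝ) ^ κ := mul_le_mul_of_nonneg_left hP1 (by positivity)
      _ = _ := by ring
  · -- P3
    intro p hp
    obtain ⟨d1, d2, d3⟩ := hPB p hp
    refine ⟨?_, ?_, d2.trans hNH⟩
    · rintro rfl
      have h1 : (3 : ℝ) ≤ (X : ℝ) ^ ρ := b1.trans (Real.rpow_le_rpow_of_exponent_le hX1' hκρ)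
      have h2 : (X : ℝ) ^ ρ ≤ 2 := by exact_mod_cast d3
      linarith
    · intro hpa
      have h1 := hbig p hp
      have h2 : (p : ℤ) ≤ |a| := Int.le_of_dvd (abs_pos.2 ha) ((dvd_abs _ _).2 hpa)
      have h3 : (p : ℝ) ≤ |(a : ℝ)| := by exact_mod_cast h2
      have h4 : (0 : ℝ) ≤ K := Nat.cast_nonneg K
      linarith
  · -- R
    calc ∑ n ∈ Bs X N ρ, ((Rt a n).card : ℝ) ≤ ∑ n ∈ Bs X N ρ, (X : ℝ) ^ κ := sum_le_sum hRt'
      _ = ((Bs X N ρ).card : ℝ) * (X : ℝ) ^ κ := by rw [sum_const, nsmul_eq_mul]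
      _ ≤ _ := by
          apply mul_le_mul_of_nonneg_right _ (by positivity)
          have : (Bs X N ρ).card ≤ N := by
            calc (Bs X N ρ).card ≤ (Icc 1 N).card := by
                  apply card_le_card
                  unfold Bs
                  exact filter_subset _ _
              _ = N := by simp
          exact_mod_cast this
  · -- s
    intro n hn
    obtain ⟨c1, c2, c3, c4⟩ := hmem n hn
    calc ∑ p ∈ n.primeFactors, (p : ℝ)⁻¹ ≤ ∑ p ∈ n.primeFactors, ((X : ℝ) ^ ρ)⁻¹ := by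
          apply sum_le_sum
          intro p hp
          exact inv_anti₀ hz0 (c4 p hp)
      _ = (n.primeFactors.card : ℝ) * ((X : ℝ) ^ ρ)⁻¹ := by rw [sum_const, nsmul_eq_mul]
      _ ≤ (X : ℝ) ^ κ * ((X : ℝ) ^ ρ)⁻¹ := by
          apply mul_le_mul_of_nonneg_right _ (by positivity)
          have h1 : n.primeFactors.card ≤ n.divisors.card := by
            apply card_le_card
            intro p hp
            rw [Nat.mem_divisors]
            exact ⟨Nat.dvd_of_mem_primeFactors hp, by omega⟩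
          have h2 : (n.primeFactors.card : ℝ) ≤ n.divisors.card := by exact_mod_cast h1
          refine h2.trans (a1 n c1 ?_)
          have h3 : (n : ℝ) ≤ X := by exact_mod_cast c2.trans hNX'
          nlinarith
      _ = _ := by
          rw [Real.rpow_sub hX0']
          rfl
  · -- M2
    have h1 : (M2 : ℝ) ≤ H := by
      refine hM2.trans (le_trans ?_ hH1)
      calc K * (X : ℝ) ^ (1 - ε) ≤ (X : ℝ) ^ (ε - κ) * (X : ℝ) ^ (1 - ε) :=
            mul_le_mul_of_nonneg_right b2 (by positivity)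
        _ = (X : ℝ) ^ (1 - κ) := by
            rw [← Real.rpow_add hX0']
            congr 1
            ring
    exact_mod_cast h1

end Pool.Agent.H543.DG
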