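import Pool.Agent.H543.DG.Rep
import Pool.Agent.H543.DG.Vb

/-!
# The bilinear form of level `X ^ (13/12 - ε)`: one form
-/

set_option autoImplicit false

namespace Pool.Agent.H543.DG

open Finset Filter
open Pool.Agent.Y346.PA (S_KL)
open scoped Classical

/-- the sum over the points of the cone of one form -/
noncomputable def Dsum (F : Fm) (a : ℤ) (K X H M M0 : ℕ) (al b : ℕ → ℝ) (B : Finset ℕ) : ℝ :=
  ∑ x ∈ Icc (1 : ℤ) ((K : ℤ) * M), ∑ y ∈ Ioo 0 x,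
    (if (M0 : ℤ) < qm F x y ∧ qm F x y ≤ (M : ℤ) then
      ∑ u ∈ US F X H x y, al (qm F x y).toNat * FF a b B (ww F x y u) else 0)

/-- one form -/
theorem D_one (kl : S_KL) (F : Fm) (a : ℤ) (ha : a ≠ 0) (K : ℕ) (hF : Cone F a K) (Md : ℕ) (Nb : ℝ)
    (hNb0 : 0 ≤ Nb) (hNb : ∀ m k : ℤ, (Md : ℤ) < m → m ∣ k ^ 2 + a → (Nn F K m k : ℝ) ≤ Nb)
    (ε ρ κ : ℝ) (hκ : 0 < κ) (hκε : 200 * κ ≤ ε) (hκρ : 100 * κ ≤ ρ)
    (hε : ε ≤ 1 / 100) : ∃ X0 : ℕ, ∀ X : ℕ, X0 ≤ X → ∀ H : ℕ, (X : ℝ) ^ (1 - κ) ≤ H → H ≤ X →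
    ∀ N M M0 : ℕ, (N : ℝ) ≤ (X : ℝ) ^ (1 / 12 - ε) → (M : ℝ) ≤ (X : ℝ) ^ (1 - ε) →
    (X : ℝ) ^ (9 / 10 : ℝ) ≤ M0 + 1 →
    ∀ al b : ℕ → ℝ, (∀ n, |al n| ≤ 1) → (∀ n, |b n| ≤ 1) →
    |Dsum F a K X H M M0 al b (Bs X N ρ)| ≤ 2 * (H * (X : ℝ) ^ (-κ)) := by
  obtain ⟨X1, hX1⟩ := V_small kl F a ha K hF Md Nb hNb0 hNb (ε / 2) ρ κ hκ (by linarith) hκρ
    (by linarith)
  obtain ⟨X2, hX2⟩ := ev_all a κ hκ
  have e1 : ∀ᶠ X : ℕ in atTop, (K : ℝ) + 1 ≤ (X : ℝ) ^ (1 / 50 : ℝ) :=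
    tendsto_natCast_atTop_atTop.eventually
      ((tendsto_rpow_atTop (by positivity)).eventually_ge_atTop _)
  have e2 : ∀ᶠ X : ℕ in atTop, (K : ℝ) ≤ (X : ℝ) ^ (ε / 2) :=
    tendsto_natCast_atTop_atTop.eventually
      ((tendsto_rpow_atTop (by linarith)).eventually_ge_atTop _)
  obtain ⟨X3, hX3⟩ := eventually_atTop.1 (e1.and e2)
  refine ⟨max (max X1 X2) X3, fun X hX H hH1 hH2 N M M0 hN hM hM0 al b hal hb => ?_⟩
  obtain ⟨a1, a2, a3, a4⟩ := hX2 X (((le_max_right _ _).trans (le_max_left _ _)).trans hX)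
  obtain ⟨b1, b2⟩ := hX3 X ((le_max_right _ _).trans hX)
  have hXr : (3 : ℝ) ≤ X := by exact_mod_cast a4
  have hX0 : (0 : ℝ) < X := by linarith
  have hX1' : (1 : ℝ) ≤ X := by linarith
  have hK1 : (1 : ℝ) ≤ K := by exact_mod_cast hF.K1
  have hr88 : (1 : ℝ) ≤ (X : ℝ) ^ (22 / 25 : ℝ) := Real.one_le_rpow hX1' (by norm_num)
  have hM0' : K * (X : ℝ) ^ (22 / 25 : ℝ) ≤ M0 := by
    have h1 : (K + 1) * (X : ℝ) ^ (22 / 25 : ℝ) ≤ (X : ℝ) ^ (9 / 10 : ℝ) := by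
      calc (K + 1) * (X : ℝ) ^ (22 / 25 : ℝ) ≤ (X : ℝ) ^ (1 / 50 : ℝ) * (X : ℝ) ^ (22 / 25 : ℝ) :=
            mul_le_mul_of_nonneg_right b1 (by positivity)
        _ ≤ _ := rmul2 X hX1' _ _ _ (by norm_num)
    linarith
  set Xs : Finset ℕ := (Icc 1 (K * M)).filter (fun x => M0 < K * (x * x) ∧ x * x ≤ K * M) with hXs
  have hXsp : ∀ x ∈ Xs, (X : ℝ) ^ (11 / 25 : ℝ) ≤ x ∧ (x : ℝ) ^ 2 ≤ (X : ℝ) ^ (1 - ε / 2) := by
    intro x hx
    rw [hXs, mem_filter] at hx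
    obtain ⟨_, h1, h2⟩ := hx
    constructor
    · have h3 : (M0 : ℝ) < K * (x * x) := by exact_mod_cast h1
      have h4 : (X : ℝ) ^ (22 / 25 : ℝ) ≤ (x : ℝ) ^ 2 := by
        have h6 : K * (X : ℝ) ^ (22 / 25 : ℝ) ≤ K * ((x : ℝ) * x) := by linarith
        rw [sq]
        exact le_of_mul_le_mul_left h6 (by linarith)
      have h5 : ((X : ℝ) ^ (11 / 25 : ℝ)) ^ 2 = (X : ℝ) ^ (22 / 25 : ℝ) := by
        rw [← Real.rpow_natCast, ← Real.rpow_mul hX0.le]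
        norm_num
      rw [← h5] at h4
      exact abs_le_of_sq_le_sq' h4 (Nat.cast_nonneg x) |>.2
    · have h3 : ((x : ℝ)) ^ 2 ≤ K * M := by
        rw [sq]
        exact_mod_cast h2
      refine h3.trans ?_
      calc (K : ℝ) * M ≤ (X : ℝ) ^ (ε / 2) * (X : ℝ) ^ (1 - ε) :=
            mul_le_mul b2 hM (Nat.cast_nonneg M) (by positivity)
        _ ≤ _ := rmul2 X hX1' _ _ _ (by linarith)
  have hVs := hX1 X (((le_max_left _ _).trans (le_max_left _ _)).trans hX) H hH1 hH2 N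
    (hN.trans (Real.rpow_le_rpow_of_exponent_le hX1' (by linarith))) b hb Xs hXsp
  -- reduction to the absolute values
  have h1 : |Dsum F a K X H M M0 al b (Bs X N ρ)| ≤
      ∑ x ∈ Xs, ∑ y ∈ Ioo 0 (x : ℤ), |SS F a X H b (Bs X N ρ) x y| := by
    have h2 : Dsum F a K X H M M0 al b (Bs X N ρ) =
        ∑ x ∈ Xs.map ⟨fun x : ℕ => (x : ℤ), Nat.cast_injective⟩, ∑ y ∈ Ioo 0 x,
        (if (M0 : ℤ) < qm F x y ∧ qm F x y ≤ (M : ℤ) then
        ∑ u ∈ US F X H x y, al (qm F x y).toNat * FF a b (Bs X N ρ) (ww F x y u) else 0) := by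
      unfold Dsum
      symm
      apply sum_subset
      · intro x hx
        rw [Finset.mem_map] at hx
        obtain ⟨x', hx', rfl⟩ := hx
        rw [hXs, mem_filter, mem_Icc] at hx'
        simp only [Function.Embedding.coeFn_mk, mem_Icc]
        constructor
        · exact_mod_cast hx'.1.1
        · exact_mod_cast hx'.1.2
      · intro x hx hx'
        rw [mem_Icc] at hx
        apply sum_eq_zero
        intro y hy
        rw [mem_Ioo] at hy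
        by_cases hc : (M0 : ℤ) < qm F x y ∧ qm F x y ≤ (M : ℤ)
        · exfalso
          apply hx'
          rw [Finset.mem_map]
          have hxc : ((x.toNat : ℕ) : ℤ) = x := Int.toNat_of_nonneg (by linarith)
          refine ⟨x.toNat, ?_, hxc⟩
          have d1 := hF.dn x y hy.1.le hy.2.le
          have d2 := hF.up x y hy.1.le hy.2.le
          have hK0 : (0 : ℤ) ≤ K := Int.natCast_nonneg K
          have d3 : (K : ℤ) * qm F x y ≤ K * M := mul_le_mul_of_nonneg_left hc.2 hK0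
          rw [hXs, mem_filter, mem_Icc]
          refine ⟨⟨?_, ?_⟩, ?_, ?_⟩
          · have : (1 : ℤ) ≤ (x.toNat : ℤ) := by rw [hxc]; exact hx.1
            exact_mod_cast this
          · have : (x.toNat : ℤ) ≤ K * M := by rw [hxc]; exact hx.2
            exact_mod_cast this
          · have : (M0 : ℤ) < K * ((x.toNat : ℤ) * x.toNat) := by
              rw [hxc]
              linarith [hc.1, sq x]
            exact_mod_cast this
          · have : ((x.toNat : ℤ) * x.toNat) ≤ K * M := by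
              rw [hxc]
              linarith [sq x]
            exact_mod_cast this
        · rw [if_neg hc]
    rw [h2, sum_map]
    refine (abs_sum_le_sum_abs _ _).trans (sum_le_sum fun x hx => ?_)
    simp only [Function.Embedding.coeFn_mk]
    refine (abs_sum_le_sum_abs _ _).trans (sum_le_sum fun y hy => ?_)
    split_ifs with hc1
    · rw [← mul_sum, abs_mul]
      unfold SS
      calc |al (qm F x y).toNat| * |∑ u ∈ US F X H x y, FF a b (Bs X N ρ) (ww F x y u)| ≤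
          1 * |∑ u ∈ US F X H x y, FF a b (Bs X N ρ) (ww F x y u)| :=
            mul_le_mul_of_nonneg_right (hal _) (abs_nonneg _)
        _ = _ := one_mul _
    · rw [abs_zero]
      exact abs_nonneg _
  refine h1.trans ?_
  -- Cauchy
  have h3 : (∑ x ∈ Xs, ∑ y ∈ Ioo 0 (x : ℤ), |SS F a X H b (Bs X N ρ) x y|) ^ 2 ≤
      (∑ x ∈ Xs, ∑ y ∈ Ioo 0 (x : ℤ), (1 / (x : ℝ)) ^ 2) *
      (∑ x ∈ Xs, ∑ y ∈ Ioo 0 (x : ℤ), ((x : ℝ) * |SS F a X H b (Bs X N ρ) x y|) ^ 2) := by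
    have h4 := Finset.sum_mul_sq_le_sq_mul_sq (Xs.sigma (fun x : ℕ => Ioo 0 (x : ℤ)))
      (fun s => (1 / (s.1 : ℝ))) (fun s => (s.1 : ℝ) * |SS F a X H b (Bs X N ρ) s.1 s.2|)
    rw [sum_sigma, sum_sigma, sum_sigma] at h4
    refine le_trans (le_of_eq ?_) h4
    congr 1
    apply sum_congr rfl
    intro x hx
    have hx0 : (x : ℝ) ≠ 0 := by
      rw [hXs, mem_filter, mem_Icc] at hx
      have : 1 ≤ x := hx.1.1
      exact_mod_cast (by omega : x ≠ 0)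
    apply sum_congr rfl
    intro y _
    simp only
    field_simp
  have h4 : ∑ x ∈ Xs, ∑ y ∈ Ioo 0 (x : ℤ), (1 / (x : ℝ)) ^ 2 ≤ (X : ℝ) ^ κ := by
    calc ∑ x ∈ Xs, ∑ y ∈ Ioo 0 (x : ℤ), (1 / (x : ℝ)) ^ 2 ≤ ∑ x ∈ Xs, 1 / (x : ℝ) := by
          apply sum_le_sum
          intro x hx
          rw [hXs, mem_filter, mem_Icc] at hx
          have hx1 : 1 ≤ x := hx.1.1
          have hx0 : (0 : ℝ) < x := by exact_mod_cast hx1
          rw [sum_const, nsmul_eq_mul, Int.card_Ioo]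
          have h5 : (((x : ℤ) - 0 - 1).toNat : ℝ) ≤ x := by
            have : ((x : ℤ) - 0 - 1).toNat ≤ x := by omega
            exact_mod_cast this
          calc (((x : ℤ) - 0 - 1).toNat : ℝ) * (1 / (x : ℝ)) ^ 2 ≤ x * (1 / (x : ℝ)) ^ 2 :=
                mul_le_mul_of_nonneg_right h5 (by positivity)
            _ = _ := by field_simp
      _ ≤ ∑ x ∈ Icc 1 X, 1 / (x : ℝ) := by
          apply sum_le_sum_of_subset_of_nonneg
          · intro x hx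
            obtain ⟨h3, h4⟩ := hXsp x hx
            rw [hXs, mem_filter, mem_Icc] at hx
            rw [mem_Icc]
            refine ⟨hx.1.1, ?_⟩
            have h5 : (x : ℝ) ^ 2 ≤ X := by
              refine h4.trans ?_
              calc (X : ℝ) ^ (1 - ε / 2) ≤ (X : ℝ) ^ (1 : ℝ) :=
                    Real.rpow_le_rpow_of_exponent_le hX1' (by linarith)
                _ = X := Real.rpow_one _
            have h6 : (1 : ℝ) ≤ x := by exact_mod_cast hx.1.1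
            have h7 : (x : ℝ) ≤ X := by nlinarith
            exact_mod_cast h7
          · intro _ _ _
            positivity
      _ ≤ 1 + Real.log X := harm X
      _ ≤ _ := by linarith
  have h5 : ∑ x ∈ Xs, ∑ y ∈ Ioo 0 (x : ℤ), ((x : ℝ) * |SS F a X H b (Bs X N ρ) x y|) ^ 2 ≤
      (H : ℝ) ^ 2 * (X : ℝ) ^ (-4 * κ) := by
    refine le_trans (le_of_eq ?_) hVs
    apply sum_congr rfl
    intro x _
    rw [mul_sum]
    apply sum_congr rfl
    intro y _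
    rw [mul_pow, sq_abs]
  have h6 : (∑ x ∈ Xs, ∑ y ∈ Ioo 0 (x : ℤ), |SS F a X H b (Bs X N ρ) x y|) ^ 2 ≤
      (2 * (H * (X : ℝ) ^ (-κ))) ^ 2 := by
    refine h3.trans ?_
    calc (∑ x ∈ Xs, ∑ y ∈ Ioo 0 (x : ℤ), (1 / (x : ℝ)) ^ 2) *
      (∑ x ∈ Xs, ∑ y ∈ Ioo 0 (x : ℤ), ((x : ℝ) * |SS F a X H b (Bs X N ρ) x y|) ^ 2) ≤
        ((X : ℝ) ^ κ) * ((H : ℝ) ^ 2 * (X : ℝ) ^ (-4 * κ)) := by
          apply mul_le_mul h4 h5 _ (by positivity)
          exact sum_nonneg fun x _ => sum_nonneg fun y _ => sq_nonneg _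
      _ = ((H : ℝ) ^ 2 * ((X : ℝ) ^ κ * (X : ℝ) ^ (-4 * κ))) := by ring
      _ ≤ 4 * ((H : ℝ) ^ 2 * (X : ℝ) ^ (-2 * κ)) := by
          have h7 : (X : ℝ) ^ κ * (X : ℝ) ^ (-4 * κ) ≤ (X : ℝ) ^ (-2 * κ) :=
            rmul2 X hX1' _ _ _ (by linarith)
          have h8 : (H : ℝ) ^ 2 * ((X : ℝ) ^ κ * (X : ℝ) ^ (-4 * κ)) ≤ (H : ℝ) ^ 2 * (X : ℝ) ^ (-2 * κ) :=
            mul_le_mul_of_nonneg_left h7 (by positivity)
          have h9 : 0 ≤ (H : ℝ) ^ 2 * (X : ℝ) ^ (-2 * κ) := by positivity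
          linarith
      _ = _ := by
          have : (X : ℝ) ^ (-2 * κ) = (X : ℝ) ^ (-κ) * (X : ℝ) ^ (-κ) := by
            rw [← Real.rpow_add hX0]
            congr 1
            ring
          rw [this]
          ring
  exact (abs_le_of_sq_le_sq' h6 (by positivity)).2

end Pool.Agent.H543.DG
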