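import Pool.Agent.H543.DG.Dec

/-!
# The bilinear form, coprime variables
-/

set_option autoImplicit false

namespace Pool.Agent.H543.DG

open Finset Filter
open Pool.Agent.Y346.PA (S_KL)
open scoped Classical

/-- **The bilinear form.** -/
theorem bil (kl : S_KL) {a : ℤ} (D : Dec a) (ε ρ κ : ℝ) (hκ : 0 < κ) (hκε : 200 * κ ≤ ε)
    (hκρ : 100 * κ ≤ ρ)
    (hε : ε ≤ 1 / 100) : ∃ X0 : ℕ, ∀ X : ℕ, X0 ≤ X → ∀ H : ℕ, (X : ℝ) ^ (1 - κ) ≤ H → H ≤ X →
    ∀ N M : ℕ, (N : ℝ) ≤ (X : ℝ) ^ (1 / 12 - ε) → (M : ℝ) ≤ (X : ℝ) ^ (1 - ε) →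
    ∀ al b : ℕ → ℝ, (∀ n, |al n| ≤ 1) → (∀ n, |b n| ≤ 1) → (∀ m, al m ≠ 0 → Squarefree m) →
    |∑ m ∈ Icc 1 M, ∑ n ∈ (Bs X N ρ).filter (fun n => Nat.Coprime m n),
      al m * b n * (cI a X H (m * n) - H * gd a (m * n))| ≤ H * (X : ℝ) ^ (-(κ / 2)) := by
  obtain ⟨X1, hX1⟩ := D_small kl D ε ρ κ hκ hκε hκρ hε
  obtain ⟨X2, hX2⟩ := ev_all a κ hκ
  obtain ⟨X4, hX4⟩ := hyp_holds a D.a0 0 κ ρ ε hκ (by linarith) (by linarith)
  have e1 : ∀ᶠ X : ℕ in atTop, (16 + 2 * ∑ i ∈ D.I, D.om i : ℝ) ≤ (X : ℝ) ^ (κ / 2) :=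
    tendsto_natCast_atTop_atTop.eventually
      ((tendsto_rpow_atTop (by positivity)).eventually_ge_atTop _)
  obtain ⟨X3, hX3⟩ := eventually_atTop.1 e1
  refine ⟨max (max X1 X2) (max X3 X4), fun X hX H hH1 hH2 N M hN hM al b hal hb hsq => ?_⟩
  obtain ⟨a1, a2, a3, a4⟩ := hX2 X (((le_max_right _ _).trans (le_max_left _ _)).trans hX)
  have b1 := hX3 X (((le_max_left _ _).trans (le_max_right _ _)).trans hX)
  have hXr : (3 : ℝ) ≤ X := by exact_mod_cast a4
  have hX0 : (0 : ℝ) < X := by linarith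
  have hX1' : (1 : ℝ) ≤ X := by linarith
  have hlog : 0 ≤ Real.log X := Real.log_nonneg hX1'
  set T1 : ℝ := (X : ℝ) ^ κ with hT1
  have hT1p : 1 ≤ T1 := Real.one_le_rpow hX1' hκ.le
  have hyp := hX4 X (((le_max_right _ _).trans (le_max_right _ _)).trans hX) H N 0 hH1 hH2
    (hN.trans (Real.rpow_le_rpow_of_exponent_le hX1' (by linarith))) (by push_cast; positivity) (by linarith)
  set B := Bs X N ρ with hB
  have hBm : ∀ n ∈ B, 1 ≤ n ∧ n ≤ N ∧ Squarefree n := by
    intro n hn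
    rw [hB] at hn
    unfold Bs at hn
    rw [mem_filter, mem_Icc] at hn
    exact ⟨hn.1.1, hn.1.2, hn.2.1⟩
  set M0 : ℕ := ⌊(X : ℝ) ^ (9 / 10 : ℝ)⌋₊ with hM0
  have hM0u : (M0 : ℝ) ≤ (X : ℝ) ^ (9 / 10 : ℝ) := Nat.floor_le (by positivity)
  have hM0l : (X : ℝ) ^ (9 / 10 : ℝ) ≤ M0 + 1 := (Nat.lt_floor_add_one _).le
  have hMX : M ≤ X := by
    have : (M : ℝ) ≤ X := by
      refine hM.trans ?_
      calc (X : ℝ) ^ (1 - ε) ≤ (X : ℝ) ^ (1 : ℝ) := Real.rpow_le_rpow_of_exponent_le hX1' (by linarith)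
        _ = X := Real.rpow_one _
    exact_mod_cast this
  have hNX : N ≤ X := by
    have : (N : ℝ) ≤ X := by
      refine hN.trans ?_
      calc (X : ℝ) ^ (1 / 12 - ε) ≤ (X : ℝ) ^ (1 : ℝ) := Real.rpow_le_rpow_of_exponent_le hX1' (by linarith)
        _ = X := Real.rpow_one _
    exact_mod_cast this
  have hD := hX1 X (((le_max_left _ _).trans (le_max_left _ _)).trans hX) H hH1 hH2 N M M0 hN hM hM0l
    al b hal hb
  rw [← hB] at hD
  have hNC := nc_total a 0 X H N 0 B T1 _ _ _ hyp (Ioc M0 M)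
  have hR : ∀ m : ℕ, m ≤ X → Squarefree m → ((Rt a m).card : ℝ) ≤ T1 := by
    intro m hm hs
    have h1 := a2 m hm hs
    have h2 : (0 : ℝ) ≤ (Rt a m).card := Nat.cast_nonneg _
    nlinarith
  -- the split
  set w : ℕ → ℕ → ℝ := fun m n => al m * b n * (cI a X H (m * n) - H * gd a (m * n)) with hw
  have hIoc : (Icc 1 M).filter (fun m => ¬ m ≤ M0) = Ioc M0 M := by
    ext m
    rw [mem_filter, mem_Icc, mem_Ioc]
    omega
  rw [← sum_filter_add_sum_filter_not (Icc 1 M) (fun m => m ≤ M0), hIoc]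
  -- small `m`
  have hP1 : |∑ m ∈ (Icc 1 M).filter (fun m => m ≤ M0), ∑ n ∈ B.filter (fun n => Nat.Coprime m n), w m n| ≤
      4 * T1 ^ 2 * (M0 * N) := by
    have h1 : ∀ m ∈ (Icc 1 M).filter (fun m => m ≤ M0), ∀ n ∈ B.filter (fun n => Nat.Coprime m n),
        |w m n| ≤ 4 * T1 ^ 2 := by
      intro m hm n hn
      rw [mem_filter, mem_Icc] at hm
      rw [mem_filter] at hn
      obtain ⟨c1, c2, c3⟩ := hBm n hn.1
      simp only [hw]
      by_cases ham : al m = 0
      · rw [ham]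
        simp
        positivity
      · have hms := hsq m ham
        rw [abs_mul, abs_mul]
        have h2 := cI_asym a X H (m * n) (Nat.mul_pos hm.1.1 c1)
        rw [Rt_mul a m n hm.1.1 c1 hn.2] at h2
        have h3 := hR m (hm.1.2.trans hMX) hms
        have h4 := hR n (c2.trans hNX) c3
        have h5 : ((Rt a m).card : ℝ) * (Rt a n).card ≤ T1 * T1 :=
          mul_le_mul h3 h4 (Nat.cast_nonneg _) (by linarith)
        push_cast at h2
        have h6 : |cI a X H (m * n) - H * gd a (m * n)| ≤ 4 * T1 ^ 2 := by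
          refine h2.trans ?_
          nlinarith
        calc |al m| * |b n| * |cI a X H (m * n) - H * gd a (m * n)| ≤ 1 * 1 * (4 * T1 ^ 2) := by
              apply mul_le_mul _ h6 (abs_nonneg _) (by norm_num)
              exact mul_le_mul (hal m) (hb n) (abs_nonneg _) zero_le_one
          _ = _ := by ring
    calc |∑ m ∈ (Icc 1 M).filter (fun m => m ≤ M0), ∑ n ∈ B.filter (fun n => Nat.Coprime m n), w m n| ≤
        ∑ m ∈ (Icc 1 M).filter (fun m => m ≤ M0), ∑ n ∈ B.filter (fun n => Nat.Coprime m n), 4 * T1 ^ 2 := by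
          refine (abs_sum_le_sum_abs _ _).trans (sum_le_sum fun m hm => ?_)
          exact (abs_sum_le_sum_abs _ _).trans (sum_le_sum fun n hn => h1 m hm n hn)
      _ ≤ ∑ m ∈ Icc 1 M0, ∑ n ∈ Icc 1 N, 4 * T1 ^ 2 := by
          refine le_trans (sum_le_sum (g := fun _ => ∑ n ∈ Icc 1 N, 4 * T1 ^ 2) fun m _ => ?_)
            (sum_le_sum_of_subset_of_nonneg ?_ ?_)
          · apply sum_le_sum_of_subset_of_nonneg
            · intro n hn
              rw [mem_filter] at hn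
              obtain ⟨c1, c2, c3⟩ := hBm n hn.1
              exact mem_Icc.2 ⟨c1, c2⟩
            · intro _ _ _
              positivity
          · intro m hm
            rw [mem_filter, mem_Icc] at hm
            exact mem_Icc.2 ⟨hm.1.1, hm.2⟩
          · intro _ _ _
            positivity
      _ = _ := by
          rw [sum_const, sum_const, nsmul_eq_mul, nsmul_eq_mul, Nat.card_Icc, Nat.card_Icc]
          simp only [Nat.add_sub_cancel]
          ring
  -- large `m`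
  have hP2 : |∑ m ∈ Ioc M0 M, ∑ n ∈ B.filter (fun n => Nat.Coprime m n), w m n| ≤
      (∑ i ∈ D.I, D.om i) * (2 * (H * (X : ℝ) ^ (-κ))) + (4 * T1 ^ 3 * (H / (X : ℝ) ^ ρ) + 2 * T1 ^ 2 * N + 2 * T1 ^ 3) +
        4 * T1 ^ 2 * M := by
    set nc : ℝ := ∑ m ∈ Ioc M0 M, ∑ n ∈ B.filter (fun n => ¬ Nat.Coprime m n),
      al m * b n * (cI a X H (m * n) - gd a n * cI a X H m) with hnc
    set qq : ℝ := ∑ m ∈ Ioc M0 M, ∑ n ∈ B.filter (fun n => Nat.Coprime m n),
      al m * b n * (gd a n * (cI a X H m - H * gd a m)) with hqq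
    have hsplit : ∑ m ∈ Ioc M0 M, ∑ n ∈ B.filter (fun n => Nat.Coprime m n), w m n =
        ∑ m ∈ Ioc M0 M, ∑ n ∈ B, al m * b n * (cI a X H (m * n) - gd a n * cI a X H m) - nc + qq := by
      rw [hnc, hqq, ← sum_sub_distrib, ← sum_add_distrib]
      apply sum_congr rfl
      intro m hm
      rw [mem_Ioc] at hm
      rw [← sum_filter_add_sum_filter_not B (fun n => Nat.Coprime m n), add_sub_cancel_right,
        ← sum_add_distrib]
      apply sum_congr rfl
      intro n hn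
      rw [mem_filter] at hn
      obtain ⟨c1, c2, c3⟩ := hBm n hn.1
      simp only [hw]
      rw [gd_mul a m n (by omega) c1 hn.2]
      ring
    have hncb : |nc| ≤ 4 * T1 ^ 3 * (H / (X : ℝ) ^ ρ) + 2 * T1 ^ 2 * N + 2 * T1 ^ 3 := by
      refine le_trans ?_ hNC
      rw [hnc]
      refine (abs_sum_le_sum_abs _ _).trans (sum_le_sum fun m _ => ?_)
      refine (abs_sum_le_sum_abs _ _).trans (sum_le_sum fun n _ => ?_)
      rw [abs_mul, abs_mul]
      have h1 : |cI a X H (m * n) - gd a n * cI a X H m| ≤ cI a X H (m * n) + gd a n * cI a X H m := by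
        have u1 := cI_nonneg a X H (m * n)
        have u2 := mul_nonneg (gd_nonneg a n) (cI_nonneg a X H m)
        rw [abs_le]
        constructor <;> linarith
      calc |al m| * |b n| * |cI a X H (m * n) - gd a n * cI a X H m| ≤
          1 * 1 * (cI a X H (m * n) + gd a n * cI a X H m) := by
            apply mul_le_mul _ h1 (abs_nonneg _) (by norm_num)
            exact mul_le_mul (hal m) (hb n) (abs_nonneg _) zero_le_one
        _ = _ := by ring
    have hqqb : |qq| ≤ 4 * T1 ^ 2 * M := by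
      rw [hqq]
      calc |∑ m ∈ Ioc M0 M, ∑ n ∈ B.filter (fun n => Nat.Coprime m n),
            al m * b n * (gd a n * (cI a X H m - H * gd a m))| ≤
          ∑ m ∈ Ioc M0 M, ∑ n ∈ B, gd a n * (4 * T1) := by
            refine (abs_sum_le_sum_abs _ _).trans (sum_le_sum fun m hm => ?_)
            rw [mem_Ioc] at hm
            refine (abs_sum_le_sum_abs _ _).trans ?_
            refine le_trans (sum_le_sum (g := fun n => gd a n * (4 * T1)) fun n hn => ?_)
              (sum_le_sum_of_subset_of_nonneg (filter_subset _ _) fun n _ _ =>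
                mul_nonneg (gd_nonneg a n) (by linarith))
            by_cases ham : al m = 0
            · rw [ham]
              simp
              exact mul_nonneg (gd_nonneg a n) (by linarith)
            · have hms := hsq m ham
              rw [abs_mul, abs_mul, abs_mul, abs_of_nonneg (gd_nonneg a n)]
              have h2 := cI_asym a X H m (by omega)
              have h3 := hR m (hm.2.trans hMX) hms
              have h6 : |cI a X H m - H * gd a m| ≤ 4 * T1 := by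
                refine h2.trans ?_
                linarith
              calc |al m| * |b n| * (gd a n * |cI a X H m - H * gd a m|) ≤ 1 * 1 * (gd a n * (4 * T1)) := by
                    apply mul_le_mul _ _ (mul_nonneg (gd_nonneg a n) (abs_nonneg _)) (by norm_num)
                    · exact mul_le_mul (hal m) (hb n) (abs_nonneg _) zero_le_one
                    · exact mul_le_mul_of_nonneg_left h6 (gd_nonneg a n)
                _ = _ := by ring
        _ ≤ ∑ m ∈ Ioc M0 M, T1 * (4 * T1) := by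
            apply sum_le_sum
            intro m _
            rw [← sum_mul]
            exact mul_le_mul_of_nonneg_right hyp.G (by linarith)
        _ = ((M - M0 : ℕ) : ℝ) * (4 * T1 ^ 2) := by
            rw [sum_const, nsmul_eq_mul, Nat.card_Ioc]
            ring
        _ ≤ M * (4 * T1 ^ 2) := by
            apply mul_le_mul_of_nonneg_right _ (by positivity)
            have : M - M0 ≤ M := Nat.sub_le _ _
            exact_mod_cast this
        _ = _ := by ring
    rw [hsplit]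
    calc |∑ m ∈ Ioc M0 M, ∑ n ∈ B, al m * b n * (cI a X H (m * n) - gd a n * cI a X H m) - nc + qq| ≤
        |∑ m ∈ Ioc M0 M, ∑ n ∈ B, al m * b n * (cI a X H (m * n) - gd a n * cI a X H m) - nc| + |qq| :=
          abs_add_le _ _
      _ ≤ |∑ m ∈ Ioc M0 M, ∑ n ∈ B, al m * b n * (cI a X H (m * n) - gd a n * cI a X H m)| + |nc| + |qq| := by
          have := abs_sub (∑ m ∈ Ioc M0 M, ∑ n ∈ B, al m * b n * (cI a X H (m * n) - gd a n * cI a X H m)) nc
          linarith
      _ ≤ _ := by linarith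
  -- numbers
  have hH0 : (0 : ℝ) < H := lt_of_lt_of_le (by positivity) hH1
  set U : ℝ := H * (X : ℝ) ^ (-κ) with hU
  have hUl : (X : ℝ) ^ (1 - 2 * κ) ≤ U := by
    rw [hU]
    calc (X : ℝ) ^ (1 - 2 * κ) = (X : ℝ) ^ (1 - κ) * (X : ℝ) ^ (-κ) := by
          rw [← Real.rpow_add hX0]
          congr 1
          ring
      _ ≤ _ := mul_le_mul_of_nonneg_right hH1 (by positivity)
  have hT2 : T1 ^ 2 = (X : ℝ) ^ (2 * κ) := by
    rw [hT1, ← Real.rpow_natCast, ← Real.rpow_mul hX0.le]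
    congr 1
    push_cast
    ring
  have hT3 : T1 ^ 3 = (X : ℝ) ^ (3 * κ) := by
    rw [hT1, ← Real.rpow_natCast, ← Real.rpow_mul hX0.le]
    congr 1
    push_cast
    ring
  have q1 : 4 * T1 ^ 2 * (M0 * N) ≤ 4 * U := by
    rw [hT2]
    calc 4 * (X : ℝ) ^ (2 * κ) * (M0 * N) ≤
        4 * (X : ℝ) ^ (2 * κ) * ((X : ℝ) ^ (9 / 10 : ℝ) * (X : ℝ) ^ (1 / 12 - ε)) := by
          apply mul_le_mul_of_nonneg_left _ (by positivity)
          exact mul_le_mul hM0u hN (Nat.cast_nonneg _) (by positivity)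
      _ = 4 * ((X : ℝ) ^ (2 * κ) * (X : ℝ) ^ (9 / 10 : ℝ) * (X : ℝ) ^ (1 / 12 - ε)) := by ring
      _ ≤ 4 * (X : ℝ) ^ (1 - 2 * κ) := by
          apply mul_le_mul_of_nonneg_left _ (by norm_num)
          exact rmul3 X hX1' _ _ _ _ (by linarith)
      _ ≤ _ := by linarith
  have q2 : 4 * T1 ^ 3 * (H / (X : ℝ) ^ ρ) ≤ 4 * U := by
    rw [hT3, hU]
    calc 4 * (X : ℝ) ^ (3 * κ) * (H / (X : ℝ) ^ ρ) =
        4 * (H * ((X : ℝ) ^ (3 * κ) * (X : ℝ) ^ (-ρ))) := by
          rw [Real.rpow_neg hX0.le]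
          ring
      _ ≤ _ := by
          apply mul_le_mul_of_nonneg_left _ (by norm_num)
          apply mul_le_mul_of_nonneg_left _ hH0.le
          exact rmul2 X hX1' _ _ _ (by linarith)
  have q3 : 2 * T1 ^ 2 * N ≤ 2 * U := by
    rw [hT2]
    calc 2 * (X : ℝ) ^ (2 * κ) * N ≤ 2 * (X : ℝ) ^ (2 * κ) * (X : ℝ) ^ (1 / 12 - ε) :=
          mul_le_mul_of_nonneg_left hN (by positivity)
      _ = 2 * ((X : ℝ) ^ (2 * κ) * (X : ℝ) ^ (1 / 12 - ε)) := by ring
      _ ≤ 2 * (X : ℝ) ^ (1 - 2 * κ) := by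
          apply mul_le_mul_of_nonneg_left _ (by norm_num)
          exact rmul2 X hX1' _ _ _ (by linarith)
      _ ≤ _ := by linarith
  have q4 : 2 * T1 ^ 3 ≤ 2 * U := by
    rw [hT3]
    have : (X : ℝ) ^ (3 * κ) ≤ (X : ℝ) ^ (1 - 2 * κ) :=
      Real.rpow_le_rpow_of_exponent_le hX1' (by linarith)
    linarith
  have q5 : 4 * T1 ^ 2 * M ≤ 4 * U := by
    rw [hT2]
    calc 4 * (X : ℝ) ^ (2 * κ) * M ≤ 4 * (X : ℝ) ^ (2 * κ) * (X : ℝ) ^ (1 - ε) :=
          mul_le_mul_of_nonneg_left hM (by positivity)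
      _ = 4 * ((X : ℝ) ^ (2 * κ) * (X : ℝ) ^ (1 - ε)) := by ring
      _ ≤ 4 * (X : ℝ) ^ (1 - 2 * κ) := by
          apply mul_le_mul_of_nonneg_left _ (by norm_num)
          exact rmul2 X hX1' _ _ _ (by linarith)
      _ ≤ _ := by linarith
  have q6 : (16 + 2 * ∑ i ∈ D.I, D.om i) * U ≤ H * (X : ℝ) ^ (-(κ / 2)) := by
    rw [hU]
    calc (16 + 2 * ∑ i ∈ D.I, D.om i) * (H * (X : ℝ) ^ (-κ)) ≤ (X : ℝ) ^ (κ / 2) * (H * (X : ℝ) ^ (-κ)) :=
          mul_le_mul_of_nonneg_right b1 (by positivity)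
      _ = H * ((X : ℝ) ^ (κ / 2) * (X : ℝ) ^ (-κ)) := by ring
      _ ≤ _ := by
          apply mul_le_mul_of_nonneg_left _ hH0.le
          exact rmul2 X hX1' _ _ _ (by linarith)
  refine (abs_add_le _ _).trans ?_
  have q7 : (16 + 2 * ∑ i ∈ D.I, D.om i) * U = 16 * U + (∑ i ∈ D.I, D.om i) * (2 * U) := by ring
  rw [q7] at q6
  linarith only [hP1, hP2, q1, q2, q3, q4, q5, q6]

end Pool.Agent.H543.DG
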