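import Pool.Agent.H543.DG.Def

/-!
# Slopes and roots; the totient
-/

set_option autoImplicit false

namespace Pool.Agent.H543.DG

open Finset
open scoped Classical

theorem Rt_one (a : ℤ) : Rt a 1 = {0} := by
  unfold Rt
  ext i
  simp

theorem gd_one (a : ℤ) : gd a 1 = 1 := by
  unfold gd
  rw [Rt_one]
  simp

theorem gd_le (a : ℤ) (n : ℕ) (hn : 1 ≤ n) : gd a n ≤ (Rt a n).card := by
  unfold gd
  apply div_le_self (Nat.cast_nonneg _)
  exact_mod_cast hn

/-- the least residue -/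
theorem red_ex (n : ℕ) (hn : 1 ≤ n) (z : ℤ) : ∃ r : ℕ, r < n ∧ (n : ℤ) ∣ z - r := by
  have hn0 : (0 : ℤ) < n := by exact_mod_cast hn
  refine ⟨(z % n).toNat, ?_, ?_⟩
  · have h1 := Int.emod_lt_of_pos z hn0
    have h2 := Int.emod_nonneg z hn0.ne'
    omega
  · rw [Int.toNat_of_nonneg (Int.emod_nonneg z hn0.ne')]
    exact Int.dvd_self_sub_emod

theorem Rj_card (F : Fm) (a : ℤ) (hF : F.A * F.C - F.B ^ 2 = a) (n : ℕ) (hn : 1 ≤ n)
    (hnC : IsCoprime (n : ℤ) F.C) : (Rj F n).card = (Rt a n).card := by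
  obtain ⟨s, c, hsc⟩ := hnC
  have hdec : ∀ j : ℤ, (n : ℤ) ∣ F.C * j ^ 2 + 2 * F.B * j + F.A ↔ (n : ℤ) ∣ (F.C * j + F.B) ^ 2 + a := by
    intro j
    have e : (F.C * j + F.B) ^ 2 + a = F.C * (F.C * j ^ 2 + 2 * F.B * j + F.A) := by
      rw [← hF]; ring
    rw [e]
    constructor
    · exact fun h => h.mul_left _
    · intro h
      have : IsCoprime (n : ℤ) F.C := ⟨s, c, hsc⟩
      exact this.dvd_of_dvd_mul_left h
  choose red hr1 hr2 using fun z : ℤ => red_ex n hn z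
  apply card_bij (fun (j : ℕ) _ => red (F.C * j + F.B))
  · intro j hj
    unfold Rj at hj
    unfold Rt
    rw [mem_filter, mem_range] at hj ⊢
    refine ⟨hr1 _, ?_⟩
    have h1 := (hdec j).1 hj.2
    have h2 := hr2 (F.C * j + F.B)
    have e : ((red (F.C * j + F.B) : ℕ) : ℤ) ^ 2 + a = ((F.C * j + F.B) ^ 2 + a) -
        (F.C * j + F.B - (red (F.C * j + F.B) : ℕ)) * (F.C * j + F.B + (red (F.C * j + F.B) : ℕ)) := by
      ring
    rw [e]
    exact dvd_sub h1 (h2.mul_right _)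
  · intro j hj j' hj' h
    unfold Rj at hj hj'
    rw [mem_filter, mem_range] at hj hj'
    have h1 := hr2 (F.C * j + F.B)
    have h2 := hr2 (F.C * j' + F.B)
    rw [h] at h1
    have h3 : (n : ℤ) ∣ F.C * ((j : ℤ) - j') := by
      have e : F.C * ((j : ℤ) - j') = (F.C * j + F.B - (red (F.C * j' + F.B) : ℕ)) -
          (F.C * j' + F.B - (red (F.C * j' + F.B) : ℕ)) := by ring
      rw [e]
      exact dvd_sub h1 h2
    have hc : IsCoprime (n : ℤ) F.C := ⟨s, c, hsc⟩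
    have h4 := hc.dvd_of_dvd_mul_left h3
    have h5 : (j : ℤ) - j' = 0 := by
      apply Int.eq_zero_of_abs_lt_dvd h4
      rw [abs_lt]
      constructor <;> omega
    omega
  · intro i hi
    unfold Rt at hi
    rw [mem_filter, mem_range] at hi
    refine ⟨red (c * (i - F.B)), ?_, ?_⟩
    · unfold Rj
      rw [mem_filter, mem_range]
      refine ⟨hr1 _, ?_⟩
      rw [hdec]
      obtain ⟨t, ht⟩ := hr2 (c * (i - F.B))
      obtain ⟨r, hr⟩ := hi.2
      refine ⟨r - (F.C * t + s * (i - F.B)) *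
        (F.C * ((red (c * (i - F.B)) : ℕ) : ℤ) + F.B + i), ?_⟩
      have e1 : F.C * ((red (c * (i - F.B)) : ℕ) : ℤ) + F.B - i = -(n * (F.C * t + s * (i - F.B))) := by
        have : ((red (c * (i - F.B)) : ℕ) : ℤ) = c * (i - F.B) - n * t := by linarith
        rw [this]
        linear_combination ((i : ℤ) - F.B) * hsc
      have e2 : (F.C * ((red (c * (i - F.B)) : ℕ) : ℤ) + F.B) ^ 2 + a =
          ((i : ℤ) ^ 2 + a) + (F.C * ((red (c * (i - F.B)) : ℕ) : ℤ) + F.B - i) *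
            (F.C * ((red (c * (i - F.B)) : ℕ) : ℤ) + F.B + i) := by ring
      rw [e2, e1, hr]
      ring
    · -- the residue is `i`
      have h1 := hr2 (F.C * ((red (c * (i - F.B)) : ℕ) : ℤ) + F.B)
      obtain ⟨t, ht⟩ := hr2 (c * (i - F.B))
      have e1 : F.C * ((red (c * (i - F.B)) : ℕ) : ℤ) + F.B - i = n * (-(F.C * t + s * (i - F.B))) := by
        have : ((red (c * (i - F.B)) : ℕ) : ℤ) = c * (i - F.B) - n * t := by linarith
        rw [this]
        linear_combination ((i : ℤ) - F.B) * hsc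
      have h2 : (n : ℤ) ∣ (i : ℤ) - (red (F.C * ((red (c * (i - F.B)) : ℕ) : ℤ) + F.B) : ℕ) := by
        have e : (i : ℤ) - (red (F.C * ((red (c * (i - F.B)) : ℕ) : ℤ) + F.B) : ℕ) =
            (F.C * ((red (c * (i - F.B)) : ℕ) : ℤ) + F.B -
              (red (F.C * ((red (c * (i - F.B)) : ℕ) : ℤ) + F.B) : ℕ)) -
            (F.C * ((red (c * (i - F.B)) : ℕ) : ℤ) + F.B - i) := by ring
        rw [e]
        exact dvd_sub h1 ⟨_, e1⟩
      have h3 := hr1 (F.C * ((red (c * (i - F.B)) : ℕ) : ℤ) + F.B)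
      have h4 : (i : ℤ) - (red (F.C * ((red (c * (i - F.B)) : ℕ) : ℤ) + F.B) : ℕ) = 0 := by
        apply Int.eq_zero_of_abs_lt_dvd h2
        rw [abs_lt]
        constructor <;> omega
      omega

theorem tot_real (n : ℕ) : (n.totient : ℝ) = n * ∏ p ∈ n.primeFactors, (1 - (p : ℝ)⁻¹) := by
  have h := Nat.totient_eq_mul_prod_factors n
  have h2 : ((n.totient : ℚ) : ℝ) = ((n * ∏ p ∈ n.primeFactors, (1 - (p : ℚ)⁻¹) : ℚ) : ℝ) := by
    rw [h]
  push_cast at h2
  exact h2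

theorem fac01 (n p : ℕ) (hp : p ∈ n.primeFactors) : 0 ≤ 1 - (p : ℝ)⁻¹ ∧ 1 - (p : ℝ)⁻¹ ≤ 1 := by
  have h1 : (1 : ℝ) ≤ p := by exact_mod_cast (Nat.prime_of_mem_primeFactors hp).one_le
  have h2 : (p : ℝ)⁻¹ ≤ 1 := inv_le_one_of_one_le₀ h1
  have h3 : (0 : ℝ) ≤ (p : ℝ)⁻¹ := by positivity
  exact ⟨by linarith, by linarith⟩

theorem tot_up (x q : ℕ) (hx : 1 ≤ x) (hq : 1 ≤ q) :
    ((x * q).totient : ℝ) / q ≤ x.totient := by
  have hqr : (0 : ℝ) < q := by exact_mod_cast hq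
  rw [div_le_iff₀ hqr, tot_real, tot_real x]
  have h1 : ∏ p ∈ (x * q).primeFactors, (1 - (p : ℝ)⁻¹) ≤ ∏ p ∈ x.primeFactors, (1 - (p : ℝ)⁻¹) := by
    have hsub : x.primeFactors ⊆ (x * q).primeFactors :=
      Nat.primeFactors_mono (dvd_mul_right _ _) (by positivity)
    rw [← prod_sdiff hsub]
    calc (∏ p ∈ (x * q).primeFactors \ x.primeFactors, (1 - (p : ℝ)⁻¹)) *
        ∏ p ∈ x.primeFactors, (1 - (p : ℝ)⁻¹) ≤ 1 * ∏ p ∈ x.primeFactors, (1 - (p : ℝ)⁻¹) := by
          apply mul_le_mul_of_nonneg_right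
          · apply prod_le_one
            · intro p hp
              exact (fac01 _ p (mem_sdiff.1 hp).1).1
            · intro p hp
              exact (fac01 _ p (mem_sdiff.1 hp).1).2
          · exact prod_nonneg fun p hp => (fac01 _ p hp).1
      _ = _ := one_mul _
  push_cast
  calc (x : ℝ) * q * ∏ p ∈ (x * q).primeFactors, (1 - (p : ℝ)⁻¹) ≤
      (x : ℝ) * q * ∏ p ∈ x.primeFactors, (1 - (p : ℝ)⁻¹) :=
        mul_le_mul_of_nonneg_left h1 (by positivity)
    _ = _ := by ring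

theorem wei (s : Finset ℕ) (f : ℕ → ℝ) (h : ∀ p ∈ s, 0 ≤ f p ∧ f p ≤ 1) :
    1 - ∑ p ∈ s, f p ≤ ∏ p ∈ s, (1 - f p) := by
  induction s using Finset.induction_on with
  | empty => simp
  | insert a s ha ih =>
    rw [sum_insert ha, prod_insert ha]
    have h1 := ih (fun p hp => h p (mem_insert_of_mem hp))
    have h2 := h a (mem_insert_self _ _)
    have h3 : ∏ p ∈ s, (1 - f p) ≤ 1 := by
      apply prod_le_one
      · intro p hp
        linarith [(h p (mem_insert_of_mem hp)).2]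
      · intro p hp
        linarith [(h p (mem_insert_of_mem hp)).1]
    nlinarith

theorem tot_low (x q : ℕ) (hq : 1 ≤ q) (s : ℝ) (hs : ∑ p ∈ q.primeFactors, (p : ℝ)⁻¹ ≤ s) :
    (x.totient : ℝ) * (1 - s) ≤ ((x * q).totient : ℝ) / q := by
  have hqr : (0 : ℝ) < q := by exact_mod_cast hq
  rw [le_div_iff₀ hqr]
  have h1 : (x.totient : ℝ) * q.totient ≤ ((x * q).totient : ℝ) := by
    exact_mod_cast Nat.totient_super_multiplicative x q
  refine le_trans ?_ h1
  rw [tot_real q]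
  have h2 := wei q.primeFactors (fun p => (p : ℝ)⁻¹) (fun p hp => by
    have := fac01 q p hp
    exact ⟨by positivity, by linarith [this.1]⟩)
  have h3 : 1 - s ≤ ∏ p ∈ q.primeFactors, (1 - (p : ℝ)⁻¹) := by linarith
  calc (x.totient : ℝ) * (1 - s) * q = (x.totient : ℝ) * (q * (1 - s)) := by ring
    _ ≤ _ := by
        apply mul_le_mul_of_nonneg_left _ (Nat.cast_nonneg _)
        exact mul_le_mul_of_nonneg_left h3 hqr.le

end Pool.Agent.H543.DG
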