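import Pool.Agent.H543.DG.Win
import Pool.Agent.H543.DG.Key
import Pool.Agent.H543.DG.Tot

/-!
# The coprime pairs
-/

set_option autoImplicit false

namespace Pool.Agent.H543.DG

open Finset
open Pool.Agent.Y346.PA (S_KL)
open scoped Classical

theorem Er_le (C ε : ℝ) (hC : 0 ≤ C) (hε : 0 < ε) (K X H x h N q : ℕ) (hx : 1 ≤ x) (hh : 1 ≤ h)
    (hq : 1 ≤ q) (hqN : q ≤ N * N) :
    Er C ε K X H x h (x * q) ≤ (4 * Vv K X H x h + 4) / q + E2 C ε K X H x h N := by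
  have hxr : (0 : ℝ) < x := by exact_mod_cast hx
  have hqr : (0 : ℝ) < q := by exact_mod_cast hq
  have hhr : (0 : ℝ) < h := by exact_mod_cast hh
  unfold Er E2
  have hV0 : 0 ≤ Vv K X H x h := by unfold Vv; positivity
  have hT0 : 0 ≤ TT K X H x h := by unfold TT; positivity
  generalize Vv K X H x h = V at *
  generalize TT K X H x h = T at *
  have hQ : (0 : ℝ) < ((x * q : ℕ) : ℝ) := by push_cast; positivity
  have hQle : ((x * q : ℕ) : ℝ) ≤ ((x * (N * N) : ℕ) : ℝ) := by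
    exact_mod_cast Nat.mul_le_mul_left x hqN
  have hpow : ((x * q : ℕ) : ℝ) ^ ε ≤ ((x * (N * N) : ℕ) : ℝ) ^ ε :=
    Real.rpow_le_rpow hQ.le hQle hε.le
  apply add_le_add
  · have h1 : ((x * q).totient : ℝ) / ((x * q : ℕ) : ℝ) ^ 2 ≤ 1 / ((x * q : ℕ) : ℝ) := by
      rw [div_le_div_iff₀ (by positivity) hQ]
      have h2 : ((x * q).totient : ℝ) ≤ ((x * q : ℕ) : ℝ) := by exact_mod_cast Nat.totient_le _
      nlinarith
    calc (x : ℝ) * (2 * V + 2) * (((x * q).totient : ℝ) / ((x * q : ℕ) : ℝ) ^ 2) ≤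
        (x : ℝ) * (2 * V + 2) * (1 / ((x * q : ℕ) : ℝ)) :=
          mul_le_mul_of_nonneg_left h1 (by positivity)
      _ = (2 * V + 2) / q := by
          push_cast
          field_simp
      _ ≤ _ := by
          apply div_le_div_of_nonneg_right _ hqr.le
          linarith
  · apply mul_le_mul
    · have h1 : (x : ℝ) / h ≤ 2 * x / h := by
        apply div_le_div_of_nonneg_right _ hhr.le
        linarith
      linarith
    · apply add_le_add
      · apply mul_le_mul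
        · exact mul_le_mul_of_nonneg_left hpow hC
        · have h1 : Real.sqrt ((x * q : ℕ) : ℝ) ≤ Real.sqrt (x * ((N : ℝ) * N)) := by
            apply Real.sqrt_le_sqrt
            push_cast at hQle ⊢
            exact hQle
          rw [Real.sqrt_mul hxr.le, Real.sqrt_mul_self (Nat.cast_nonneg N)] at h1
          exact h1
        · exact Real.sqrt_nonneg _
        · positivity
      · apply mul_le_mul_of_nonneg_right _ hT0
        apply div_le_div₀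
        · positivity
        · exact mul_le_mul_of_nonneg_left hpow hC
        · exact Real.sqrt_pos.2 hxr
        · apply Real.sqrt_le_sqrt
          push_cast
          have : (1 : ℝ) ≤ q := by exact_mod_cast hq
          nlinarith
    · positivity
    · positivity

/-- the count for coprime `n₁, n₂` -/
theorem CC_asym (kl : S_KL) (ε : ℝ) (hε : 0 < ε) : ∃ C : ℝ, 1 ≤ C ∧ ∀ (F : Fm) (a : ℤ) (K : ℕ),
    Cone F a K → ∀ (X H x h N : ℕ) (l : ℤ), 1 ≤ x → 1 ≤ h → ∀ (n1 n2 : ℕ), 1 ≤ n1 → 1 ≤ n2 →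
    n1 ≤ N → n2 ≤ N → Nat.Coprime n1 n2 → IsCoprime (n1 : ℤ) F.C → IsCoprime (n2 : ℤ) F.C →
    |(CC F X H x l n1 n2 : ℝ) - gd a n1 * gd a n2 * (AA F X H x l h / (x : ℝ) ^ 2) *
        (((x * (n1 * n2)).totient : ℝ) / ((n1 * n2 : ℕ) : ℝ))| ≤
      gd a n1 * gd a n2 * (4 * Vv K X H x h + 4) +
        ((Rt a n1).card : ℝ) * (Rt a n2).card * E2 C ε K X H x h N := by
  obtain ⟨C, hC, hc⟩ := HC_asym kl ε hε
  refine ⟨C, hC, ?_⟩
  intro F a K hF X H x h N l hx hh n1 n2 hn1 hn2 hN1 hN2 h12 hC1 hC2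
  have hxr : (0 : ℝ) < x := by exact_mod_cast hx
  have hn1r : (0 : ℝ) < n1 := by exact_mod_cast hn1
  have hn2r : (0 : ℝ) < n2 := by exact_mod_cast hn2
  have hq : 1 ≤ n1 * n2 := Nat.mul_pos hn1 hn2
  have h1 := CC_eq F X H x l (by exact_mod_cast hx) n1 n2 hn1 hn2 h12 hC1 hC2
  have hEr := Er_le C ε (by linarith) hε K X H x h N (n1 * n2) hx hh hq (Nat.mul_le_mul hN1 hN2)
  have hcast : ((x : ℤ) * ((n1 * n2 : ℕ) : ℤ)) = ((x * (n1 * n2) : ℕ) : ℤ) := by push_cast; ring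
  rw [h1]
  push_cast
  have h2 : ∀ i1 i2 : ℕ, |(HC F X H x l ((x : ℤ) * ((n1 * n2 : ℕ) : ℤ)) ((x : ℤ) * JJ n1 n2 i1 i2)
      ((x : ℤ) * JJ n1 n2 0 l) : ℝ) - AA F X H x l h * (((x * (n1 * n2)).totient : ℝ) /
        ((x * (n1 * n2) : ℕ) : ℝ) ^ 2)| ≤ (4 * Vv K X H x h + 4) / ((n1 * n2 : ℕ) : ℝ) +
        E2 C ε K X H x h N := by
    intro i1 i2
    rw [hcast]
    refine le_trans ?_ hEr
    exact hc F a K hF X H x l h hx hh (x * (n1 * n2)) _ _ (by
      exact Nat.mul_pos hx hq)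
  have hg1 : gd a n1 = ((Rj F n1).card : ℝ) / n1 := by
    unfold gd
    rw [Rj_card F a hF.disc n1 hn1 hC1]
  have hg2 : gd a n2 = ((Rj F n2).card : ℝ) / n2 := by
    unfold gd
    rw [Rj_card F a hF.disc n2 hn2 hC2]
  have h3 : gd a n1 * gd a n2 * (AA F X H x l h / (x : ℝ) ^ 2) *
        (((x * (n1 * n2)).totient : ℝ) / ((n1 * n2 : ℕ) : ℝ)) =
      ∑ i1 ∈ Rj F n1, ∑ i2 ∈ Rj F n2, AA F X H x l h * (((x * (n1 * n2)).totient : ℝ) /
        ((x * (n1 * n2) : ℕ) : ℝ) ^ 2) := by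
    rw [sum_const, sum_const, nsmul_eq_mul, nsmul_eq_mul, hg1, hg2]
    push_cast
    field_simp
  have h4 : gd a n1 * gd a n2 * (4 * Vv K X H x h + 4) +
        ((Rt a n1).card : ℝ) * (Rt a n2).card * E2 C ε K X H x h N =
      ∑ i1 ∈ Rj F n1, ∑ i2 ∈ Rj F n2, ((4 * Vv K X H x h + 4) / ((n1 * n2 : ℕ) : ℝ) +
        E2 C ε K X H x h N) := by
    rw [sum_const, sum_const, nsmul_eq_mul, nsmul_eq_mul, hg1, hg2,
      ← Rj_card F a hF.disc n1 hn1 hC1, ← Rj_card F a hF.disc n2 hn2 hC2]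
    push_cast
    field_simp
  push_cast at h2 h3 h4
  rw [h3, h4, ← sum_sub_distrib]
  refine (abs_sum_le_sum_abs _ _).trans (sum_le_sum fun i1 _ => ?_)
  rw [← sum_sub_distrib]
  exact (abs_sum_le_sum_abs _ _).trans (sum_le_sum fun i2 _ => h2 i1 i2)

/-- the main terms nearly cancel -/
theorem P_main (x n1 n2 : ℕ) (hx : 1 ≤ x) (hn1 : 1 ≤ n1) (hn2 : 1 ≤ n2) (s : ℝ)
    (hs1 : ∑ p ∈ n1.primeFactors, (p : ℝ)⁻¹ ≤ s) (hs2 : ∑ p ∈ n2.primeFactors, (p : ℝ)⁻¹ ≤ s) :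
    |((x * (n1 * n2)).totient : ℝ) / ((n1 * n2 : ℕ) : ℝ) - ((x * n1).totient : ℝ) / (n1 : ℝ) -
      ((x * n2).totient : ℝ) / (n2 : ℝ) + (x.totient : ℝ)| ≤ 4 * s * x := by
  have hs12 : ∑ p ∈ (n1 * n2).primeFactors, (p : ℝ)⁻¹ ≤ 2 * s := by
    rw [Nat.primeFactors_mul (by omega) (by omega)]
    have h5 : ∑ p ∈ n1.primeFactors ∪ n2.primeFactors, (p : ℝ)⁻¹ ≤
        ∑ p ∈ n1.primeFactors, (p : ℝ)⁻¹ + ∑ p ∈ n2.primeFactors, (p : ℝ)⁻¹ := by
      rw [← sum_union_inter]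
      have : 0 ≤ ∑ p ∈ n1.primeFactors ∩ n2.primeFactors, (p : ℝ)⁻¹ :=
        sum_nonneg fun p _ => by positivity
      linarith
    linarith
  have u1 := tot_up x n1 hx hn1
  have u2 := tot_up x n2 hx hn2
  have u3 := tot_up x (n1 * n2) hx (Nat.mul_pos hn1 hn2)
  have l1 := tot_low x n1 hn1 s hs1
  have l2 := tot_low x n2 hn2 s hs2
  have l3 := tot_low x (n1 * n2) (Nat.mul_pos hn1 hn2) (2 * s) hs12
  have hs0 : 0 ≤ s := le_trans (sum_nonneg fun p _ => by positivity) hs1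
  have hP0n : (0 : ℝ) ≤ (x.totient : ℝ) := by positivity
  have hP0x : (x.totient : ℝ) ≤ x := by exact_mod_cast Nat.totient_le x
  generalize (x.totient : ℝ) = P0 at *
  generalize ((x * n1).totient : ℝ) / (n1 : ℝ) = P1 at *
  generalize ((x * n2).totient : ℝ) / (n2 : ℝ) = P2 at *
  generalize ((x * (n1 * n2)).totient : ℝ) / ((n1 * n2 : ℕ) : ℝ) = P3 at *
  have hmain : |P3 - P1 - P2 + P0| ≤ 4 * s * P0 := by
    have : 0 ≤ s * P0 := by positivity
    rw [abs_le]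
    constructor <;> nlinarith
  exact hmain.trans (mul_le_mul_of_nonneg_left hP0x (by positivity))

theorem D4_bound (kl : S_KL) (ε : ℝ) (hε : 0 < ε) : ∃ C : ℝ, 1 ≤ C ∧ ∀ (F : Fm) (a : ℤ) (K : ℕ),
    Cone F a K → ∀ (X H x h N : ℕ) (l : ℤ), 1 ≤ x → 1 ≤ h → ∀ (s : ℝ) (n1 n2 : ℕ), 1 ≤ n1 →
    1 ≤ n2 → n1 ≤ N → n2 ≤ N → Nat.Coprime n1 n2 → IsCoprime (n1 : ℤ) F.C → IsCoprime (n2 : ℤ) F.C →
    ∑ p ∈ n1.primeFactors, (p : ℝ)⁻¹ ≤ s → ∑ p ∈ n2.primeFactors, (p : ℝ)⁻¹ ≤ s →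
    |D4 F a X H x l n1 n2| ≤ gd a n1 * gd a n2 * (16 * Vv K X H x h + 16 + 4 * s * K * H / x) +
      4 * (((Rt a n1).card : ℝ) * (Rt a n2).card * E2 C ε K X H x h N) := by
  obtain ⟨C, hC, hc⟩ := CC_asym kl ε hε
  refine ⟨C, hC, ?_⟩
  intro F a K hF X H x h N l hx hh s n1 n2 hn1 hn2 hN1 hN2 h12 hC1 hC2 hs1 hs2
  have hxr : (0 : ℝ) < x := by exact_mod_cast hx
  have hx0 : (0 : ℤ) < x := by exact_mod_cast hx
  have hN : 1 ≤ N := hn1.trans hN1
  have hc1 : IsCoprime ((1 : ℕ) : ℤ) F.C := by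
    push_cast
    exact isCoprime_one_left
  have a1 := hc F a K hF X H x h N l hx hh n1 n2 hn1 hn2 hN1 hN2 h12 hC1 hC2
  have a2 := hc F a K hF X H x h N l hx hh n1 1 hn1 le_rfl hN1 hN (Nat.coprime_one_right _) hC1 hc1
  have a3 := hc F a K hF X H x h N l hx hh 1 n2 le_rfl hn2 hN hN2 (Nat.coprime_one_left _) hc1 hC2
  have a4 := hc F a K hF X H x h N l hx hh 1 1 le_rfl le_rfl hN hN (Nat.coprime_one_left _) hc1 hc1
  have hg1 := gd_nonneg a n1
  have hg2 := gd_nonneg a n2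
  have hgl1 := gd_le a n1 hn1
  have hgl2 := gd_le a n2 hn2
  have hR1 : ((Rt a 1).card : ℝ) = 1 := by rw [Rt_one]; simp
  rw [gd_one, mul_one, mul_one, hR1, mul_one] at a2
  rw [gd_one, one_mul, one_mul, hR1, one_mul] at a3
  rw [gd_one, hR1] at a4
  simp only [one_mul, mul_one] at a4
  have hmain := P_main x n1 n2 hx hn1 hn2 s hs1 hs2
  have hs0 : 0 ≤ s := le_trans (sum_nonneg fun p _ => by positivity) hs1
  have hA0 : 0 ≤ AA F X H x l h / (x : ℝ) ^ 2 := by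
    have := AA_nonneg F X H x l h
    positivity
  have hA2 : AA F X H x l h / (x : ℝ) ^ 2 ≤ K * H / (x : ℝ) ^ 2 := by
    apply div_le_div_of_nonneg_right _ (by positivity)
    exact AA_le F a K hF X H x l hx0 h hh
  have hV40 : 0 ≤ 4 * Vv K X H x h + 4 := by unfold Vv; positivity
  have hE0 : 0 ≤ E2 C ε K X H x h N := by
    unfold E2 TT Vv
    have : 0 ≤ C := by linarith
    positivity
  have hfin : gd a n1 * gd a n2 * (16 * Vv K X H x h + 16 + 4 * s * K * H / x) +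
      4 * (((Rt a n1).card : ℝ) * (Rt a n2).card * E2 C ε K X H x h N) =
      gd a n1 * gd a n2 * (4 * s * K * H / x) +
      4 * (gd a n1 * gd a n2 * (4 * Vv K X H x h + 4) +
        ((Rt a n1).card : ℝ) * (Rt a n2).card * E2 C ε K X H x h N) := by
    ring
  rw [hfin]
  unfold D4
  generalize E2 C ε K X H x h N = E at *
  generalize 4 * Vv K X H x h + 4 = V4 at *
  generalize AA F X H x l h / (x : ℝ) ^ 2 = A at *
  generalize ((x * (n1 * n2)).totient : ℝ) / ((n1 * n2 : ℕ) : ℝ) = P3 at *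
  generalize ((x * n1).totient : ℝ) / (n1 : ℝ) = P1 at *
  generalize ((x * n2).totient : ℝ) / (n2 : ℝ) = P2 at *
  have a4' : |(CC F X H x l 1 1 : ℝ) - A * (x.totient : ℝ)| ≤ V4 + E := by
    have e : ((1 : ℕ) : ℝ) = 1 := by push_cast; rfl
    rw [e, div_one] at a4
    exact a4
  generalize (x.totient : ℝ) = P0 at *
  generalize (CC F X H x l n1 n2 : ℝ) = c3 at *
  generalize (CC F X H x l n1 1 : ℝ) = c1 at *
  generalize (CC F X H x l 1 n2 : ℝ) = c2 at *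
  generalize (CC F X H x l 1 1 : ℝ) = c0 at *
  generalize gd a n1 = g1 at *
  generalize gd a n2 = g2 at *
  have hr1 : (0 : ℝ) ≤ (Rt a n1).card := Nat.cast_nonneg _
  have hr2 : (0 : ℝ) ≤ (Rt a n2).card := Nat.cast_nonneg _
  generalize ((Rt a n1).card : ℝ) = r1 at *
  generalize ((Rt a n2).card : ℝ) = r2 at *
  have hid : c3 - g2 * c1 - g1 * c2 + g1 * g2 * c0 = g1 * g2 * A * (P3 - P1 - P2 + P0) +
      (c3 - g1 * g2 * A * P3) - g2 * (c1 - g1 * A * P1) -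
      g1 * (c2 - g2 * A * P2) + g1 * g2 * (c0 - A * P0) := by
    ring
  have b0 : |g1 * g2 * A * (P3 - P1 - P2 + P0)| ≤ g1 * g2 * (4 * s * K * H / x) := by
    rw [abs_mul, abs_of_nonneg (by positivity)]
    calc g1 * g2 * A * |P3 - P1 - P2 + P0| ≤ g1 * g2 * (K * H / (x : ℝ) ^ 2) * (4 * s * x) := by
          apply mul_le_mul _ hmain (abs_nonneg _) (by positivity)
          exact mul_le_mul_of_nonneg_left hA2 (by positivity)
      _ = _ := by field_simp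
  have b2 : |g2 * (c1 - g1 * A * P1)| ≤ g1 * g2 * V4 + r1 * r2 * E := by
    rw [abs_mul, abs_of_nonneg hg2]
    calc g2 * |c1 - g1 * A * P1| ≤ g2 * (g1 * V4 + r1 * E) :=
          mul_le_mul_of_nonneg_left a2 hg2
      _ = g1 * g2 * V4 + r1 * g2 * E := by ring
      _ ≤ _ := by
          have : r1 * g2 * E ≤ r1 * r2 * E :=
            mul_le_mul_of_nonneg_right (mul_le_mul_of_nonneg_left hgl2 hr1) hE0
          linarith
  have b3 : |g1 * (c2 - g2 * A * P2)| ≤ g1 * g2 * V4 + r1 * r2 * E := by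
    rw [abs_mul, abs_of_nonneg hg1]
    calc g1 * |c2 - g2 * A * P2| ≤ g1 * (g2 * V4 + r2 * E) :=
          mul_le_mul_of_nonneg_left a3 hg1
      _ = g1 * g2 * V4 + g1 * r2 * E := by ring
      _ ≤ _ := by
          have : g1 * r2 * E ≤ r1 * r2 * E :=
            mul_le_mul_of_nonneg_right (mul_le_mul_of_nonneg_right hgl1 hr2) hE0
          linarith
  have b4 : |g1 * g2 * (c0 - A * P0)| ≤ g1 * g2 * V4 + r1 * r2 * E := by
    rw [abs_mul, abs_of_nonneg (by positivity)]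
    calc g1 * g2 * |c0 - A * P0| ≤ g1 * g2 * (V4 + E) :=
          mul_le_mul_of_nonneg_left a4' (by positivity)
      _ = g1 * g2 * V4 + g1 * g2 * E := by ring
      _ ≤ _ := by
          have : g1 * g2 * E ≤ r1 * r2 * E :=
            mul_le_mul_of_nonneg_right (mul_le_mul hgl1 hgl2 hg2 hr1) hE0
          linarith
  rw [hid]
  rw [abs_le] at b0 a1 b2 b3 b4 ⊢
  constructor <;> linarith [b0.1, a1.1, b2.1, b3.1, b4.1, b0.2, a1.2, b2.2, b3.2, b4.2]

end Pool.Agent.H543.DG
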