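import Pool.Agent.H543.DG.Vp

/-!
# The pairs of moduli which are not coprime
-/

set_option autoImplicit false

namespace Pool.Agent.H543.DG

open Finset Filter
open scoped Classical

theorem cI_nonneg (a : ℤ) (X H d : ℕ) : 0 ≤ cI a X H d := Nat.cast_nonneg _

theorem nc_split (S B : Finset ℕ) (hB : ∀ n ∈ B, 1 ≤ n) (t : ℕ → ℕ → ℝ) (ht : ∀ m n, 0 ≤ t m n) :
    ∑ m ∈ S, ∑ n ∈ B.filter (fun n => ¬ Nat.Coprime m n), t m n ≤
      ∑ p ∈ B.biUnion Nat.primeFactors, ∑ m ∈ S.filter (fun m => p ∣ m),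
        ∑ n ∈ B.filter (fun n => p ∣ n), t m n := by
  have h2 : ∀ p, ∑ m ∈ S.filter (fun m => p ∣ m), ∑ n ∈ B.filter (fun n => p ∣ n), t m n =
      ∑ m ∈ S, ∑ n ∈ B, if p ∣ m ∧ p ∣ n then t m n else 0 := by
    intro p
    rw [sum_filter]
    apply sum_congr rfl
    intro m _
    by_cases hp : p ∣ m
    · rw [if_pos hp, sum_filter]
      apply sum_congr rfl
      intro n _
      by_cases hp2 : p ∣ n
      · rw [if_pos hp2, if_pos ⟨hp, hp2⟩]
      · rw [if_neg hp2, if_neg (fun h => hp2 h.2)]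
    · rw [if_neg hp]
      symm
      apply sum_eq_zero
      intro n _
      rw [if_neg (fun h => hp h.1)]
  simp_rw [h2]
  rw [sum_comm]
  apply sum_le_sum
  intro m _
  rw [sum_comm, sum_filter]
  apply sum_le_sum
  intro n hn
  have hnn : 0 ≤ ∑ p ∈ B.biUnion Nat.primeFactors, (if p ∣ m ∧ p ∣ n then t m n else 0) := by
    apply sum_nonneg
    intro p _
    split_ifs
    · exact ht _ _
    · exact le_rfl
  by_cases hc : Nat.Coprime m n
  · rw [if_neg (not_not.2 hc)]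
    exact hnn
  · rw [if_pos hc]
    obtain ⟨p, hp, hp1, hp2⟩ := Nat.Prime.not_coprime_iff_dvd.1 hc
    have hmem : p ∈ B.biUnion Nat.primeFactors := by
      rw [mem_biUnion]
      refine ⟨n, hn, ?_⟩
      rw [Nat.mem_primeFactors]
      have := hB n hn
      exact ⟨hp, hp2, by omega⟩
    calc t m n = (if p ∣ m ∧ p ∣ n then t m n else 0) := by rw [if_pos ⟨hp1, hp2⟩]
      _ ≤ _ := by
          apply single_le_sum (f := fun p => if p ∣ m ∧ p ∣ n then t m n else 0) _ hmem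
          intro q _
          split_ifs
          · exact ht _ _
          · exact le_rfl

/-- squares -/
theorem k_card_p2 (a : ℤ) (X H p : ℕ) (hp : p.Prime) (h2 : p ≠ 2) (hpa : ¬ (p : ℤ) ∣ a) :
    (((Ioc (X : ℤ) (X + H)).filter (fun k => ((p * p : ℕ) : ℤ) ∣ k ^ 2 + a)).card : ℝ) ≤
      2 * ((H : ℝ) / ((p : ℝ) ^ 2) + 1) := by
  have hpp : Prime (p : ℤ) := Nat.prime_iff_prime_int.1 hp
  have hpr : (0 : ℝ) < p := by exact_mod_cast hp.pos
  have hp2 : 1 ≤ p * p := Nat.mul_pos hp.pos hp.pos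
  rcases ((Ioc (X : ℤ) (X + H)).filter (fun k => ((p * p : ℕ) : ℤ) ∣ k ^ 2 + a)).eq_empty_or_nonempty with
    h | ⟨k0, hk0⟩
  · rw [h, card_empty]
    push_cast
    positivity
  · rw [mem_filter] at hk0
    have hk0p : ¬ (p : ℤ) ∣ k0 := by
      intro h
      apply hpa
      have e : a = (k0 ^ 2 + a) - k0 * k0 := by ring
      rw [e]
      apply dvd_sub _ (h.mul_right _)
      refine dvd_trans ?_ hk0.2
      push_cast
      exact dvd_mul_right _ _
    have h3 : (Ioc (X : ℤ) (X + H)).filter (fun k => ((p * p : ℕ) : ℤ) ∣ k ^ 2 + a) ⊆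
        (Ioc (X : ℤ) (X + H)).filter (fun k => ((p * p : ℕ) : ℤ) ∣ k - k0) ∪
        (Ioc (X : ℤ) (X + H)).filter (fun k => ((p * p : ℕ) : ℤ) ∣ k - (-k0)) := by
      intro k hk
      rw [mem_filter] at hk
      rw [mem_union, mem_filter, mem_filter]
      have h4 : ((p * p : ℕ) : ℤ) ∣ (k - k0) * (k - (-k0)) := by
        have e : (k - k0) * (k - (-k0)) = (k ^ 2 + a) - (k0 ^ 2 + a) := by ring
        rw [e]
        exact dvd_sub hk.2 hk0.2
      by_cases h5 : (p : ℤ) ∣ k - k0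
      · left
        refine ⟨hk.1, ?_⟩
        have h6 : ¬ (p : ℤ) ∣ k - (-k0) := by
          intro h6
          have h7 : (p : ℤ) ∣ 2 * k0 := by
            have e : 2 * k0 = (k - (-k0)) - (k - k0) := by ring
            rw [e]
            exact dvd_sub h6 h5
          rcases hpp.dvd_or_dvd h7 with h8 | h8
          · have h9 : p ∣ 2 := by exact_mod_cast h8
            exact h2 ((Nat.prime_dvd_prime_iff_eq hp Nat.prime_two).1 h9)
          · exact hk0p h8
        have hcop : IsCoprime ((p * p : ℕ) : ℤ) (k - (-k0)) := by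
          push_cast
          have := (Prime.coprime_iff_not_dvd hpp).2 h6
          exact IsCoprime.mul_left this this
        exact hcop.dvd_of_dvd_mul_right h4
      · right
        refine ⟨hk.1, ?_⟩
        have hcop : IsCoprime ((p * p : ℕ) : ℤ) (k - k0) := by
          push_cast
          have := (Prime.coprime_iff_not_dvd hpp).2 h5
          exact IsCoprime.mul_left this this
        exact hcop.dvd_of_dvd_mul_left h4
    have h4 := card_le_card h3
    have h5 := h4.trans (card_union_le _ _)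
    have h6 := cls (X : ℤ) (X + H) (by omega) (p * p) hp2 k0
    have h7 := cls (X : ℤ) (X + H) (by omega) (p * p) hp2 (-k0)
    have h8 : (((Ioc (X : ℤ) (X + H)).filter (fun k => ((p * p : ℕ) : ℤ) ∣ k ^ 2 + a)).card : ℝ) ≤
        ((Ioc (X : ℤ) (X + H)).filter (fun k => ((p * p : ℕ) : ℤ) ∣ k - k0)).card +
        ((Ioc (X : ℤ) (X + H)).filter (fun k => ((p * p : ℕ) : ℤ) ∣ k - (-k0))).card := by
      exact_mod_cast h5
    have e : (((X : ℤ) + H : ℤ) : ℝ) - ((X : ℤ) : ℝ) = H := by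
      push_cast
      ring
    rw [e] at h6 h7
    have e2 : ((p * p : ℕ) : ℝ) = (p : ℝ) ^ 2 := by
      push_cast
      ring
    rw [e2] at h6 h7
    linarith

theorem div_filter (a : ℤ) (S : Finset ℕ) (k : ℤ) (hk : 0 < k ^ 2 + a) :
    (S.filter (fun m : ℕ => (m : ℤ) ∣ k ^ 2 + a)).card ≤ (k ^ 2 + a).natAbs.divisors.card := by
  apply card_le_card
  intro m hm
  rw [mem_filter] at hm
  rw [Nat.mem_divisors]
  refine ⟨Int.natCast_dvd.1 hm.2, ?_⟩
  rw [Int.natAbs_ne_zero]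
  exact hk.ne'

/-- the pairs with the common prime `p` -/
theorem nc_one (a : ℤ) (X H : ℕ) (T1 : ℝ) (hT0 : 0 ≤ T1)
    (hT : ∀ k : ℤ, (X : ℤ) < k → k ≤ X + H → 0 < k ^ 2 + a ∧
      ((k ^ 2 + a).natAbs.divisors.card : ℝ) ≤ T1)
    (S B : Finset ℕ) (p : ℕ) :
    ∑ m ∈ S.filter (fun m => p ∣ m), ∑ n ∈ B.filter (fun n => p ∣ n), cI a X H (m * n) ≤
      T1 ^ 2 * (((Ioc (X : ℤ) (X + H)).filter (fun k => ((p * p : ℕ) : ℤ) ∣ k ^ 2 + a)).card : ℝ) := by
  have h1 : ∀ m ∈ S.filter (fun m => p ∣ m), ∀ n ∈ B.filter (fun n => p ∣ n), cI a X H (m * n) ≤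
      ∑ k ∈ (Ioc (X : ℤ) (X + H)).filter (fun k => ((p * p : ℕ) : ℤ) ∣ k ^ 2 + a),
        (if (m : ℤ) ∣ k ^ 2 + a then (1 : ℝ) else 0) * (if (n : ℤ) ∣ k ^ 2 + a then (1 : ℝ) else 0) := by
    intro m hm n hn
    rw [mem_filter] at hm hn
    have h2 : cI a X H (m * n) = ∑ k ∈ (Ioc (X : ℤ) (X + H)).filter (fun k => ((m * n : ℕ) : ℤ) ∣ k ^ 2 + a),
        (if (m : ℤ) ∣ k ^ 2 + a then (1 : ℝ) else 0) * (if (n : ℤ) ∣ k ^ 2 + a then (1 : ℝ) else 0) := by
      unfold cI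
      rw [card_eq_sum_ones]
      push_cast
      apply sum_congr rfl
      intro k hk
      rw [mem_filter] at hk
      push_cast at hk
      rw [if_pos ((dvd_mul_right _ _).trans hk.2), if_pos ((dvd_mul_left _ _).trans hk.2), mul_one]
    rw [h2]
    apply sum_le_sum_of_subset_of_nonneg
    · intro k hk
      rw [mem_filter] at hk ⊢
      refine ⟨hk.1, dvd_trans ?_ hk.2⟩
      have : p * p ∣ m * n := mul_dvd_mul hm.2 hn.2
      exact_mod_cast this
    · intro k _ _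
      split_ifs <;> norm_num
  calc ∑ m ∈ S.filter (fun m => p ∣ m), ∑ n ∈ B.filter (fun n => p ∣ n), cI a X H (m * n) ≤
      ∑ m ∈ S.filter (fun m => p ∣ m), ∑ n ∈ B.filter (fun n => p ∣ n),
        ∑ k ∈ (Ioc (X : ℤ) (X + H)).filter (fun k => ((p * p : ℕ) : ℤ) ∣ k ^ 2 + a),
        (if (m : ℤ) ∣ k ^ 2 + a then (1 : ℝ) else 0) * (if (n : ℤ) ∣ k ^ 2 + a then (1 : ℝ) else 0) :=
        sum_le_sum fun m hm => sum_le_sum fun n hn => h1 m hm n hn
    _ = ∑ k ∈ (Ioc (X : ℤ) (X + H)).filter (fun k => ((p * p : ℕ) : ℤ) ∣ k ^ 2 + a),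
        (∑ m ∈ S.filter (fun m => p ∣ m), (if (m : ℤ) ∣ k ^ 2 + a then (1 : ℝ) else 0)) *
        (∑ n ∈ B.filter (fun n => p ∣ n), (if (n : ℤ) ∣ k ^ 2 + a then (1 : ℝ) else 0)) := by
        simp_rw [sum_mul_sum]
        calc ∑ m ∈ S.filter (fun m => p ∣ m), ∑ n ∈ B.filter (fun n => p ∣ n),
              ∑ k ∈ (Ioc (X : ℤ) (X + H)).filter (fun k => ((p * p : ℕ) : ℤ) ∣ k ^ 2 + a),
              (if (m : ℤ) ∣ k ^ 2 + a then (1 : ℝ) else 0) * (if (n : ℤ) ∣ k ^ 2 + a then (1 : ℝ) else 0) =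
            ∑ m ∈ S.filter (fun m => p ∣ m),
              ∑ k ∈ (Ioc (X : ℤ) (X + H)).filter (fun k => ((p * p : ℕ) : ℤ) ∣ k ^ 2 + a),
              ∑ n ∈ B.filter (fun n => p ∣ n),
              (if (m : ℤ) ∣ k ^ 2 + a then (1 : ℝ) else 0) * (if (n : ℤ) ∣ k ^ 2 + a then (1 : ℝ) else 0) :=
              sum_congr rfl fun m _ => sum_comm
          _ = _ := sum_comm
    _ ≤ ∑ k ∈ (Ioc (X : ℤ) (X + H)).filter (fun k => ((p * p : ℕ) : ℤ) ∣ k ^ 2 + a), T1 * T1 := by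
        apply sum_le_sum
        intro k hk
        rw [mem_filter, mem_Ioc] at hk
        obtain ⟨h30, h3⟩ := hT k hk.1.1 hk.1.2
        have h4 : ∀ U : Finset ℕ, (∑ m ∈ U, (if (m : ℤ) ∣ k ^ 2 + a then (1 : ℝ) else 0)) ≤ T1 := by
          intro U
          rw [← sum_filter, sum_const, nsmul_eq_mul, mul_one]
          refine le_trans ?_ h3
          exact_mod_cast div_filter a U k h30
        exact mul_le_mul (h4 _) (h4 _) (sum_nonneg fun n _ => by split_ifs <;> norm_num) hT0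
    _ = _ := by
        rw [sum_const, nsmul_eq_mul]
        ring

theorem cI_sum_p (a : ℤ) (X H : ℕ) (T1 : ℝ) (hT0 : 0 ≤ T1)
    (hT : ∀ k : ℤ, (X : ℤ) < k → k ≤ X + H → 0 < k ^ 2 + a ∧
      ((k ^ 2 + a).natAbs.divisors.card : ℝ) ≤ T1)
    (S : Finset ℕ) (p : ℕ) :
    ∑ m ∈ S.filter (fun m => p ∣ m), cI a X H m ≤
      T1 * (((Ioc (X : ℤ) (X + H)).filter (fun k => (p : ℤ) ∣ k ^ 2 + a)).card : ℝ) := by
  have h1 : ∀ m ∈ S.filter (fun m => p ∣ m), cI a X H m ≤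
      ∑ k ∈ (Ioc (X : ℤ) (X + H)).filter (fun k => (p : ℤ) ∣ k ^ 2 + a),
        (if (m : ℤ) ∣ k ^ 2 + a then (1 : ℝ) else 0) := by
    intro m hm
    rw [mem_filter] at hm
    have h2 : cI a X H m = ∑ k ∈ (Ioc (X : ℤ) (X + H)).filter (fun k => (m : ℤ) ∣ k ^ 2 + a),
        (if (m : ℤ) ∣ k ^ 2 + a then (1 : ℝ) else 0) := by
      unfold cI
      rw [card_eq_sum_ones]
      push_cast
      apply sum_congr rfl
      intro k hk
      rw [if_pos (mem_filter.1 hk).2]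
    rw [h2]
    apply sum_le_sum_of_subset_of_nonneg
    · intro k hk
      rw [mem_filter] at hk ⊢
      exact ⟨hk.1, dvd_trans (by exact_mod_cast hm.2) hk.2⟩
    · intro k _ _
      split_ifs <;> norm_num
  calc ∑ m ∈ S.filter (fun m => p ∣ m), cI a X H m ≤
      ∑ m ∈ S.filter (fun m => p ∣ m),
        ∑ k ∈ (Ioc (X : ℤ) (X + H)).filter (fun k => (p : ℤ) ∣ k ^ 2 + a),
        (if (m : ℤ) ∣ k ^ 2 + a then (1 : ℝ) else 0) := sum_le_sum h1
    _ = ∑ k ∈ (Ioc (X : ℤ) (X + H)).filter (fun k => (p : ℤ) ∣ k ^ 2 + a),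
        ∑ m ∈ S.filter (fun m => p ∣ m), (if (m : ℤ) ∣ k ^ 2 + a then (1 : ℝ) else 0) := sum_comm
    _ ≤ ∑ k ∈ (Ioc (X : ℤ) (X + H)).filter (fun k => (p : ℤ) ∣ k ^ 2 + a), T1 := by
        apply sum_le_sum
        intro k hk
        rw [mem_filter, mem_Ioc] at hk
        rw [← sum_filter, sum_const, nsmul_eq_mul, mul_one]
        obtain ⟨h30, h3⟩ := hT k hk.1.1 hk.1.2
        refine le_trans ?_ h3
        exact_mod_cast div_filter a _ k h30
    _ = _ := by
        rw [sum_const, nsmul_eq_mul]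
        ring

/-- the pairs which are not coprime -/
theorem nc_total (a : ℤ) (K X H N M2 : ℕ) (B : Finset ℕ) (T1 z0 R s : ℝ)
    (hyp : Hyp a K X H B N M2 T1 z0 R s)
    (S : Finset ℕ) :
    ∑ m ∈ S, ∑ n ∈ B.filter (fun n => ¬ Nat.Coprime m n), (cI a X H (m * n) + gd a n * cI a X H m) ≤
      4 * T1 ^ 3 * (H / z0) + 2 * T1 ^ 2 * N + 2 * T1 ^ 3 := by
  have hT0 : 0 ≤ T1 := by linarith [hyp.T0]
  have hz := hyp.z
  refine (nc_split S B (fun n hn => (hyp.B1 n hn).1) (fun m n => cI a X H (m * n) + gd a n * cI a X H m)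
    (fun m n => add_nonneg (cI_nonneg _ _ _ _) (mul_nonneg (gd_nonneg _ _) (cI_nonneg _ _ _ _)))).trans ?_
  have hPB : ∀ p ∈ B.biUnion Nat.primeFactors, p.Prime ∧ p ≤ N := by
    intro p hp
    rw [mem_biUnion] at hp
    obtain ⟨n, hn, hpn⟩ := hp
    obtain ⟨c1, c2⟩ := hyp.B1 n hn
    exact ⟨Nat.prime_of_mem_primeFactors hpn,
      (Nat.le_of_dvd (by omega) (Nat.dvd_of_mem_primeFactors hpn)).trans c2⟩
  have hp : ∀ p ∈ B.biUnion Nat.primeFactors, ∑ m ∈ S.filter (fun m => p ∣ m),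
      ∑ n ∈ B.filter (fun n => p ∣ n), (cI a X H (m * n) + gd a n * cI a X H m) ≤
      T1 ^ 2 * (2 * (H * (1 / (p : ℝ) ^ 2) + 1)) +
        T1 ^ 2 * (2 * (H * (1 / (p : ℝ) ^ 2) + 1 / (p : ℝ))) := by
    intro p hpB
    obtain ⟨hpp, hpN⟩ := hPB p hpB
    have hpr : (0 : ℝ) < p := by exact_mod_cast hpp.pos
    have h1 := nc_one a X H T1 hT0 hyp.T S B p
    have h2 := k_card_p2 a X H p hpp (hyp.P3 p hpB).1 (hyp.P3 p hpB).2.1
    have h3 := cI_sum_p a X H T1 hT0 hyp.T S p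
    have h4 := k_card_p a X H p hpp
    have h5 : ∑ m ∈ S.filter (fun m => p ∣ m), ∑ n ∈ B.filter (fun n => p ∣ n), gd a n * cI a X H m =
        (∑ n ∈ B.filter (fun n => p ∣ n), gd a n) * ∑ m ∈ S.filter (fun m => p ∣ m), cI a X H m := by
      rw [sum_comm, sum_mul_sum]
    have h6 : ∑ m ∈ S.filter (fun m => p ∣ m), ∑ n ∈ B.filter (fun n => p ∣ n),
        (cI a X H (m * n) + gd a n * cI a X H m) =
        ∑ m ∈ S.filter (fun m => p ∣ m), ∑ n ∈ B.filter (fun n => p ∣ n), cI a X H (m * n) +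
        ∑ m ∈ S.filter (fun m => p ∣ m), ∑ n ∈ B.filter (fun n => p ∣ n), gd a n * cI a X H m := by
      rw [← sum_add_distrib]
      apply sum_congr rfl
      intro m _
      rw [← sum_add_distrib]
    rw [h6, h5]
    apply add_le_add
    · refine h1.trans ?_
      apply mul_le_mul_of_nonneg_left _ (by positivity)
      refine h2.trans (le_of_eq ?_)
      ring
    · calc (∑ n ∈ B.filter (fun n => p ∣ n), gd a n) * ∑ m ∈ S.filter (fun m => p ∣ m), cI a X H m ≤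
          (T1 / p) * (T1 * (2 * ((H : ℝ) / p + 1))) := by
            apply mul_le_mul (hyp.Gp p hpB) _ (sum_nonneg fun m _ => cI_nonneg _ _ _ _) (by positivity)
            exact h3.trans (mul_le_mul_of_nonneg_left h4 hT0)
        _ = _ := by
            field_simp
  refine (sum_le_sum hp).trans ?_
  have hcard : ((B.biUnion Nat.primeFactors).card : ℝ) ≤ N := by
    have : (B.biUnion Nat.primeFactors).card ≤ (Icc 1 N).card := by
      apply card_le_card
      intro p hp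
      obtain ⟨c1, c2⟩ := hPB p hp
      rw [mem_Icc]
      exact ⟨c1.one_le, c2⟩
    rw [Nat.card_Icc] at this
    have h2 : (B.biUnion Nat.primeFactors).card ≤ N := by omega
    exact_mod_cast h2
  have e : ∑ p ∈ B.biUnion Nat.primeFactors, (T1 ^ 2 * (2 * (H * (1 / (p : ℝ) ^ 2) + 1)) +
        T1 ^ 2 * (2 * (H * (1 / (p : ℝ) ^ 2) + 1 / (p : ℝ)))) =
      T1 ^ 2 * (4 * H * ∑ p ∈ B.biUnion Nat.primeFactors, (1 / (p : ℝ) ^ 2) +
        2 * ∑ p ∈ B.biUnion Nat.primeFactors, (1 : ℝ) +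
        2 * ∑ p ∈ B.biUnion Nat.primeFactors, (1 / (p : ℝ))) := by
    rw [mul_sum, mul_sum, mul_sum, ← sum_add_distrib, ← sum_add_distrib, mul_sum]
    apply sum_congr rfl
    intro p _
    ring
  rw [e, sum_const, nsmul_eq_mul, mul_one]
  have h1 := hyp.P1
  have h2 := hyp.P2
  have hH0 : (0 : ℝ) ≤ H := Nat.cast_nonneg H
  calc T1 ^ 2 * (4 * H * ∑ p ∈ B.biUnion Nat.primeFactors, (1 / (p : ℝ) ^ 2) +
        2 * ((B.biUnion Nat.primeFactors).card : ℝ) +
        2 * ∑ p ∈ B.biUnion Nat.primeFactors, (1 / (p : ℝ))) ≤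
      T1 ^ 2 * (4 * H * (T1 / z0) + 2 * N + 2 * T1) := by
        apply mul_le_mul_of_nonneg_left _ (by positivity)
        apply add_le_add
        · apply add_le_add
          · exact mul_le_mul_of_nonneg_left h2 (by positivity)
          · linarith
        · linarith
    _ = _ := by ring

end Pool.Agent.H543.DG
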