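import Pool.Agent.H543.DG.Bil
import Pool.Agent.H543.DG.Nc

/-!
# The bilinear form of level `X ^ (13/12 - ε)`: all forms
-/

set_option autoImplicit false

namespace Pool.Agent.H543.DG

open Finset Filter
open Pool.Agent.Y346.PA (S_KL)
open Pool.Agent.Y882.PX (ro ro_eq ro_prod)
open Pool.Agent.Y882.SI (QF QF_eval)
open Pool.Agent.H300R2.BH (rho)
open scoped Classical

/-- the decomposition of the divisors of `k ^ 2 + a` -/
structure Dec (a : ℤ) where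
  I : Finset (Fm × ℕ)
  fm : Fm × ℕ → Fm
  om : Fm × ℕ → ℝ
  K : ℕ
  M0 : ℕ
  a0 : a ≠ 0
  om_pos : ∀ i ∈ I, 0 < om i
  cone : ∀ i ∈ I, Cone (fm i) a K
  cnt : ∀ m k : ℤ, (M0 : ℤ) < m → m ∣ k ^ 2 + a → ∑ i ∈ I, om i * (Nn (fm i) K m k : ℝ) = 1

theorem Dec.nb {a : ℤ} (D : Dec a) (i : Fm × ℕ) (hi : i ∈ D.I) (m k : ℤ) (hm : (D.M0 : ℤ) < m)
    (h : m ∣ k ^ 2 + a) : (Nn (D.fm i) D.K m k : ℝ) ≤ 1 / D.om i := by
  have h1 := D.cnt m k hm h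
  have h2 := D.om_pos i hi
  rw [le_div_iff₀ h2, mul_comm, ← h1]
  apply single_le_sum (f := fun i => D.om i * (Nn (D.fm i) D.K m k : ℝ)) _ hi
  intro j hj
  exact mul_nonneg (D.om_pos j hj).le (Nat.cast_nonneg _)

theorem cI_nat (a : ℤ) (X H d : ℕ) : cI a X H d =
    (((Ioc X (X + H)).filter (fun n : ℕ => (d : ℤ) ∣ (QF a).eval (n : ℤ))).card : ℝ) := by
  unfold cI
  congr 1
  symm
  apply card_bij (fun (n : ℕ) _ => (n : ℤ))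
  · intro n hn
    rw [mem_filter, mem_Ioc, QF_eval] at hn
    rw [mem_filter, mem_Ioc]
    exact ⟨⟨by omega, by omega⟩, hn.2⟩
  · intro n _ n' _ h
    exact_mod_cast h
  · intro k hk
    rw [mem_filter, mem_Ioc] at hk
    refine ⟨k.toNat, ?_, Int.toNat_of_nonneg (by omega)⟩
    rw [mem_filter, mem_Ioc, QF_eval, Int.toNat_of_nonneg (by omega)]
    exact ⟨⟨by omega, by omega⟩, hk.2⟩

theorem cI_asym (a : ℤ) (X H d : ℕ) (hd : 0 < d) :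
    |cI a X H d - H * gd a d| ≤ 2 * ((Rt a d).card + 1) := by
  have h := Pool.Agent.H543.PF.cnt_int (QF a) d X H hd
  rw [← cI_nat, ← Rt_ro] at h
  exact h

theorem Rt_mul (a : ℤ) (m n : ℕ) (hm : 1 ≤ m) (hn : 1 ≤ n) (h : Nat.Coprime m n) :
    (Rt a (m * n)).card = (Rt a m).card * (Rt a n).card := by
  rw [Rt_ro, Rt_ro, Rt_ro]
  unfold ro
  exact Pool.Agent.H475R2.BH.rho_mul _ _ _ hm hn h

theorem gd_mul (a : ℤ) (m n : ℕ) (hm : 1 ≤ m) (hn : 1 ≤ n) (h : Nat.Coprime m n) :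
    gd a (m * n) = gd a m * gd a n := by
  unfold gd
  rw [Rt_mul a m n hm hn h]
  push_cast
  rw [mul_div_mul_comm]

/-- one `m` -/
theorem FF_sum (a : ℤ) (X H : ℕ) (b : ℕ → ℝ) (B : Finset ℕ) (m : ℕ) :
    ∑ k ∈ (Ioc (X : ℤ) (X + H)).filter (fun k => (m : ℤ) ∣ k ^ 2 + a), FF a b B ((k ^ 2 + a) / m) =
      ∑ n ∈ B, b n * (cI a X H (m * n) - gd a n * cI a X H m) := by
  unfold FF
  rw [sum_comm]
  apply sum_congr rfl
  intro n _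
  have h2 : ∑ k ∈ (Ioc (X : ℤ) (X + H)).filter (fun k => (m : ℤ) ∣ k ^ 2 + a),
      dv n ((k ^ 2 + a) / m) = cI a X H (m * n) := by
    unfold dv cI
    rw [← sum_filter, sum_const, nsmul_eq_mul, mul_one]
    congr 2
    ext k
    simp only [mem_filter, and_assoc]
    apply and_congr_right
    intro _
    push_cast
    constructor
    · rintro ⟨h3, h4⟩
      exact (Int.dvd_div_iff_mul_dvd h3).1 h4
    · intro h3
      have h4 : (m : ℤ) ∣ k ^ 2 + a := (dvd_mul_right _ _).trans h3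
      exact ⟨h4, (Int.dvd_div_iff_mul_dvd h4).2 h3⟩
  have h3 : ∑ k ∈ (Ioc (X : ℤ) (X + H)).filter (fun k => (m : ℤ) ∣ k ^ 2 + a), gd a n =
      gd a n * cI a X H m := by
    unfold cI
    rw [sum_const, nsmul_eq_mul, mul_comm]
  rw [← h2, ← h3, ← sum_sub_distrib, mul_sum]

/-- the sum over `m` and `n` as a sum over forms -/
theorem D_rep {a : ℤ} (D : Dec a) (X H M M0 : ℕ) (hM0 : D.M0 ≤ M0) (al b : ℕ → ℝ) (B : Finset ℕ) :
    ∑ i ∈ D.I, D.om i * Dsum (D.fm i) a D.K X H M M0 al b B =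
      ∑ m ∈ Ioc M0 M, ∑ n ∈ B, al m * b n * (cI a X H (m * n) - gd a n * cI a X H m) := by
  have h1 : ∀ i ∈ D.I, Dsum (D.fm i) a D.K X H M M0 al b B =
      ∑ m ∈ Ioc (M0 : ℤ) M, ∑ k ∈ (Ioc (X : ℤ) (X + H)).filter (fun k => m ∣ k ^ 2 + a),
        (Nn (D.fm i) D.K m k : ℝ) * (al m.toNat * FF a b B ((k ^ 2 + a) / m)) := by
    intro i hi
    exact rep_sum (D.fm i) a D.K (D.cone i hi) X H M0 M (Int.natCast_nonneg M0)
      (fun m w => al m.toNat * FF a b B w)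
  rw [sum_congr rfl (fun i hi => by rw [h1 i hi])]
  have h2 : ∑ i ∈ D.I, D.om i * ∑ m ∈ Ioc (M0 : ℤ) M,
      ∑ k ∈ (Ioc (X : ℤ) (X + H)).filter (fun k => m ∣ k ^ 2 + a),
        (Nn (D.fm i) D.K m k : ℝ) * (al m.toNat * FF a b B ((k ^ 2 + a) / m)) =
      ∑ m ∈ Ioc (M0 : ℤ) M, ∑ k ∈ (Ioc (X : ℤ) (X + H)).filter (fun k => m ∣ k ^ 2 + a),
        (∑ i ∈ D.I, D.om i * (Nn (D.fm i) D.K m k : ℝ)) * (al m.toNat * FF a b B ((k ^ 2 + a) / m)) := by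
    simp_rw [mul_sum, sum_mul]
    rw [sum_comm]
    apply sum_congr rfl
    intro m _
    rw [sum_comm]
    apply sum_congr rfl
    intro k _
    apply sum_congr rfl
    intro i _
    ring
  rw [h2]
  have h3 : (Ioc (M0 : ℤ) M) = (Ioc M0 M).map ⟨fun x : ℕ => (x : ℤ), Nat.cast_injective⟩ := by
    ext m
    rw [Finset.mem_map, mem_Ioc]
    constructor
    · intro hm
      refine ⟨m.toNat, ?_, Int.toNat_of_nonneg (by omega)⟩
      rw [mem_Ioc]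
      omega
    · rintro ⟨m', hm', rfl⟩
      rw [mem_Ioc] at hm'
      simp only [Function.Embedding.coeFn_mk]
      omega
  rw [h3, sum_map]
  apply sum_congr rfl
  intro m hm
  rw [mem_Ioc] at hm
  simp only [Function.Embedding.coeFn_mk]
  have e1 : ((m : ℤ)).toNat = m := Int.toNat_natCast m
  rw [e1]
  have h4 : ∑ k ∈ (Ioc (X : ℤ) (X + H)).filter (fun k => (m : ℤ) ∣ k ^ 2 + a),
      (∑ i ∈ D.I, D.om i * (Nn (D.fm i) D.K m k : ℝ)) * (al m * FF a b B ((k ^ 2 + a) / m)) =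
      al m * ∑ k ∈ (Ioc (X : ℤ) (X + H)).filter (fun k => (m : ℤ) ∣ k ^ 2 + a),
        FF a b B ((k ^ 2 + a) / m) := by
    rw [mul_sum]
    apply sum_congr rfl
    intro k hk
    rw [D.cnt m k (by exact_mod_cast lt_of_le_of_lt hM0 hm.1) (mem_filter.1 hk).2, one_mul]
  rw [h4, FF_sum, mul_sum]
  apply sum_congr rfl
  intro n _
  ring

/-- the part of the dispersion method -/
theorem D_small (kl : S_KL) {a : ℤ} (D : Dec a) (ε ρ κ : ℝ) (hκ : 0 < κ) (hκε : 200 * κ ≤ ε)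
    (hκρ : 100 * κ ≤ ρ) (hε : ε ≤ 1 / 100) : ∃ X0 : ℕ, ∀ X : ℕ, X0 ≤ X → ∀ H : ℕ,
    (X : ℝ) ^ (1 - κ) ≤ H → H ≤ X →
    ∀ N M M0 : ℕ, (N : ℝ) ≤ (X : ℝ) ^ (1 / 12 - ε) → (M : ℝ) ≤ (X : ℝ) ^ (1 - ε) →
    (X : ℝ) ^ (9 / 10 : ℝ) ≤ M0 + 1 →
    ∀ al b : ℕ → ℝ, (∀ n, |al n| ≤ 1) → (∀ n, |b n| ≤ 1) →
    |∑ m ∈ Ioc M0 M, ∑ n ∈ Bs X N ρ, al m * b n * (cI a X H (m * n) - gd a n * cI a X H m)| ≤
      (∑ i ∈ D.I, D.om i) * (2 * (H * (X : ℝ) ^ (-κ))) := by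
  have h1 : ∀ i ∈ D.I, ∃ X0 : ℕ, ∀ X : ℕ, X0 ≤ X → ∀ H : ℕ,
    (X : ℝ) ^ (1 - κ) ≤ H → H ≤ X →
    ∀ N M M0 : ℕ, (N : ℝ) ≤ (X : ℝ) ^ (1 / 12 - ε) → (M : ℝ) ≤ (X : ℝ) ^ (1 - ε) →
    (X : ℝ) ^ (9 / 10 : ℝ) ≤ M0 + 1 →
    ∀ al b : ℕ → ℝ, (∀ n, |al n| ≤ 1) → (∀ n, |b n| ≤ 1) →
    |Dsum (D.fm i) a D.K X H M M0 al b (Bs X N ρ)| ≤ 2 * (H * (X : ℝ) ^ (-κ)) := by
    intro i hi
    exact D_one kl (D.fm i) a D.a0 D.K (D.cone i hi) D.M0 (1 / D.om i)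
      (one_div_nonneg.2 (D.om_pos i hi).le) (fun m k hm h => D.nb i hi m k hm h) ε ρ κ hκ hκε hκρ hε
  choose! f hf using h1
  have e1 : ∀ᶠ X : ℕ in atTop, (D.M0 : ℝ) + 1 ≤ (X : ℝ) ^ (9 / 10 : ℝ) :=
    tendsto_natCast_atTop_atTop.eventually
      ((tendsto_rpow_atTop (by norm_num)).eventually_ge_atTop _)
  obtain ⟨X3, hX3⟩ := eventually_atTop.1 e1
  refine ⟨max (D.I.sup f) X3, fun X hX H hH1 hH2 N M M0 hN hM hM0 al b hal hb => ?_⟩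
  have hM0' : D.M0 ≤ M0 := by
    have h2 := hX3 X ((le_max_right _ _).trans hX)
    have h3 : (D.M0 : ℝ) ≤ M0 := by linarith
    exact_mod_cast h3
  rw [← D_rep D X H M M0 hM0' al b (Bs X N ρ), sum_mul]
  refine (abs_sum_le_sum_abs _ _).trans (sum_le_sum fun i hi => ?_)
  rw [abs_mul, abs_of_pos (D.om_pos i hi)]
  apply mul_le_mul_of_nonneg_left _ (D.om_pos i hi).le
  exact hf i hi X ((le_sup hi).trans ((le_max_left _ _).trans hX)) H hH1 hH2 N M M0 hN hM hM0 al b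
    hal hb

end Pool.Agent.H543.DG
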