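import Pool.Agent.H543.DG.RedV
import Pool.Agent.H543.DG.Dec

/-!
# The decomposition exists for every nonsquare `-a`
-/

set_option autoImplicit false

namespace Pool.Agent.H543.DG

open Finset
open scoped Classical

/-- the form on the cone `0 < y < x` -/
def tf (F : Fm) : Fm := ⟨F.A, F.A - F.B, F.A - 2 * F.B + F.C⟩

theorem qm_tf (F : Fm) (x y : ℤ) : qm (tf F) x y = ev F (x - y) y := by
  unfold qm tf ev
  simp only
  ring

/-- the reduced forms -/
noncomputable def RSa (a : ℤ) : Finset Fm :=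
  ((Icc (0 : ℤ) (8 * a ^ 2) ×ˢ Icc (0 : ℤ) (8 * a ^ 2) ×ˢ Icc (0 : ℤ) (8 * a ^ 2)).image
    (fun t : ℤ × ℤ × ℤ => (⟨t.1, t.2.1, t.2.2⟩ : Fm))).filter (fun F => Red a F)

theorem red_bound {a : ℤ} (F : Fm) (h : Red a F) :
    F.A ≤ 8 * a ^ 2 ∧ F.B ≤ 8 * a ^ 2 ∧ F.C ≤ 8 * a ^ 2 := by
  obtain ⟨⟨hA, hC, hB, hd⟩, hr⟩ := h
  obtain ⟨A, B, C⟩ := F
  simp only at hA hC hB hd hr ⊢
  rcases hr with ⟨ha, h1, h2⟩ | ⟨ha, h1⟩
  · have h3 : (B + 1) * (B + 1) ≤ A * C := mul_le_mul (by linarith) (by linarith) (by linarith)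
      (by linarith)
    have h4 : 2 * B + 1 ≤ a := by nlinarith
    have h5 : B ≤ a := by linarith
    have h6 : B ^ 2 ≤ a ^ 2 := by nlinarith
    have h7 : A ≤ A * C := by nlinarith
    have h8 : C ≤ A * C := by nlinarith
    have h9 : a ≤ a ^ 2 := by nlinarith
    have h10 := sq_nonneg a
    refine ⟨by linarith, by linarith, by linarith⟩
  · have h3 : (2 * B - (A + C)) * (2 * B + (A + C)) = -4 * a - (A - C) ^ 2 := by
      rw [← hd]
      ring
    have h4 : 2 * B + (A + C) ≤ -4 * a := by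
      have h5 : 2 * B + (A + C) ≤ (2 * B - (A + C)) * (2 * B + (A + C)) := by nlinarith
      nlinarith [sq_nonneg (A - C)]
    have h9 : -a ≤ a ^ 2 := by nlinarith
    have h10 := sq_nonneg a
    refine ⟨by linarith, by linarith, by linarith⟩

theorem mem_RSa {a : ℤ} (F : Fm) : F ∈ RSa a ↔ Red a F := by
  unfold RSa
  rw [mem_filter, mem_image]
  constructor
  · exact fun h => h.2
  · intro h
    obtain ⟨h1, h2, h3⟩ := red_bound F h
    have hA := h.A1
    have hB := h.B0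
    have hC := h.C1
    refine ⟨⟨(F.A, F.B, F.C), ?_, rfl⟩, h⟩
    rw [mem_product, mem_product, mem_Icc, mem_Icc, mem_Icc]
    exact ⟨⟨by linarith, h1⟩, ⟨hB, h2⟩, ⟨by simp only; linarith, h3⟩⟩

theorem cone_tf {a : ℤ} (ha : ¬ IsSquare (-a)) (F : Fm) (h : Red a F) :
    Cone (tf F) a (16 * (a ^ 2).toNat) := by
  obtain ⟨h1, h2, h3⟩ := red_bound F h
  have hA := h.A1
  have hB := h.B0
  have hC := h.C1
  have ha0 : a ≠ 0 := by
    rintro rfl
    exact ha ⟨0, by norm_num⟩
  have ha2 : 1 ≤ a ^ 2 := by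
    have : 0 < a ^ 2 := by positivity
    linarith
  have hN : ((16 * (a ^ 2).toNat : ℕ) : ℤ) = 16 * a ^ 2 := by
    push_cast
    rw [Int.toNat_of_nonneg (by positivity)]
  have hev : ∀ x y : ℤ, 0 ≤ y → y ≤ x → (x - y) ^ 2 + y ^ 2 ≤ ev F (x - y) y ∧
      ev F (x - y) y ≤ 8 * a ^ 2 * x ^ 2 := by
    intro x y hy hx
    unfold ev
    obtain ⟨z, hz⟩ : ∃ z : ℤ, z = x - y := ⟨_, rfl⟩
    rw [← hz]
    have hz0 : 0 ≤ z := by linarith
    have e : x = z + y := by linarith
    rw [e]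
    have u1 : 0 ≤ z ^ 2 := sq_nonneg z
    have u2 : 0 ≤ y ^ 2 := sq_nonneg y
    have u3 : 0 ≤ z * y := mul_nonneg hz0 hy
    have v1 : z ^ 2 ≤ F.A * z ^ 2 := le_mul_of_one_le_left u1 hA
    have v2 : y ^ 2 ≤ F.C * y ^ 2 := le_mul_of_one_le_left u2 hC
    have v3 : 0 ≤ F.B * (z * y) := mul_nonneg hB u3
    have w1 : F.A * z ^ 2 ≤ 8 * a ^ 2 * z ^ 2 := mul_le_mul_of_nonneg_right h1 u1
    have w2 : F.C * y ^ 2 ≤ 8 * a ^ 2 * y ^ 2 := mul_le_mul_of_nonneg_right h3 u2
    have w3 : F.B * (z * y) ≤ 8 * a ^ 2 * (z * y) := mul_le_mul_of_nonneg_right h2 u3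
    constructor
    · linarith
    · linarith
  refine ⟨?_, ?_, ?_, ?_, ?_, ?_, ?_, ?_⟩
  · have : (1 : ℤ) ≤ ((16 * (a ^ 2).toNat : ℕ) : ℤ) := by rw [hN]; linarith
    exact_mod_cast this
  · intro x y hy hx
    rw [qm_tf, hN]
    obtain ⟨e1, e2⟩ := hev x y hy hx
    have e3 : x ^ 2 ≤ 2 * ((x - y) ^ 2 + y ^ 2) := by nlinarith [sq_nonneg (x - y - y)]
    have e4 : 0 ≤ ev F (x - y) y := le_trans (by positivity) e1
    have e5 : 2 * ev F (x - y) y ≤ 16 * a ^ 2 * ev F (x - y) y :=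
      mul_le_mul_of_nonneg_right (by linarith) e4
    linarith
  · intro x y hy hx
    rw [qm_tf, hN]
    obtain ⟨e1, e2⟩ := hev x y hy hx
    have e3 : 0 ≤ a ^ 2 * x ^ 2 := by positivity
    linarith
  · rw [hN]
    unfold tf
    simp only
    rw [abs_le]
    constructor <;> linarith
  · rw [hN]
    unfold tf
    simp only
    rw [abs_le]
    constructor <;> linarith
  · rw [hN]
    unfold tf
    simp only
    rw [abs_le]
    constructor <;> linarith
  · unfold tf
    simp only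
    have := h.disc
    rw [← this]
    ring
  · unfold tf
    simp only
    apply ne_zero_of ha F.A (F.A - F.B)
    have := h.disc
    rw [← this]
    ring

theorem rp_of_ns {a : ℤ} (F : Fm) (K : ℕ) (hc : Cone (tf F) a K) (m k x y : ℤ) (hm : 0 < m)
    (h : (x, y) ∈ Ns (tf F) K m k) : ∃ U V : ℤ, Rp F m (-k) (x - y) y U V := by
  rw [mem_Ns (tf F) a K hc, qm_tf] at h
  obtain ⟨h1, h2, h3, ⟨u, hu⟩, ⟨v, hv⟩⟩ := h
  unfold tf at hu hv
  simp only at hu hv
  obtain ⟨X, hX⟩ : ∃ X : ℤ, X = x - y := ⟨_, rfl⟩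
  have hx : x = X + y := by linarith
  rw [← hX] at h3 ⊢
  subst hx
  have hU : m * (v - u) = (-k) * X - (F.B * X + F.C * y) := by
    rw [mul_sub, ← hu, ← hv]
    ring
  have hV : m * (-v) = (-k) * y + (F.A * X + F.B * y) := by
    rw [mul_neg, ← hv]
    ring
  refine ⟨v - u, -v, ?_, by linarith, h1.le, h3, ?_⟩
  · apply mul_left_cancel₀ hm.ne'
    have e : m * (X * -v - y * (v - u)) = X * (m * (-v)) - y * (m * (v - u)) := by ring
    rw [e, hU, hV, mul_one]
    conv_rhs => rw [← h3]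
    unfold ev
    ring
  · apply mul_left_cancel₀ hm.ne'
    have e : m * bl F X y (v - u) (-v) = (m * (v - u)) * (F.A * X + F.B * y) +
        (m * (-v)) * (F.B * X + F.C * y) := by
      unfold bl
      ring
    rw [e, hU, hV]
    conv_rhs => rw [← h3]
    unfold ev
    ring

theorem ns_of_rp {a : ℤ} (F : Fm) (K : ℕ) (hc : Cone (tf F) a K) (m k X Y U V : ℤ) (hY : 1 ≤ Y)
    (h : Rp F m (-k) X Y U V) : (X + Y, Y) ∈ Ns (tf F) K m k := by
  rw [mem_Ns (tf F) a K hc, qm_tf]
  obtain ⟨hd, hX, -, hm, hk⟩ := h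
  have h1 : m * U = (-k) * X - (F.B * X + F.C * Y) := by
    rw [← hk, ← hm]
    unfold ev bl
    linear_combination (-(F.B * X) - F.C * Y) * hd
  have h2 : m * V = (-k) * Y + (F.A * X + F.B * Y) := by
    rw [← hk, ← hm]
    unfold ev bl
    linear_combination (F.A * X + F.B * Y) * hd
  refine ⟨by linarith, by linarith, ?_, ?_, ?_⟩
  · rw [← hm]
    congr 1
    ring
  · refine ⟨-U - V, ?_⟩
    unfold tf
    simp only
    linear_combination h1 + h2
  · refine ⟨-V, ?_⟩
    unfold tf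
    simp only
    linear_combination h2

/-- **the decomposition** -/
theorem dec_exists {a : ℤ} (ha : ¬ IsSquare (-a)) : Nonempty (Dec a) := by
  have ha0 : a ≠ 0 := by
    rintro rfl
    exact ha ⟨0, by norm_num⟩
  refine ⟨⟨RSa a ×ˢ {0}, fun i => tf i.1, fun _ => 1, 16 * (a ^ 2).toNat,
    16 * (a ^ 2).toNat, ha0, fun _ _ => one_pos, ?_, ?_⟩⟩
  · intro i hi
    rw [mem_product, mem_RSa] at hi
    exact cone_tf ha i.1 hi.1
  · intro m k hm hmk
    set K := 16 * (a ^ 2).toNat with hK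
    have hN : (K : ℤ) = 16 * a ^ 2 := by
      rw [hK]
      push_cast
      rw [Int.toNat_of_nonneg (by positivity)]
    have hm0 : 0 < m := lt_of_le_of_lt (Int.natCast_nonneg _) hm
    obtain ⟨F0, hF0, X0, Y0, U0, V0, hR0⟩ := red_exists ha m (-k) hm0 (by
      rw [show (-k) ^ 2 + a = k ^ 2 + a by ring]
      exact hmk)
    have hY0 : 1 ≤ Y0 := by
      by_contra h
      have h1 : Y0 = 0 := by
        have := hR0.Y0
        omega
      have h2 := hR0.det
      have h3 := hR0.em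
      have h4 := hR0.X1
      rw [h1] at h2 h3
      have h5 : X0 * V0 = 1 := by linarith
      have h6 : X0 = 1 := by
        have h7 : 0 < V0 := by
          by_contra h7
          push Not at h7
          nlinarith
        nlinarith
      rw [h6] at h3
      unfold ev at h3
      have h8 := (red_bound F0 hF0).1
      have h9 := sq_nonneg a
      rw [hN] at hm
      linarith
    rw [sum_product]
    simp only [sum_singleton, one_mul]
    have h1 : ∀ F ∈ RSa a, (Nn (tf F) K m k : ℝ) = if F = F0 then 1 else 0 := by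
      intro F hF
      rw [mem_RSa] at hF
      have hc := cone_tf ha F hF
      rw [Nn_eq]
      split_ifs with hFF
      · have h2 : Ns (tf F) K m k = {(X0 + Y0, Y0)} := by
          ext ⟨x, y⟩
          rw [mem_singleton]
          constructor
          · intro hxy
            obtain ⟨U, V, hR⟩ := rp_of_ns F K hc m k x y hm0 hxy
            obtain ⟨g1, g2, g3⟩ := red_unique m (-k) hm0 F0 F hF0 hF X0 Y0 U0 V0 _ _ U V hR0 hR
            rw [Prod.mk.injEq]
            exact ⟨by linarith, g3⟩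
          · intro hxy
            rw [hxy]
            rw [← hFF] at hR0
            exact ns_of_rp F K hc m k X0 Y0 U0 V0 hY0 hR0
        rw [h2, card_singleton]
        norm_num
      · have h2 : Ns (tf F) K m k = ∅ := by
          rw [eq_empty_iff_forall_notMem]
          rintro ⟨x, y⟩ hxy
          obtain ⟨U, V, hR⟩ := rp_of_ns F K hc m k x y hm0 hxy
          obtain ⟨g1, g2, g3⟩ := red_unique m (-k) hm0 F0 F hF0 hF X0 Y0 U0 V0 _ _ U V hR0 hR
          exact hFF g1
        rw [h2, card_empty]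
        norm_num
    rw [sum_congr rfl h1, sum_ite_eq', if_pos ((mem_RSa F0).2 hF0)]

end Pool.Agent.H543.DG
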