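import Mathlib

/-!
# Binary quadratic forms and the divisors of `k ^ 2 + a`: definitions

Forms `q(x, y) = A x ^ 2 - 2 B x y + C y ^ 2` with `A C - B ^ 2 = a`; if `x v + y u = 1` then
`k = A x u + B (x v - y u) - C y v` and `w = A u ^ 2 + 2 B u v + C v ^ 2` satisfy
`k ^ 2 + a = q(x, y) w`.
-/

set_option autoImplicit false

namespace Pool.Agent.H543.DG

open Finset

/-- a binary quadratic form `A x ^ 2 - 2 B x y + C y ^ 2` -/
structure Fm where
  A : ℤ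
  B : ℤ
  C : ℤ
deriving DecidableEq

/-- the value -/
def qm (F : Fm) (x y : ℤ) : ℤ := F.A * x ^ 2 - 2 * F.B * x * y + F.C * y ^ 2

/-- the second coordinate -/
def vv (x y u : ℤ) : ℤ := (1 - y * u) / x

/-- the cofactor -/
def ww (F : Fm) (x y u : ℤ) : ℤ := F.A * u ^ 2 + 2 * F.B * u * vv x y u + F.C * vv x y u ^ 2

/-- the integer `k` -/
def kk (F : Fm) (x y u : ℤ) : ℤ :=
  F.A * x * u + F.B * (x * vv x y u - y * u) - F.C * y * vv x y u

/-- lower end of the range of `u` -/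
noncomputable def lo (F : Fm) (X : ℕ) (x y : ℤ) : ℝ :=
  ((x : ℝ) * ((X : ℝ) - F.B) + F.C * y) / (qm F x y : ℝ)

/-- the points for one pair `(x, y)` -/
noncomputable def US (F : Fm) (X H : ℕ) (x y : ℤ) : Finset ℤ :=
  (Ioc ⌊lo F X x y⌋ ⌊lo F (X + H) x y⌋).filter (fun u => x ∣ y * u - 1)

/-- the form is positive on the cone `0 ≤ y ≤ x` -/
structure Cone (F : Fm) (a : ℤ) (K : ℕ) : Prop where
  K1 : 1 ≤ K
  dn : ∀ x y : ℤ, 0 ≤ y → y ≤ x → x ^ 2 ≤ K * qm F x y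
  up : ∀ x y : ℤ, 0 ≤ y → y ≤ x → qm F x y ≤ K * x ^ 2
  hA : |F.A| ≤ K
  hB : |F.B| ≤ K
  hC : |F.C| ≤ K
  disc : F.A * F.C - F.B ^ 2 = a
  C0 : F.C ≠ 0

/-- the number of pairs `(x, y)` of the cone for `m, k` -/
noncomputable def Nn (F : Fm) (K : ℕ) (m k : ℤ) : ℕ :=
  ((Icc 1 (K * m) ×ˢ Icc 1 (K * m)).filter (fun s : ℤ × ℤ => s.2 < s.1 ∧ qm F s.1 s.2 = m ∧
    m ∣ k * s.1 - F.B * s.1 + F.C * s.2 ∧ m ∣ k * s.2 + F.B * s.2 - F.A * s.1)).card

/-- the roots of `-a` modulo `n` -/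
def Rt (a : ℤ) (n : ℕ) : Finset ℕ := (range n).filter (fun i => (n : ℤ) ∣ (i : ℤ) ^ 2 + a)

/-- the slopes of a form modulo `n` -/
def Rj (F : Fm) (n : ℕ) : Finset ℕ :=
  (range n).filter (fun j => (n : ℤ) ∣ F.C * (j : ℤ) ^ 2 + 2 * F.B * j + F.A)

/-- lower end with shift -/
noncomputable def lo1 (F : Fm) (X : ℕ) (x l y : ℤ) : ℝ := lo F X x y + x * (max (-l) 0 : ℤ)

/-- upper end with shift -/
noncomputable def hi1 (F : Fm) (X H : ℕ) (x l y : ℤ) : ℝ := lo F (X + H) x y - x * (max l 0 : ℤ)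

/-- the count for the shift `l` -/
noncomputable def CC (F : Fm) (X H : ℕ) (x l : ℤ) (n1 n2 : ℕ) : ℕ :=
  ∑ y ∈ Ioo 0 x, ((US F X H x y).filter (fun u => u + x * l ∈ US F X H x y ∧
    (n1 : ℤ) ∣ ww F x y u ∧ (n2 : ℤ) ∣ ww F x y (u + x * l))).card

/-- points on a modular hyperbola -/
noncomputable def HC (F : Fm) (X H : ℕ) (x l : ℤ) (Q s t : ℤ) : ℕ :=
  ∑ y ∈ Ioo 0 x, ((Ioc ⌊lo1 F X x l y⌋ ⌊hi1 F X H x l y⌋).filter
    (fun u => Q ∣ (y + s) * (u + t) - 1)).card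

/-- density -/
noncomputable def gd (a : ℤ) (n : ℕ) : ℝ := ((Rt a n).card : ℝ) / n

theorem gd_nonneg (a : ℤ) (n : ℕ) : 0 ≤ gd a n := by unfold gd; positivity

open scoped Classical in
/-- indicator of divisibility -/
noncomputable def dv (n : ℕ) (w : ℤ) : ℝ := if (n : ℤ) ∣ w then 1 else 0

theorem dv_nonneg (n : ℕ) (w : ℤ) : 0 ≤ dv n w := by unfold dv; split_ifs <;> norm_num

/-- the balanced divisor function -/
noncomputable def FF (a : ℤ) (b : ℕ → ℝ) (B : Finset ℕ) (w : ℤ) : ℝ :=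
  ∑ n ∈ B, b n * (dv n w - gd a n)

/-- the sum for one pair -/
noncomputable def SS (F : Fm) (a : ℤ) (X H : ℕ) (b : ℕ → ℝ) (B : Finset ℕ) (x y : ℤ) : ℝ :=
  ∑ u ∈ US F X H x y, FF a b B (ww F x y u)

/-- windows -/
def cw (x : ℤ) (h : ℕ) (j : ℕ) : ℤ := min (j * h) (x - 1)

/-- number of windows -/
def Wn (x : ℤ) (h : ℕ) : ℕ := x.toNat / h + 1

/-- the area -/
noncomputable def AA (F : Fm) (X H : ℕ) (x l : ℤ) (h : ℕ) : ℝ :=
  ∑ j ∈ range (Wn x h), ((cw x h (j + 1) : ℝ) - cw x h j) *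
    max (hi1 F X H x l (cw x h j) - lo1 F X x l (cw x h j)) 0

/-- the combination -/
noncomputable def D4 (F : Fm) (a : ℤ) (X H : ℕ) (x l : ℤ) (n1 n2 : ℕ) : ℝ :=
  CC F X H x l n1 n2 - gd a n2 * CC F X H x l n1 1 - gd a n1 * CC F X H x l 1 n2 +
    gd a n1 * gd a n2 * CC F X H x l 1 1

/-- the variation -/
noncomputable def Vv (K X H x h : ℕ) : ℝ := h * (6 * (K : ℝ) ^ 4 * ((X + H : ℕ) + 1) / (x : ℝ) ^ 2)

/-- the length of the region -/
noncomputable def TT (K X H x h : ℕ) : ℝ := h + (K * H / x + 2 * Vv K X H x h + 2)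

/-- the error of the second type -/
noncomputable def E2 (C ε : ℝ) (K X H x h N : ℕ) : ℝ :=
  (2 * x / h + 1) * (C * ((x * (N * N) : ℕ) : ℝ) ^ ε * (Real.sqrt x * N) +
    C * ((x * (N * N) : ℕ) : ℝ) ^ ε / Real.sqrt x * TT K X H x h)

/-- the number of `k` in `(X, X + H]` with `d ∣ k ^ 2 + a` -/
noncomputable def cI (a : ℤ) (X H d : ℕ) : ℝ :=
  (((Ioc (X : ℤ) (X + H)).filter (fun k => (d : ℤ) ∣ k ^ 2 + a)).card : ℝ)

/-- the moduli of the second type -/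
noncomputable def Bs (X N : ℕ) (ρ : ℝ) : Finset ℕ :=
  (Icc 1 N).filter (fun n => Squarefree n ∧ ∀ p ∈ n.primeFactors, (X : ℝ) ^ ρ ≤ p)

theorem mem_US (F : Fm) (X H : ℕ) (x y u : ℤ) (hm : 0 < qm F x y) : u ∈ US F X H x y ↔
    (x ∣ y * u - 1 ∧ x * ((X : ℤ) - F.B) + F.C * y < qm F x y * u ∧
      qm F x y * u ≤ x * ((X : ℤ) + H - F.B) + F.C * y) := by
  have hmr : (0 : ℝ) < (qm F x y : ℝ) := by exact_mod_cast hm
  unfold US
  rw [mem_filter, mem_Ioc, Int.floor_lt, Int.le_floor]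
  unfold lo
  rw [div_lt_iff₀ hmr, le_div_iff₀ hmr]
  have h1 : ((x : ℝ) * ((X : ℝ) - F.B) + F.C * y < u * (qm F x y : ℝ)) ↔
      (x * ((X : ℤ) - F.B) + F.C * y < qm F x y * u) := by
    rw [mul_comm (u : ℝ)]
    exact_mod_cast Iff.rfl
  have h2 : ((u : ℝ) * (qm F x y : ℝ) ≤ (x : ℝ) * (((X + H : ℕ) : ℝ) - F.B) + F.C * y) ↔
      (qm F x y * u ≤ x * ((X : ℤ) + H - F.B) + F.C * y) := by
    rw [mul_comm (u : ℝ)]
    push_cast
    exact_mod_cast Iff.rfl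
  rw [h1, h2]
  tauto

theorem vv_eq (x y u : ℤ) (h : x ∣ y * u - 1) : x * vv x y u + y * u = 1 := by
  have h1 : x ∣ 1 - y * u := by
    rw [show 1 - y * u = -(y * u - 1) by ring]
    exact h.neg_right
  unfold vv
  rw [Int.mul_ediv_cancel' h1]
  ring

theorem vv_of (x y u v : ℤ) (hx : x ≠ 0) (h : x * v + y * u = 1) : vv x y u = v := by
  unfold vv
  apply Int.ediv_eq_of_eq_mul_right hx
  linarith

/-- all relations -/
theorem US_spec (F : Fm) (a : ℤ) (hF : F.A * F.C - F.B ^ 2 = a) (X H : ℕ) (x y u : ℤ) (hx : 0 < x)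
    (hm : 0 < qm F x y) (h : u ∈ US F X H x y) :
    (X : ℤ) < kk F x y u ∧ kk F x y u ≤ X + H ∧
      (kk F x y u) ^ 2 + a = qm F x y * ww F x y u ∧
      x * kk F x y u = qm F x y * u + F.B * x - F.C * y ∧
      y * kk F x y u = -(qm F x y * vv x y u) + F.A * x - F.B * y := by
  rw [mem_US F X H x y u hm] at h
  obtain ⟨h1, h2, h3⟩ := h
  have h4 := vv_eq x y u h1
  obtain ⟨v, hv⟩ : ∃ v : ℤ, v = vv x y u := ⟨_, rfl⟩
  rw [← hv] at h4
  have h5 : kk F x y u = F.A * x * u + F.B * (x * v - y * u) - F.C * y * v := by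
    rw [hv]
    rfl
  have h6 : x * kk F x y u = qm F x y * u + F.B * x - F.C * y := by
    rw [h5]
    unfold qm
    linear_combination (F.B * x - F.C * y) * h4
  have h7 : y * kk F x y u = -(qm F x y * v) + F.A * x - F.B * y := by
    rw [h5]
    unfold qm
    linear_combination (F.A * x - F.B * y) * h4
  rw [← hv]
  refine ⟨?_, ?_, ?_, h6, h7⟩
  · have h8 : x * X < x * kk F x y u := by
      rw [h6]
      linarith
    exact lt_of_mul_lt_mul_left h8 hx.le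
  · have h8 : x * kk F x y u ≤ x * (X + H) := by
      rw [h6]
      linarith
    exact le_of_mul_le_mul_left h8 hx
  · have h8 : ww F x y u = F.A * u ^ 2 + 2 * F.B * u * v + F.C * v ^ 2 := by
      rw [hv]
      rfl
    rw [h8, h5, ← hF]
    unfold qm
    linear_combination (-(F.A * F.C - F.B ^ 2)) * (x * v + y * u + 1) * h4

end Pool.Agent.H543.DG
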