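import Pool.Agent.H543.DG.Si
import Pool.Agent.H543.DD.Num

/-!
# Almost primes `n ^ 2 + a` with at most two prime factors in short intervals
-/

set_option autoImplicit false

namespace Pool.Agent.H543.DG

open Finset Filter
open Pool.Agent.W23.DC
open Pool.Agent.Y882
open Pool.Agent.Y882.KW
open Pool.Agent.Y882.SI
open Pool.Agent.Y882.PX (ro)
open Pool.Agent.Y346.PA (S_KL)
open Pool.Agent.H543.DD

/-- small primes do not divide a number with positive weight -/
theorem ww_rough (Y N : ℕ) (ζ υ a b : ℝ) (hY : 2 ≤ Y) (hζ1 : ζ ≤ 1) (h : 0 < WW Y ζ υ a b N) (p : ℕ)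
    (hp : p.Prime) (hpN : p ∣ N) : ζ ≤ tt Y p ∧ (Y : ℝ) ^ ζ ≤ p := by
  classical
  have hY2 : (2 : ℝ) ≤ Y := by exact_mod_cast hY
  have h1 : ζ ≤ tt Y p := by
    by_contra hc
    push Not at hc
    have h2 := (tt_lt Y p ζ hY hp.pos).1 hc
    have h3 : (p : ℝ) < Y := by
      calc (p : ℝ) < (Y : ℝ) ^ ζ := h2
        _ ≤ (Y : ℝ) ^ (1 : ℝ) := Real.rpow_le_rpow_of_exponent_le (by linarith) hζ1
        _ = Y := Real.rpow_one _
    have h4 : p < Y := by exact_mod_cast h3
    have h5 : p ∈ PZ Y ζ := by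
      unfold PZ
      rw [mem_filter, mem_Icc]
      exact ⟨⟨hp.one_le, h4.le⟩, hp, hc⟩
    have h6 : ¬ ∀ p ∈ PZ Y ζ, ¬ p ∣ N := fun h7 => h7 p h5 hpN
    unfold WW at h
    rw [if_neg h6, zero_mul] at h
    exact lt_irrefl _ h
  refine ⟨h1, ?_⟩
  by_contra hc
  push Not at hc
  exact absurd ((tt_lt Y p ζ hY hp.pos).2 hc) (not_lt.2 h1)

/-- squarefree numbers with positive weight have at most two prime factors -/
theorem ww_two (Y N : ℕ) (ζ υ a b : ℝ) (hY : 2 ≤ Y) (hζ1 : ζ ≤ 1) (hυ1 : υ ≤ 1) (ha : 0 ≤ a)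
    (hab : a = b * υ) (hb : 0 ≤ b) (hN : N ≤ 5 * Y) (hN0 : N ≠ 0)
    (hlog : b * Real.log 5 ≤ (3 * a - b - 1) * Real.log Y)
    (h : 0 < WW Y ζ υ a b N) (hsq : Squarefree N) : N.primeFactorsList.length ≤ 2 := by
  classical
  have hY2 : (2 : ℝ) ≤ Y := by exact_mod_cast hY
  have hlY : 0 < Real.log Y := Real.log_pos (by linarith)
  by_contra hc
  push Not at hc
  have hnd := (Nat.squarefree_iff_nodup_primeFactorsList hN0).1 hsq
  have hcard : N.primeFactors.card = N.primeFactorsList.length := by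
    unfold Nat.primeFactors
    exact List.toFinset_card_of_nodup hnd
  have h3 : (3 : ℝ) ≤ N.primeFactors.card := by
    rw [hcard]
    exact_mod_cast hc
  -- the sum over the prime factors
  have hsum : ∑ q ∈ N.primeFactors, (a - b * tt Y q) ≤
      ∑ q ∈ pr Y ζ υ, (a - b * tt Y q) * (if q ∣ N then (1 : ℝ) else 0) := by
    rw [← sum_filter_add_sum_filter_not N.primeFactors (fun q => tt Y q < υ)]
    have h4 : ∑ q ∈ N.primeFactors.filter (fun q => ¬ tt Y q < υ), (a - b * tt Y q) ≤ 0 := by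
      apply sum_nonpos
      intro q hq
      rw [mem_filter, not_lt] at hq
      have : b * υ ≤ b * tt Y q := mul_le_mul_of_nonneg_left hq.2 hb
      linarith
    have h5 : ∑ q ∈ N.primeFactors.filter (fun q => tt Y q < υ), (a - b * tt Y q) ≤
        ∑ q ∈ pr Y ζ υ, (a - b * tt Y q) * (if q ∣ N then (1 : ℝ) else 0) := by
      have h6 : ∑ q ∈ N.primeFactors.filter (fun q => tt Y q < υ), (a - b * tt Y q) =
          ∑ q ∈ N.primeFactors.filter (fun q => tt Y q < υ),
            (a - b * tt Y q) * (if q ∣ N then (1 : ℝ) else 0) := by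
        apply sum_congr rfl
        intro q hq
        rw [if_pos (Nat.dvd_of_mem_primeFactors (mem_filter.1 hq).1), mul_one]
      rw [h6]
      apply sum_le_sum_of_subset_of_nonneg
      · intro q hq
        rw [mem_filter] at hq
        have hqp := Nat.prime_of_mem_primeFactors hq.1
        have h7 := ww_rough Y N ζ υ a b hY hζ1 h q hqp (Nat.dvd_of_mem_primeFactors hq.1)
        have h8 := (tt_lt Y q υ hY hqp.pos).1 hq.2
        have h9 : (q : ℝ) < Y := by
          calc (q : ℝ) < (Y : ℝ) ^ υ := h8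
            _ ≤ (Y : ℝ) ^ (1 : ℝ) := Real.rpow_le_rpow_of_exponent_le (by linarith) hυ1
            _ = Y := Real.rpow_one _
        have h10 : q < Y := by exact_mod_cast h9
        unfold pr
        rw [mem_filter, mem_Icc]
        exact ⟨⟨hqp.one_le, h10.le⟩, hqp, h7.1, hq.2⟩
      · intro q hq _
        unfold pr at hq
        rw [mem_filter] at hq
        apply mul_nonneg
        · have : b * tt Y q ≤ b * υ := mul_le_mul_of_nonneg_left hq.2.2.2.le hb
          linarith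
        · split_ifs <;> norm_num
    linarith
  have htt : ∑ q ∈ N.primeFactors, tt Y q ≤ 1 + Real.log 5 / Real.log Y := by
    unfold tt
    rw [← sum_div]
    have h4 : ∑ q ∈ N.primeFactors, Real.log (q : ℝ) = Real.log N := by
      rw [← Real.log_prod (fun q hq => by
        have := (Nat.prime_of_mem_primeFactors hq).ne_zero
        exact_mod_cast this)]
      congr 1
      have := Nat.prod_primeFactors_of_squarefree hsq
      rw [← Nat.cast_prod, this]
    rw [h4]
    have h5 : Real.log N ≤ Real.log 5 + Real.log Y := by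
      rw [← Real.log_mul (by norm_num) (by linarith)]
      apply Real.log_le_log
      · exact_mod_cast Nat.pos_of_ne_zero hN0
      · exact_mod_cast hN
    calc Real.log N / Real.log Y ≤ (Real.log 5 + Real.log Y) / Real.log Y :=
          div_le_div_of_nonneg_right h5 hlY.le
      _ = 1 + Real.log 5 / Real.log Y := by field_simp; ring
  have hge : 1 ≤ ∑ q ∈ N.primeFactors, (a - b * tt Y q) := by
    rw [sum_sub_distrib, sum_const, nsmul_eq_mul, ← mul_sum]
    have h4 : 3 * a ≤ (N.primeFactors.card : ℝ) * a := mul_le_mul_of_nonneg_right h3 ha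
    have h5 : b * ∑ q ∈ N.primeFactors, tt Y q ≤ b * (1 + Real.log 5 / Real.log Y) :=
      mul_le_mul_of_nonneg_left htt hb
    have h6 : b * (Real.log 5 / Real.log Y) ≤ 3 * a - b - 1 := by
      rw [← mul_div_assoc, div_le_iff₀ hlY]
      exact hlog
    linarith
  have hle : WW Y ζ υ a b N ≤ 0 := by
    unfold WW
    apply mul_nonpos_of_nonneg_of_nonpos
    · split_ifs <;> norm_num
    · linarith
  linarith

/-- numbers with positive weight which are not squarefree -/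
theorem ww_sq (Y N : ℕ) (ζ υ a b : ℝ) (hY : 2 ≤ Y) (hζ1 : ζ ≤ 1) (hN : N ≤ 5 * Y)
    (hns : ¬ IsSquare N) (h : 0 < WW Y ζ υ a b N) (hsq : ¬ Squarefree N) :
    ∃ p : ℕ, p.Prime ∧ (Y : ℝ) ^ ζ ≤ p ∧ (p : ℝ) ^ 2 * (Y : ℝ) ^ ζ ≤ 5 * Y ∧ p * p ∣ N := by
  have hY2 : (2 : ℝ) ≤ Y := by exact_mod_cast hY
  rw [Nat.squarefree_iff_prime_squarefree] at hsq
  push Not at hsq
  obtain ⟨p, hp, hpN⟩ := hsq
  obtain ⟨m, hm⟩ := hpN
  have hm1 : m ≠ 1 := by
    rintro rfl
    rw [mul_one] at hm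
    exact hns ⟨p, hm⟩
  obtain ⟨q, hq, hqm⟩ := Nat.exists_prime_and_dvd hm1
  have hN0 : N ≠ 0 := by
    rintro rfl
    exact hns ⟨0, rfl⟩
  have hm0 : 0 < m := by
    rcases Nat.eq_zero_or_pos m with h1 | h1
    · rw [h1, mul_zero] at hm
      exact absurd hm hN0
    · exact h1
  have h1 := (ww_rough Y N ζ υ a b hY hζ1 h q hq (by rw [hm]; exact hqm.mul_left _)).2
  have h2 := (ww_rough Y N ζ υ a b hY hζ1 h p hp (by rw [hm, mul_assoc]; exact dvd_mul_right _ _)).2
  refine ⟨p, hp, h2, ?_, ⟨m, hm⟩⟩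
  have h3 : (q : ℝ) ≤ m := by exact_mod_cast Nat.le_of_dvd hm0 hqm
  have h4 : (N : ℝ) = (p : ℝ) * p * m := by exact_mod_cast hm
  have h5 : (N : ℝ) ≤ 5 * Y := by exact_mod_cast hN
  calc (p : ℝ) ^ 2 * (Y : ℝ) ^ ζ ≤ (p : ℝ) ^ 2 * m :=
        mul_le_mul_of_nonneg_left (h1.trans h3) (by positivity)
    _ = N := by rw [h4]; ring
    _ ≤ _ := h5

theorem NN_le (a : ℤ) (X n : ℕ) (h1 : n ≤ 2 * X) (h2 : a.natAbs + 1 ≤ X) : NN a n ≤ 5 * X ^ 2 := by
  unfold NN
  have h3 : ((n : ℤ) ^ 2 + a).natAbs ≤ n ^ 2 + a.natAbs := by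
    refine (Int.natAbs_add_le _ _).trans ?_
    rw [Int.natAbs_pow, Int.natAbs_natCast]
  have h4 : n ^ 2 ≤ (2 * X) ^ 2 := Nat.pow_le_pow_left h1 2
  nlinarith

theorem NN_ne {a : ℤ} (hna : ¬ IsSquare (-a)) (n : ℕ) : NN a n ≠ 0 := by
  unfold NN
  rw [Int.natAbs_ne_zero]
  intro h
  apply hna
  exact ⟨n, by rw [← sq]; linarith⟩

theorem NN_sq {a : ℤ} (ha0 : a ≠ 0) (n : ℕ) (hn : a.natAbs < n) : ¬ IsSquare (NN a n) := by
  rintro ⟨x, hx⟩
  have h1 : |a| < n := by
    rw [Int.abs_eq_natAbs]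
    exact_mod_cast hn
  have h2 := neg_abs_le a
  have h3 := le_abs_self a
  have hn1 : (1 : ℤ) ≤ n := by
    have := abs_nonneg a
    linarith
  have h4 : 0 < (n : ℤ) ^ 2 + a := by nlinarith
  have h5 : (n : ℤ) ^ 2 + a = x * x := by
    have : (((n : ℤ) ^ 2 + a).natAbs : ℤ) = (x : ℤ) * x := by
      unfold NN at hx
      exact_mod_cast hx
    rwa [Int.natAbs_of_nonneg h4.le] at this
  have hx0 : (0 : ℤ) ≤ x := Int.natCast_nonneg x
  rcases lt_trichotomy (x : ℤ) n with h | h | h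
  · have : (x : ℤ) + 1 ≤ n := h
    nlinarith
  · rw [h] at h5
    apply ha0
    linarith
  · have : (n : ℤ) + 1 ≤ x := h
    nlinarith

open Classical in
/-- few `n` with a large square divisor -/
theorem few_sq (a : ℤ) (ha0 : a ≠ 0) (X H z W : ℕ) (hz : 3 ≤ z) (hza : a.natAbs < z) :
    (((Ioc X (X + H)).filter (fun n : ℕ => ∃ p : ℕ, p.Prime ∧ z ≤ p ∧ p ≤ W ∧ p * p ∣ NN a n)).card
      : ℝ) ≤ 4 * (H / z) + 2 * W := by
  classical
  have h1 : (Ioc X (X + H)).filter (fun n : ℕ => ∃ p : ℕ, p.Prime ∧ z ≤ p ∧ p ≤ W ∧ p * p ∣ NN a n) ⊆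
      ((Icc z W).filter Nat.Prime).biUnion (fun p =>
        (Ioc X (X + H)).filter (fun n : ℕ => p * p ∣ NN a n)) := by
    intro n hn
    rw [mem_filter] at hn
    obtain ⟨hn1, p, hp, h2, h3, h4⟩ := hn
    rw [mem_biUnion]
    exact ⟨p, mem_filter.2 ⟨mem_Icc.2 ⟨h2, h3⟩, hp⟩, mem_filter.2 ⟨hn1, h4⟩⟩
  have h2 : (((Ioc X (X + H)).filter (fun n : ℕ => ∃ p : ℕ, p.Prime ∧ z ≤ p ∧ p ≤ W ∧
      p * p ∣ NN a n)).card : ℝ) ≤ ∑ p ∈ (Icc z W).filter Nat.Prime,
        (((Ioc X (X + H)).filter (fun n : ℕ => p * p ∣ NN a n)).card : ℝ) := by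
    have := (card_le_card h1).trans card_biUnion_le
    exact_mod_cast this
  refine h2.trans ?_
  calc ∑ p ∈ (Icc z W).filter Nat.Prime,
        (((Ioc X (X + H)).filter (fun n : ℕ => p * p ∣ NN a n)).card : ℝ) ≤
      ∑ p ∈ (Icc z W).filter Nat.Prime, 2 * ((H : ℝ) / ((p : ℝ) ^ 2) + 1) := by
        apply sum_le_sum
        intro p hp
        rw [mem_filter, mem_Icc] at hp
        have hpa : ¬ (p : ℤ) ∣ a := by
          intro hd
          have h5 := Int.natAbs_dvd_natAbs.2 hd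
          rw [Int.natAbs_natCast] at h5
          have h6 := Nat.le_of_dvd (Int.natAbs_pos.2 ha0) h5
          omega
        have h3 := k_card_p2 a X H p hp.2 (by omega) hpa
        rw [← cI_nat2 a X H (p * p)]
        exact h3
    _ ≤ ∑ p ∈ Icc z W, 2 * ((H : ℝ) / ((p : ℝ) ^ 2) + 1) :=
        sum_le_sum_of_subset_of_nonneg (filter_subset _ _) (fun _ _ _ => by positivity)
    _ = 2 * H * (∑ p ∈ Icc z W, ((p : ℝ) ^ 2)⁻¹) + 2 * (Icc z W).card := by
        have e1 : (2 : ℝ) * ((Icc z W).card : ℝ) = ∑ p ∈ Icc z W, (2 : ℝ) := by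
          rw [sum_const, nsmul_eq_mul]
          ring
        rw [mul_sum, e1, ← sum_add_distrib]
        apply sum_congr rfl
        intro p _
        ring
    _ ≤ 2 * H * (2 / z) + 2 * W := by
        have h4 : ∑ p ∈ Icc z W, ((p : ℝ) ^ 2)⁻¹ ≤ 2 / z := by
          have h5 := sum_Ioo_inv_sq_le (α := ℝ) (z - 1) (W + 1)
          have h6 : Icc z W = Ioo (z - 1) (W + 1) := by
            ext p
            rw [mem_Icc, mem_Ioo]
            omega
          have h7 : (((z - 1 : ℕ) : ℝ) + 1) = z := by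
            have : z - 1 + 1 = z := by omega
            exact_mod_cast this
          rw [h7] at h5
          rw [h6]
          exact h5
        have h8 : ((Icc z W).card : ℝ) ≤ W := by
          rw [Nat.card_Icc]
          have : W + 1 - z ≤ W := by omega
          exact_mod_cast this
        have h9 : 2 * (H : ℝ) * (∑ p ∈ Icc z W, ((p : ℝ) ^ 2)⁻¹) ≤ 2 * H * (2 / z) :=
          mul_le_mul_of_nonneg_left h4 (by positivity)
        linarith
    _ = _ := by ring

/-- the local factor -/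
theorem V_low {a : ℤ} (hna : ¬ IsSquare (-a)) : ∃ c : ℝ, 0 < c ∧ ∀ X : ℕ, 3 ≤ X → ∀ ζ : ℝ,
    c / Real.log X ≤ ∏ p ∈ PZ (X ^ 2) ζ, (1 - gd a p) := by
  obtain ⟨c, hc, HL⟩ := lo_quad a hna
  refine ⟨c / 2, by positivity, ?_⟩
  intro X hX ζ
  have hXr : (3 : ℝ) ≤ X := by exact_mod_cast hX
  have hX0 : (0 : ℝ) < X := by linarith
  have hY3 : 3 ≤ X ^ 2 := by nlinarith
  have h6 := HL (X ^ 2) hY3
  have hlY : Real.log ((X ^ 2 : ℕ) : ℝ) = 2 * Real.log X := by
    push_cast
    rw [Real.log_pow]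
    norm_num
  rw [hlY] at h6
  have e0 : c / 2 / Real.log X = c / (2 * Real.log X) := by rw [div_div]
  rw [e0]
  refine h6.trans ?_
  unfold Pool.Agent.Y882.SI.lo
  have hsub2 : PZ (X ^ 2) ζ ⊆ (Icc 1 (X ^ 2)).filter Nat.Prime := by
    intro p hp
    unfold PZ at hp
    rw [mem_filter] at hp ⊢
    exact ⟨hp.1, hp.2.1⟩
  have hfac : ∀ p ∈ (Icc 1 (X ^ 2)).filter Nat.Prime, 0 ≤ 1 - gd a p ∧ 1 - gd a p ≤ 1 := by
    intro p hp
    have h7 := (gd_prime a p (mem_filter.1 hp).2).1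
    have h8 := gd_nonneg a p
    constructor <;> linarith
  have e1 : ∏ p ∈ (Icc 1 (X ^ 2)).filter Nat.Prime, (1 - (ro (QF a) 0 p : ℝ) / p) =
      ∏ p ∈ (Icc 1 (X ^ 2)).filter Nat.Prime, (1 - gd a p) := by
    apply prod_congr rfl
    intro p _
    rw [gd_ro]
  rw [e1, ← prod_sdiff hsub2]
  calc (∏ p ∈ (Icc 1 (X ^ 2)).filter Nat.Prime \ PZ (X ^ 2) ζ, (1 - gd a p)) *
        ∏ p ∈ PZ (X ^ 2) ζ, (1 - gd a p) ≤
      1 * ∏ p ∈ PZ (X ^ 2) ζ, (1 - gd a p) := by
        apply mul_le_mul_of_nonneg_right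
        · apply prod_le_one
          · intro p hp
            exact (hfac p (mem_sdiff.1 hp).1).1
          · intro p hp
            exact (hfac p (mem_sdiff.1 hp).1).2
        · exact prod_nonneg fun p hp => (hfac p (hsub2 hp)).1
    _ = _ := one_mul _

open Classical in
/-- **almost primes with at most two prime factors in short intervals** -/
theorem p2_short (kl : S_KL) {a : ℤ} (hna : ¬ IsSquare (-a)) : ∃ δ c : ℝ, 0 < δ ∧ 0 < c ∧ ∃ X0 : ℕ, ∀ X : ℕ, X0 ≤ X → ∀ H : ℕ,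
    (X : ℝ) ^ (1 - δ) ≤ H → H ≤ X → c * H / Real.log X ≤
      (((Ioc X (X + H)).filter (fun n : ℕ => (NN a n).primeFactorsList.length ≤ 2 ∧
        ∀ p : ℕ, p.Prime → p ∣ NN a n → (n : ℝ) ^ (23 / 100 : ℝ) ≤ p)).card : ℝ) := by
  have ha0 : a ≠ 0 := by
    rintro rfl
    exact hna ⟨0, by norm_num⟩
  obtain ⟨A0, F, f, hSF⟩ := Pool.Agent.W366.DC.SFX
  have hA0 := hSF.pos
  have hαβ : (49992 / 100000 : ℝ) + 416 / 10000 = pτ := by unfold pτ; norm_num
  have hζ0 : 0 < pζ := by unfold pζ; norm_num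
  have hτ0 : 0 < pτ := by unfold pτ; norm_num
  set fs : ℝ := f (pτ / pζ) - pζ * A0 * (∫ x in pζ..pυ, (pa - pb * x) * Phi pζ (pτ - x) / x) with hfs
  have hfs0 : 0 < fs := by
    have h1 := f_ge A0 F f hSF (pτ / pζ) (by unfold pτ pζ; norm_num) (by unfold pτ pζ; norm_num)
    have h2 := num
    have h3 : A0 * Real.log (pτ / pζ - 1) / (pτ / pζ) = pζ * A0 * (Real.log (pτ / pζ - 1) / pτ) := by
      field_simp
    rw [h3] at h1
    have h4 : pζ * A0 * (∫ x in pζ..pυ, (pa - pb * x) * Phi pζ (pτ - x) / x) <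
        pζ * A0 * (Real.log (pτ / pζ - 1) / pτ) := mul_lt_mul_of_pos_left h2 (by positivity)
    rw [hfs]
    linarith
  obtain ⟨δ1, hδ1, X1, HS⟩ := siS kl hna A0 F f hSF (49992 / 100000) (416 / 10000) pζ pυ pa pb (fs / 2)
    hζ0 ⟨12 / 100, by unfold pζ; norm_num⟩ (by unfold pζ; norm_num) (fun _ => by unfold pζ; norm_num)
    (by unfold pζ pυ; norm_num) (by unfold pυ; norm_num) (by norm_num) (by unfold pa; norm_num)
    (by unfold pb; norm_num) (by unfold pb pυ pa; norm_num) (by norm_num) (by norm_num)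
    (by positivity)
  rw [hαβ, ← hfs] at HS
  obtain ⟨c, hc, HV⟩ := V_low hna
  set δ : ℝ := min δ1 (1 / 10) with hδ
  have hδ0 : 0 < δ := lt_min hδ1 (by norm_num)
  have ev1 : ∀ᶠ X : ℕ in atTop, (60 / (fs * c)) * Real.log X ≤ (X : ℝ) ^ (1 / 50 : ℝ) := by
    have h1 : Tendsto (fun x : ℝ => Real.log x / x ^ (1 / 50 : ℝ)) atTop (nhds 0) := by
      have := isLittleO_log_rpow_atTop (show (0 : ℝ) < 1 / 50 by norm_num)
      exact this.tendsto_div_nhds_zero
    have h2 := h1.eventually_le_const (show (0 : ℝ) < 1 / (60 / (fs * c)) by positivity)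
    have h3 := tendsto_natCast_atTop_atTop.eventually (h2.and (eventually_gt_atTop (0 : ℝ)))
    filter_upwards [h3] with X hX
    obtain ⟨h4, h5⟩ := hX
    have h6 : (0 : ℝ) < (X : ℝ) ^ (1 / 50 : ℝ) := by positivity
    rw [div_le_div_iff₀ h6 (by positivity), one_mul] at h4
    linarith
  have ev2 : ∀ᶠ X : ℕ in atTop, pb * Real.log 5 / (3 * pa - pb - 1) ≤ Real.log X :=
    (Real.tendsto_log_atTop.comp tendsto_natCast_atTop_atTop).eventually_ge_atTop _
  have ev3 : ∀ᶠ X : ℕ in atTop, (3 : ℝ) ≤ (X : ℝ) ^ (2 * pζ) :=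
    tendsto_natCast_atTop_atTop.eventually
      ((tendsto_rpow_atTop (by positivity)).eventually_ge_atTop _)
  have ev4 : ∀ᶠ X : ℕ in atTop, (2 : ℝ) ≤ (X : ℝ) ^ (1 / 100 : ℝ) :=
    tendsto_natCast_atTop_atTop.eventually
      ((tendsto_rpow_atTop (by norm_num)).eventually_ge_atTop _)
  have ev5 : ∀ᶠ X : ℕ in atTop, (a.natAbs : ℝ) + 1 ≤ (X : ℝ) ^ (2 * pζ) :=
    tendsto_natCast_atTop_atTop.eventually
      ((tendsto_rpow_atTop (by positivity)).eventually_ge_atTop _)
  have ev6 : ∀ᶠ X : ℕ in atTop, a.natAbs + 1 ≤ X := eventually_ge_atTop _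
  obtain ⟨X2, hX2⟩ := eventually_atTop.1 (ev1.and (ev2.and (ev3.and (ev4.and (ev5.and ev6)))))
  refine ⟨δ, fs * c / 4, hδ0, by positivity, max (max X1 X2) 3, ?_⟩
  intro X hX H hH1 hH2
  have hX1 : X1 ≤ X := ((le_max_left _ _).trans (le_max_left _ _)).trans hX
  obtain ⟨e1, e2, e3, e4, e5, e6⟩ := hX2 X (((le_max_right _ _).trans (le_max_left _ _)).trans hX)
  have hX3 : 3 ≤ X := (le_max_right _ _).trans hX
  have hXr : (3 : ℝ) ≤ X := by exact_mod_cast hX3
  have hX0 : (0 : ℝ) < X := by linarith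
  have hX1r : (1 : ℝ) ≤ X := by linarith
  have hlX : 1 < Real.log X := by
    rw [Real.lt_log_iff_exp_lt hX0]
    linarith [Real.exp_one_lt_d9]
  have hHr : (0 : ℝ) ≤ H := Nat.cast_nonneg _
  have hH1' : (X : ℝ) ^ (1 - δ1) ≤ H := by
    refine le_trans ?_ hH1
    apply Real.rpow_le_rpow_of_exponent_le hX1r
    linarith [min_le_left δ1 (1 / 10)]
  have hH9 : (X : ℝ) ^ (9 / 10 : ℝ) ≤ H := by
    refine le_trans ?_ hH1
    apply Real.rpow_le_rpow_of_exponent_le hX1r
    linarith [min_le_right δ1 (1 / 10 : ℝ)]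
  have hS := (HS X hX1 H hH1' hH2).1
  have hV := HV X hX3 pζ
  set Y : ℕ := X ^ 2 with hY
  have hY2 : 2 ≤ Y := by nlinarith
  have hYr : (Y : ℝ) = (X : ℝ) ^ 2 := by
    rw [hY]
    push_cast
    rfl
  have hYp : ∀ x : ℝ, (Y : ℝ) ^ x = (X : ℝ) ^ (2 * x) := by
    intro x
    rw [hYr, ← Real.rpow_natCast, ← Real.rpow_mul hX0.le]
    norm_num
  have hlY : Real.log Y = 2 * Real.log X := by
    rw [hYr, Real.log_pow]
    norm_num
  have hlow : fs * c / 2 * (H / Real.log X) ≤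
      ∑ n ∈ Ioc X (X + H), WW Y pζ pυ pa pb (NN a n) := by
    refine le_trans ?_ hS
    calc fs * c / 2 * (H / Real.log X) = H * ((fs - fs / 2) * (c / Real.log X)) := by ring
      _ ≤ _ := by
          apply mul_le_mul_of_nonneg_left _ hHr
          apply mul_le_mul_of_nonneg_left hV
          linarith
  -- the bad numbers
  set z : ℕ := ⌈(X : ℝ) ^ (2 * pζ)⌉₊ with hz
  set W : ℕ := ⌊3 * (X : ℝ) ^ (1 - pζ)⌋₊ with hW
  have hz3 : 3 ≤ z := by
    have h1 : (3 : ℝ) ≤ z := e3.trans (Nat.le_ceil _)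
    exact_mod_cast h1
  have hza : a.natAbs < z := by
    have h1 : (a.natAbs : ℝ) + 1 ≤ z := e5.trans (Nat.le_ceil _)
    have h2 : a.natAbs + 1 ≤ z := by exact_mod_cast h1
    omega
  have hup : ∑ n ∈ Ioc X (X + H), WW Y pζ pυ pa pb (NN a n) ≤
      (((Ioc X (X + H)).filter (fun n : ℕ => (NN a n).primeFactorsList.length ≤ 2 ∧
        ∀ p : ℕ, p.Prime → p ∣ NN a n → (n : ℝ) ^ (23 / 100 : ℝ) ≤ p)).card : ℝ) +
      (((Ioc X (X + H)).filter (fun n : ℕ => ∃ p : ℕ, p.Prime ∧ z ≤ p ∧ p ≤ W ∧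
        p * p ∣ NN a n)).card : ℝ) := by
    rw [card_filter, card_filter]
    push_cast
    rw [← sum_add_distrib]
    apply sum_le_sum
    intro n hn
    rw [mem_Ioc] at hn
    by_cases hw : 0 < WW Y pζ pυ pa pb (NN a n)
    · have hN5 : NN a n ≤ 5 * Y := by
        rw [hY]
        exact NN_le a X n (by omega) (by omega)
      have hN0 : NN a n ≠ 0 := NN_ne hna n
      have h1le : WW Y pζ pυ pa pb (NN a n) ≤ 1 :=
        WW_le_one Y pζ pυ pa pb (by unfold pb; norm_num) (by unfold pb pυ pa; norm_num) _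
      by_cases hsq : Squarefree (NN a n)
      · have h2 : (NN a n).primeFactorsList.length ≤ 2 := by
          apply ww_two Y (NN a n) pζ pυ pa pb hY2 (by unfold pζ; norm_num) (by unfold pυ; norm_num)
            (by unfold pa; norm_num) (by unfold pa pb pυ; norm_num) (by unfold pb; norm_num) hN5
            hN0 _ hw hsq
          have h3 : 0 < 3 * pa - pb - 1 := by unfold pa pb; norm_num
          rw [div_le_iff₀ h3] at e2
          rw [hlY]
          nlinarith
        have h4 : ∀ p : ℕ, p.Prime → p ∣ NN a n → (n : ℝ) ^ (23 / 100 : ℝ) ≤ p := by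
          intro p hp hpn
          have h5 := (ww_rough Y (NN a n) pζ pυ pa pb hY2 (by unfold pζ; norm_num) hw p hp hpn).2
          refine le_trans ?_ h5
          rw [hYp]
          have h6 : (n : ℝ) ≤ 2 * X := by
            have : n ≤ 2 * X := by omega
            exact_mod_cast this
          calc (n : ℝ) ^ (23 / 100 : ℝ) ≤ (2 * (X : ℝ)) ^ (23 / 100 : ℝ) :=
                Real.rpow_le_rpow (Nat.cast_nonneg n) h6 (by norm_num)
            _ = (2 : ℝ) ^ (23 / 100 : ℝ) * (X : ℝ) ^ (23 / 100 : ℝ) := Real.mul_rpow (by norm_num) hX0.le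
            _ ≤ (2 : ℝ) ^ (1 : ℝ) * (X : ℝ) ^ (23 / 100 : ℝ) := by
                apply mul_le_mul_of_nonneg_right _ (by positivity)
                exact Real.rpow_le_rpow_of_exponent_le (by norm_num) (by norm_num)
            _ ≤ (X : ℝ) ^ (1 / 100 : ℝ) * (X : ℝ) ^ (23 / 100 : ℝ) := by
                rw [Real.rpow_one]
                exact mul_le_mul_of_nonneg_right e4 (by positivity)
            _ = (X : ℝ) ^ (2 * pζ) := by
                rw [← Real.rpow_add hX0]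
                congr 1
                unfold pζ
                norm_num
        rw [if_pos ⟨h2, h4⟩]
        split_ifs <;> linarith
      · have hns : ¬ IsSquare (NN a n) := NN_sq ha0 n (by omega)
        obtain ⟨p, hp, h3, h4, h5⟩ := ww_sq Y (NN a n) pζ pυ pa pb hY2 (by unfold pζ; norm_num)
          hN5 hns hw hsq
        have h6 : ∃ p : ℕ, p.Prime ∧ z ≤ p ∧ p ≤ W ∧ p * p ∣ NN a n := by
          refine ⟨p, hp, ?_, ?_, h5⟩
          · rw [hz]
            apply Nat.ceil_le.2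
            rw [← hYp]
            exact h3
          · rw [hW]
            apply Nat.le_floor
            have h7 : (p : ℝ) ^ 2 ≤ (3 * (X : ℝ) ^ (1 - pζ)) ^ 2 := by
              have h8 : 0 < (Y : ℝ) ^ pζ := by positivity
              have h9 : (p : ℝ) ^ 2 ≤ 5 * Y / (Y : ℝ) ^ pζ := by
                rw [le_div_iff₀ h8]
                exact h4
              refine h9.trans ?_
              rw [div_le_iff₀ h8, hYp, hYr, mul_pow, ← Real.rpow_natCast ((X : ℝ) ^ (1 - pζ)),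
                ← Real.rpow_mul hX0.le, mul_assoc, ← Real.rpow_add hX0]
              have h10 : (1 - pζ) * ((2 : ℕ) : ℝ) + 2 * pζ = ((2 : ℕ) : ℝ) := by
                push_cast
                ring
              rw [h10, Real.rpow_natCast]
              have : (0 : ℝ) < (X : ℝ) ^ 2 := by positivity
              linarith
            exact le_of_sq_le_sq h7 (by positivity)
        rw [if_pos h6]
        split_ifs <;> linarith
    · split_ifs <;> linarith [not_lt.1 hw]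
  have hbad := few_sq a ha0 X H z W hz3 hza
  have hlX0 : 0 < Real.log X := by linarith
  have hz1 : (X : ℝ) ^ (2 * pζ) ≤ z := Nat.le_ceil _
  have hW1 : (W : ℝ) ≤ 3 * (X : ℝ) ^ (1 - pζ) := Nat.floor_le (by positivity)
  have hb1 : (H : ℝ) / z ≤ H / (X : ℝ) ^ (1 / 50 : ℝ) := by
    apply div_le_div_of_nonneg_left hHr (by positivity)
    refine le_trans ?_ hz1
    apply Real.rpow_le_rpow_of_exponent_le hX1r
    unfold pζ
    norm_num
  have hb2 : (X : ℝ) ^ (1 - pζ) ≤ H / (X : ℝ) ^ (1 / 50 : ℝ) := by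
    rw [le_div_iff₀ (by positivity), ← Real.rpow_add hX0]
    refine le_trans ?_ hH9
    apply Real.rpow_le_rpow_of_exponent_le hX1r
    unfold pζ
    norm_num
  have hb3 : (H : ℝ) / (X : ℝ) ^ (1 / 50 : ℝ) ≤ fs * c / 60 * (H / Real.log X) := by
    rw [div_le_iff₀ (by positivity)]
    calc (H : ℝ) = (fs * c / 60 * (H / Real.log X)) * ((60 / (fs * c)) * Real.log X) := by
          field_simp
      _ ≤ _ := mul_le_mul_of_nonneg_left e1 (by positivity)
  have hfc : fs * c / 4 * H / Real.log X = fs * c / 4 * (H / Real.log X) := by ring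
  rw [hfc]
  linarith

end Pool.Agent.H543.DG
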