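import Pool.Agent.H543.DG.Si
import Pool.Graph.R_seed8.Y882.JR.Lim
import Pool.Graph.R_seed8.Y781.JR.Dens

/-!
# The linear sieve for `n ^ 2 + a` in short intervals beyond level one
-/

set_option autoImplicit false

namespace Pool.Agent.H543.DG

open Finset Filter Topology
open Pool.Agent.W23.DC
open Pool.Agent.Y882
open Pool.Agent.Y882.KW
open Pool.Agent.Y882.SI
open Pool.Agent.Y882.JR
open Pool.Agent.Y882.PX (ro)
open Pool.Agent.Y346.PA (S_KL)
open Pool.Agent.H543.DD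

theorem sq_rpow (X : ℕ) (x : ℝ) : (((X ^ 2 : ℕ) : ℝ)) ^ x = (X : ℝ) ^ (2 * x) := by
  push_cast
  rw [← Real.rpow_natCast, ← Real.rpow_mul (Nat.cast_nonneg X)]
  norm_num

theorem dens_gd (a : ℤ) (X : ℕ) (hX : 2 ≤ X) (ζ : ℝ) (hζ : ζ ≤ 1) :
    ∏ p ∈ PZ (X ^ 2) ζ, (1 - gd a p) = dens a ((X : ℝ) ^ (2 * ζ)) := by
  have hY : 2 ≤ X ^ 2 := by nlinarith
  unfold JR.dens
  rw [← sq_rpow, ← PZ_eq (X ^ 2) hY ζ hζ]
  apply prod_congr rfl
  intro p _
  rw [Pool.Agent.Y781.JR.rho_eq, gd_ro]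

open Classical in
theorem rough_nat (a : ℤ) (X : ℕ) (hX : 2 ≤ X) (ζ : ℝ) (hζ : ζ ≤ 1) (H : ℕ) :
    (rough a ((X : ℝ) ^ (2 * ζ)) X H : ℝ) =
      (((Ioc X (X + H)).filter (fun n => ∀ p ∈ PZ (X ^ 2) ζ, ¬ p ∣ NN a n)).card : ℝ) := by
  have hY : 2 ≤ X ^ 2 := by nlinarith
  unfold rough
  congr 2
  ext n
  simp only [mem_filter]
  apply and_congr_right
  intro _
  rw [PZ_eq (X ^ 2) hY ζ hζ, sq_rpow]
  constructor
  · intro h p hp hd
    rw [mem_filter, mem_range] at hp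
    have h2 := h p hp.2 ((dvd_NN a n p).1 hd)
    exact absurd (Nat.lt_ceil.1 hp.1) (not_lt.2 h2)
  · intro h p hp hd
    by_contra hlt
    push Not at hlt
    refine h p ?_ ?_
    · rw [mem_filter, mem_range]
      exact ⟨Nat.lt_ceil.2 hlt, hp⟩
    · exact (dvd_NN a n p).2 hd

theorem rough_anti (a : ℤ) (z z' : ℝ) (h : z ≤ z') (X H : ℕ) : rough a z' X H ≤ rough a z X H := by
  classical
  unfold rough
  apply card_le_card
  intro n hn
  rw [mem_filter] at hn ⊢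
  exact ⟨hn.1, fun p hp hd => h.trans (hn.2 p hp hd)⟩

theorem dens_nonneg (a : ℤ) (z : ℝ) : 0 ≤ dens a z := by
  unfold JR.dens
  apply prod_nonneg
  intro p hp
  have hpp := (mem_filter.1 hp).2
  rw [Pool.Agent.Y781.JR.rho_eq, ← gd_ro]
  linarith [(gd_prime a p hpp).1]

/-- the linear sieve, rational parameters -/
theorem lin_q (kl : S_KL) {a : ℤ} (hna : ¬ IsSquare (-a)) (A0 : ℝ) (F f : ℝ → ℝ) (hSF : SF A0 F f) (τ : ℝ)
    (hτ : τ < 13 / 24) (q : ℚ) (hq : (0 : ℝ) < q) (h2 : 2 * (q : ℝ) < τ) (ε : ℝ) (hε : 0 < ε) :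
    ∃ δ : ℝ, 0 < δ ∧ ∀ᶠ X : ℕ in atTop, ∀ H : ℕ, (X : ℝ) ^ (1 - δ) ≤ H → H ≤ X →
      (f (τ / q) - ε) * (H * dens a ((X : ℝ) ^ (2 * (q : ℝ)))) ≤ rough a ((X : ℝ) ^ (2 * (q : ℝ))) X H ∧
      (rough a ((X : ℝ) ^ (2 * (q : ℝ))) X H : ℝ) ≤
        (F (τ / q) + ε) * (H * dens a ((X : ℝ) ^ (2 * (q : ℝ)))) := by
  classical
  obtain ⟨β, hβ1, hβ2⟩ := exists_between (show max 0 (τ - 1 / 2) < min (1 / 24) (τ - q) from
    max_lt (lt_min (by norm_num) (by linarith)) (lt_min (by linarith) (by linarith)))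
  have b1 : 0 < β := lt_of_le_of_lt (le_max_left _ _) hβ1
  have b2 : τ - 1 / 2 < β := lt_of_le_of_lt (le_max_right _ _) hβ1
  have b3 : β < 1 / 24 := lt_of_lt_of_le hβ2 (min_le_left _ _)
  have b4 : β < τ - q := lt_of_lt_of_le hβ2 (min_le_right _ _)
  set α : ℝ := τ - β with hα
  have hαβ : α + β = τ := by rw [hα]; ring
  obtain ⟨δ, hδ, X0, HS⟩ := siS kl hna A0 F f hSF α β q q 0 0 ε hq ⟨q, rfl⟩ (by linarith)
    (fun h => absurd h (lt_irrefl _)) le_rfl (by linarith) (by linarith) le_rfl le_rfl (by simp)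
    (by linarith) (by linarith) hε
  rw [hαβ] at HS
  refine ⟨δ, hδ, ?_⟩
  filter_upwards [eventually_ge_atTop X0, eventually_ge_atTop 2] with X hX hX2
  intro H hH1 hH2
  obtain ⟨h3, h4⟩ := HS X hX H hH1 hH2
  rw [dens_gd a X hX2 q (by linarith)] at h3 h4
  rw [rough_nat a X hX2 q (by linarith)]
  constructor
  · have h5 : ∑ n ∈ Ioc X (X + H), WW (X ^ 2) q q 0 0 (NN a n) =
        (((Ioc X (X + H)).filter (fun n => ∀ p ∈ PZ (X ^ 2) q, ¬ p ∣ NN a n)).card : ℝ) := by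
      rw [card_filter]
      push_cast
      apply sum_congr rfl
      intro n _
      unfold WW
      simp
    rw [h5, intervalIntegral.integral_same, mul_zero, sub_zero] at h3
    refine le_trans (le_of_eq ?_) h3
    ring
  · refine le_trans (le_trans (le_of_eq ?_) h4) (le_of_eq (by ring))
    congr

/-- the ratio of two densities -/
theorem dens_ratio {a : ℤ} (hna : ¬ IsSquare (-a)) (ζ ζ1 ε : ℝ) (hζ : 0 < ζ) (hζ1 : 0 < ζ1) (hε : 0 < ε) :
    ∀ᶠ X : ℕ in atTop, dens a ((X : ℝ) ^ (2 * ζ1)) ≤ (ζ / ζ1 + ε) * dens a ((X : ℝ) ^ (2 * ζ)) ∧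
      (ζ / ζ1 - ε) * dens a ((X : ℝ) ^ (2 * ζ)) ≤ dens a ((X : ℝ) ^ (2 * ζ1)) := by
  obtain ⟨C, hC0, -, hC⟩ := Pool.Agent.Y781.JR.t a hna
  set E : ℝ := Real.exp (-Real.eulerMascheroniConstant) with hE
  have hE0 : 0 < E := Real.exp_pos _
  have hK : 0 < C * E := by positivity
  have hlim : ∀ x : ℝ, 0 < x → Tendsto (fun X : ℕ => dens a ((X : ℝ) ^ (2 * x)) * Real.log X) atTop
      (𝓝 (C * E / (2 * x))) := by
    intro x hx
    have h1 : Tendsto (fun X : ℕ => ((X : ℝ) ^ (2 * x))) atTop atTop :=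
      (tendsto_rpow_atTop (by linarith)).comp tendsto_natCast_atTop_atTop
    have h2 := (hC.comp h1).div_const (2 * x)
    apply h2.congr'
    filter_upwards [eventually_gt_atTop 0] with X hX
    have hX0 : (0 : ℝ) < X := by exact_mod_cast hX
    show dens a ((X : ℝ) ^ (2 * x)) * Real.log ((X : ℝ) ^ (2 * x)) / (2 * x) = _
    rw [Real.log_rpow hX0]
    field_simp
  have hr : Tendsto (fun X : ℕ => dens a ((X : ℝ) ^ (2 * ζ1)) * Real.log X /
      (dens a ((X : ℝ) ^ (2 * ζ)) * Real.log X)) atTop (𝓝 (ζ / ζ1)) := by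
    have h1 := (hlim ζ1 hζ1).div (hlim ζ hζ) (by positivity)
    have h2 : C * E / (2 * ζ1) / (C * E / (2 * ζ)) = ζ / ζ1 := by field_simp
    rw [h2] at h1
    exact h1
  have e1 := hr.eventually (ge_mem_nhds (show ζ / ζ1 < ζ / ζ1 + ε by linarith))
  have e2 := hr.eventually (le_mem_nhds (show ζ / ζ1 - ε < ζ / ζ1 by linarith))
  have e3 := (hlim ζ hζ).eventually (lt_mem_nhds (show (0 : ℝ) < C * E / (2 * ζ) by positivity))
  filter_upwards [e1, e2, e3] with X h1 h2 h3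
  have hlX : Real.log X ≠ 0 := by
    intro h
    rw [h, mul_zero] at h3
    exact lt_irrefl _ h3
  have hd : 0 < dens a ((X : ℝ) ^ (2 * ζ)) := by
    rcases (dens_nonneg a ((X : ℝ) ^ (2 * ζ))).lt_or_eq with h | h
    · exact h
    · rw [← h, zero_mul] at h3
      exact absurd h3 (lt_irrefl _)
  rw [mul_div_mul_right _ _ hlX] at h1 h2
  rw [div_le_iff₀ hd] at h1
  rw [le_div_iff₀ hd] at h2
  exact ⟨h1, h2⟩

theorem eps_up (a b t : ℝ) (h : a * b < t) : ∃ ε : ℝ, 0 < ε ∧ (a + ε) * (b + ε) ≤ t := by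
  have hcont : Tendsto (fun x : ℝ => (a + x) * (b + x)) (nhdsWithin 0 (Set.Ioi 0))
      (nhds ((a + 0) * (b + 0))) := by
    apply Tendsto.mono_left _ nhdsWithin_le_nhds
    exact (Continuous.tendsto (by fun_prop) 0)
  have h1 : (a + 0) * (b + 0) < t := by simpa using h
  obtain ⟨x, h3, h4⟩ := ((hcont.eventually (gt_mem_nhds h1)).and self_mem_nhdsWithin).exists
  exact ⟨x, h4, h3.le⟩

theorem eps_dn (a b t : ℝ) (ha : 0 < a) (hb : 0 < b) (h : t < a * b) :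
    ∃ ε : ℝ, 0 < ε ∧ ε ≤ a ∧ ε ≤ b ∧ t ≤ (a - ε) * (b - ε) := by
  have hcont : Tendsto (fun x : ℝ => (a - x) * (b - x)) (nhdsWithin 0 (Set.Ioi 0))
      (nhds ((a - 0) * (b - 0))) := by
    apply Tendsto.mono_left _ nhdsWithin_le_nhds
    exact (Continuous.tendsto (by fun_prop) 0)
  have h1 : t < (a - 0) * (b - 0) := by simpa using h
  have e1 : ∀ᶠ x : ℝ in nhdsWithin 0 (Set.Ioi 0), x < a := by
    apply Filter.Eventually.filter_mono nhdsWithin_le_nhds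
    exact gt_mem_nhds ha
  have e2 : ∀ᶠ x : ℝ in nhdsWithin 0 (Set.Ioi 0), x < b := by
    apply Filter.Eventually.filter_mono nhdsWithin_le_nhds
    exact gt_mem_nhds hb
  obtain ⟨x, h3, h4, h5, h6⟩ := ((hcont.eventually (lt_mem_nhds h1)).and
    (e1.and (e2.and self_mem_nhdsWithin))).exists
  exact ⟨x, h6, h4.le, h5.le, h3.le⟩

/-- **the linear sieve for `n ^ 2 + a` in short intervals**, `s > 2` -/
theorem lin_big (kl : S_KL) {a : ℤ} (hna : ¬ IsSquare (-a)) (A0 : ℝ) (F f : ℝ → ℝ) (hSF : SF A0 F f) (θ s : ℝ) (hθ1 : 0 < θ)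
    (hθ : θ < 13 / 12) (hs : 2 < s) (ε : ℝ) (hε : 0 < ε) :
    ∃ δ : ℝ, 0 < δ ∧ ∀ᶠ X : ℕ in atTop, ∀ H : ℕ, (X : ℝ) ^ (1 - δ) ≤ H → H ≤ X →
      (f s - ε) * (H * dens a ((X : ℝ) ^ (θ / s))) ≤ rough a ((X : ℝ) ^ (θ / s)) X H ∧
      (rough a ((X : ℝ) ^ (θ / s)) X H : ℝ) ≤ (F s + ε) * (H * dens a ((X : ℝ) ^ (θ / s))) := by
  set τ : ℝ := θ / 2 with hτ
  have hτ0 : 0 < τ := by linarith
  set ζ : ℝ := τ / s with hζ
  have hs0 : 0 < s := by linarith
  have hζ0 : 0 < ζ := by positivity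
  have hζ2 : 2 * ζ < τ := by
    rw [hζ, ← mul_div_assoc, div_lt_iff₀ hs0]
    nlinarith
  have hsζ : τ / ζ = s := by rw [hζ]; field_simp
  have e0 : θ / s = 2 * ζ := by rw [hζ, hτ]; ring
  rw [e0]
  have hs1 : 1 < τ / ζ := by rw [hsζ]; linarith
  -- continuity
  have hc : ∀ G : ℝ → ℝ, ContinuousOn G (Set.Ici 1) → ContinuousAt (fun x => G (τ / x) * (ζ / x)) ζ := by
    intro G hG
    have h3 : ContinuousAt G (τ / ζ) := hG.continuousAt (Ici_mem_nhds hs1)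
    have h4 : ContinuousAt (fun x => G (τ / x)) ζ := by
      apply ContinuousAt.comp (g := G) (f := fun x => τ / x) h3
      exact continuousAt_const.div continuousAt_id hζ0.ne'
    exact h4.mul (continuousAt_const.div continuousAt_id hζ0.ne')
  have hcF := hc F hSF.cF
  have hcf := hc f hSF.cf
  -- upper bound
  have hup : ∃ δ : ℝ, 0 < δ ∧ ∀ᶠ X : ℕ in atTop, ∀ H : ℕ, (X : ℝ) ^ (1 - δ) ≤ H → H ≤ X →
      (rough a ((X : ℝ) ^ (2 * ζ)) X H : ℝ) ≤ (F s + ε) * (H * dens a ((X : ℝ) ^ (2 * ζ))) := by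
    have h1 : ∀ᶠ x in 𝓝 ζ, F (τ / x) * (ζ / x) < F s + ε := by
      have h0 : F (τ / ζ) * (ζ / ζ) < F s + ε := by
        rw [hsζ, div_self hζ0.ne', mul_one]
        linarith
      exact hcF.eventually (gt_mem_nhds h0)
    obtain ⟨r, hr, h2⟩ := Metric.eventually_nhds_iff.1 h1
    obtain ⟨q, hq1, hq2⟩ := exists_rat_btwn (show max (ζ - r) 0 < ζ from max_lt (by linarith) hζ0)
    have hq0 : (0 : ℝ) < q := lt_of_le_of_lt (le_max_right _ _) hq1
    have hqr : ζ - r < (q : ℝ) := lt_of_le_of_lt (le_max_left _ _) hq1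
    have h3 := h2 (y := (q : ℝ)) (by rw [Real.dist_eq, abs_lt]; constructor <;> linarith)
    obtain ⟨e, he, he2⟩ := eps_up _ _ _ h3
    obtain ⟨δ, hδ, h4⟩ := lin_q kl hna A0 F f hSF τ (by linarith) q hq0 (by linarith) e he
    refine ⟨δ, hδ, ?_⟩
    filter_upwards [h4, dens_ratio hna ζ q e hζ0 hq0 he, eventually_ge_atTop 1] with X h5 h6 h7
    intro H hH1 hH2
    have hX1 : (1 : ℝ) ≤ X := by exact_mod_cast h7
    have h8 := (h5 H hH1 hH2).2
    have h9 : rough a ((X : ℝ) ^ (2 * ζ)) X H ≤ rough a ((X : ℝ) ^ (2 * (q : ℝ))) X H :=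
      rough_anti a _ _ (Real.rpow_le_rpow_of_exponent_le hX1 (by linarith)) X H
    have h10 : (rough a ((X : ℝ) ^ (2 * ζ)) X H : ℝ) ≤ rough a ((X : ℝ) ^ (2 * (q : ℝ))) X H := by
      exact_mod_cast h9
    have hF0 : 0 ≤ F (τ / q) + e := by
      have := hSF.F1 (τ / q) (by rw [le_div_iff₀ hq0]; linarith)
      linarith
    have hH0 : (0 : ℝ) ≤ H := Nat.cast_nonneg _
    have hd0 := dens_nonneg a ((X : ℝ) ^ (2 * ζ))
    calc (rough a ((X : ℝ) ^ (2 * ζ)) X H : ℝ) ≤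
        (F (τ / q) + e) * (H * dens a ((X : ℝ) ^ (2 * (q : ℝ)))) := h10.trans h8
      _ ≤ (F (τ / q) + e) * (H * ((ζ / q + e) * dens a ((X : ℝ) ^ (2 * ζ)))) := by
          apply mul_le_mul_of_nonneg_left _ hF0
          exact mul_le_mul_of_nonneg_left h6.1 hH0
      _ = (F (τ / q) + e) * (ζ / q + e) * (H * dens a ((X : ℝ) ^ (2 * ζ))) := by ring
      _ ≤ _ := mul_le_mul_of_nonneg_right he2 (by positivity)
  have hdn : ∃ δ : ℝ, 0 < δ ∧ ∀ᶠ X : ℕ in atTop, ∀ H : ℕ, (X : ℝ) ^ (1 - δ) ≤ H → H ≤ X →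
      (f s - ε) * (H * dens a ((X : ℝ) ^ (2 * ζ))) ≤ rough a ((X : ℝ) ^ (2 * ζ)) X H := by
    by_cases hf0 : f s ≤ ε
    · refine ⟨1, one_pos, Eventually.of_forall fun X H _ _ => ?_⟩
      have hd0 := dens_nonneg a ((X : ℝ) ^ (2 * ζ))
      refine le_trans ?_ (Nat.cast_nonneg _)
      apply mul_nonpos_of_nonpos_of_nonneg (by linarith)
      positivity
    · push Not at hf0
      have h1 : ∀ᶠ x in 𝓝 ζ, f s - ε < f (τ / x) * (ζ / x) := by
        have h0 : f s - ε < f (τ / ζ) * (ζ / ζ) := by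
          rw [hsζ, div_self hζ0.ne', mul_one]
          linarith
        exact hcf.eventually (lt_mem_nhds h0)
      obtain ⟨r, hr, h2⟩ := Metric.eventually_nhds_iff.1 h1
      obtain ⟨q, hq1, hq2⟩ := exists_rat_btwn (show ζ < min (ζ + r) (τ / 2) from
        lt_min (by linarith) (by linarith))
      have hq0 : (0 : ℝ) < q := hζ0.trans hq1
      have hqr : (q : ℝ) < ζ + r := lt_of_lt_of_le hq2 (min_le_left _ _)
      have hqτ : (q : ℝ) < τ / 2 := lt_of_lt_of_le hq2 (min_le_right _ _)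
      have h3 := h2 (y := (q : ℝ)) (by rw [Real.dist_eq, abs_lt]; constructor <;> linarith)
      have hr0 : 0 < ζ / q := by positivity
      have hfq : 0 < f (τ / q) := by
        by_contra hc0
        push Not at hc0
        have : f (τ / q) * (ζ / q) ≤ 0 := mul_nonpos_of_nonpos_of_nonneg hc0 hr0.le
        linarith
      obtain ⟨e, he, he1, he2, he3⟩ := eps_dn _ _ _ hfq hr0 h3
      obtain ⟨δ, hδ, h4⟩ := lin_q kl hna A0 F f hSF τ (by linarith) q hq0 (by linarith) e he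
      refine ⟨δ, hδ, ?_⟩
      filter_upwards [h4, dens_ratio hna ζ q e hζ0 hq0 he, eventually_ge_atTop 1] with X h5 h6 h7
      intro H hH1 hH2
      have hX1 : (1 : ℝ) ≤ X := by exact_mod_cast h7
      have h8 := (h5 H hH1 hH2).1
      have h9 : rough a ((X : ℝ) ^ (2 * (q : ℝ))) X H ≤ rough a ((X : ℝ) ^ (2 * ζ)) X H :=
        rough_anti a _ _ (Real.rpow_le_rpow_of_exponent_le hX1 (by linarith)) X H
      have h10 : (rough a ((X : ℝ) ^ (2 * (q : ℝ))) X H : ℝ) ≤ rough a ((X : ℝ) ^ (2 * ζ)) X H := by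
        exact_mod_cast h9
      have hH0 : (0 : ℝ) ≤ H := Nat.cast_nonneg _
      have hd0 := dens_nonneg a ((X : ℝ) ^ (2 * ζ))
      calc (f s - ε) * (H * dens a ((X : ℝ) ^ (2 * ζ))) ≤
          (f (τ / q) - e) * (ζ / q - e) * (H * dens a ((X : ℝ) ^ (2 * ζ))) :=
            mul_le_mul_of_nonneg_right he3 (by positivity)
        _ = (f (τ / q) - e) * (H * ((ζ / q - e) * dens a ((X : ℝ) ^ (2 * ζ)))) := by ring
        _ ≤ (f (τ / q) - e) * (H * dens a ((X : ℝ) ^ (2 * (q : ℝ)))) := by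
            apply mul_le_mul_of_nonneg_left _ (by linarith)
            exact mul_le_mul_of_nonneg_left h6.2 hH0
        _ ≤ _ := h8.trans h10
  obtain ⟨δ1, hδ1, hU⟩ := hup
  obtain ⟨δ2, hδ2, hD⟩ := hdn
  refine ⟨min δ1 δ2, lt_min hδ1 hδ2, ?_⟩
  filter_upwards [hU, hD, eventually_ge_atTop 1] with X h1 h2 h3
  intro H hH1 hH2
  have hX1 : (1 : ℝ) ≤ X := by exact_mod_cast h3
  exact ⟨h2 H ((Real.rpow_le_rpow_of_exponent_le hX1 (by linarith [min_le_right δ1 δ2])).trans hH1) hH2,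
    h1 H ((Real.rpow_le_rpow_of_exponent_le hX1 (by linarith [min_le_left δ1 δ2])).trans hH1) hH2⟩

/-- **the linear sieve for `n ^ 2 + a` in short intervals** -/
theorem lin_all (kl : S_KL) {a : ℤ} (hna : ¬ IsSquare (-a)) (A0 : ℝ) (F f : ℝ → ℝ) (hSF : SF A0 F f) (θ s : ℝ) (hθ1 : 0 < θ)
    (hθ : θ < 13 / 12) (hs : 1 ≤ s) (ε : ℝ) (hε : 0 < ε) :
    ∃ δ : ℝ, 0 < δ ∧ ∀ᶠ X : ℕ in atTop, ∀ H : ℕ, (X : ℝ) ^ (1 - δ) ≤ H → H ≤ X →
      (f s - ε) * (H * dens a ((X : ℝ) ^ (θ / s))) ≤ rough a ((X : ℝ) ^ (θ / s)) X H ∧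
      (rough a ((X : ℝ) ^ (θ / s)) X H : ℝ) ≤ (F s + ε) * (H * dens a ((X : ℝ) ^ (θ / s))) := by
  rcases lt_or_ge 2 s with h | h
  · exact lin_big kl hna A0 F f hSF θ s hθ1 hθ h ε hε
  · -- reduce to `s = 3`
    have hs0 : 0 < s := by linarith
    have h3 : F 3 * (3 / s) = F s := by
      rw [hSF.F3 3 (by norm_num) le_rfl, hSF.F3 s hs (by linarith)]
      field_simp
    obtain ⟨e, he, he2⟩ := eps_up (F 3) (3 / s) (F s + ε) (by rw [h3]; linarith)
    obtain ⟨δ, hδ, h4⟩ := lin_big kl hna A0 F f hSF θ 3 hθ1 hθ (by norm_num) e he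
    have hr := dens_ratio hna (θ / (2 * s)) (θ / 6) e (by positivity) (by positivity) he
    have e1 : θ / (2 * s) / (θ / 6) = 3 / s := by field_simp; norm_num
    have e2 : 2 * (θ / (2 * s)) = θ / s := by field_simp
    have e3 : 2 * (θ / 6) = θ / 3 := by ring
    rw [e1, e2, e3] at hr
    refine ⟨δ, hδ, ?_⟩
    filter_upwards [h4, hr, eventually_ge_atTop 1] with X h5 h6 h7
    intro H hH1 hH2
    have hX1 : (1 : ℝ) ≤ X := by exact_mod_cast h7
    have hH0 : (0 : ℝ) ≤ H := Nat.cast_nonneg _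
    have hd0 := dens_nonneg a ((X : ℝ) ^ (θ / s))
    constructor
    · rw [hSF.f2 s hs h]
      refine le_trans ?_ (Nat.cast_nonneg _)
      apply mul_nonpos_of_nonpos_of_nonneg (by linarith)
      positivity
    · have h8 := (h5 H hH1 hH2).2
      have h9 : rough a ((X : ℝ) ^ (θ / s)) X H ≤ rough a ((X : ℝ) ^ (θ / 3)) X H :=
        rough_anti a _ _ (Real.rpow_le_rpow_of_exponent_le hX1
          (div_le_div_of_nonneg_left (by linarith) hs0 (by linarith))) X H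
      have h10 : (rough a ((X : ℝ) ^ (θ / s)) X H : ℝ) ≤ rough a ((X : ℝ) ^ (θ / 3)) X H := by
        exact_mod_cast h9
      have hF0 : 0 ≤ F 3 + e := by
        have := hSF.F1 3 (by norm_num)
        linarith
      calc (rough a ((X : ℝ) ^ (θ / s)) X H : ℝ) ≤
          (F 3 + e) * (H * dens a ((X : ℝ) ^ (θ / 3))) := h10.trans h8
        _ ≤ (F 3 + e) * (H * ((3 / s + e) * dens a ((X : ℝ) ^ (θ / s)))) := by
            apply mul_le_mul_of_nonneg_left _ hF0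
            exact mul_le_mul_of_nonneg_left h6.1 hH0
        _ = (F 3 + e) * (3 / s + e) * (H * dens a ((X : ℝ) ^ (θ / s))) := by ring
        _ ≤ _ := mul_le_mul_of_nonneg_right he2 (by positivity)

end Pool.Agent.H543.DG
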