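import Pool.Agent.H543.DG.Fin2

/-!
# The linear sieve for `n ^ 2 + a` in short intervals beyond level one: consequences
-/

set_option autoImplicit false

namespace Pool.Agent.H543.DG

open Finset Filter Topology
open Pool.Agent.W23.DC
open Pool.Agent.Y882
open Pool.Agent.Y882.KW
open Pool.Agent.Y882.SI
open Pool.Agent.Y882.JR
open Pool.Agent.Y882.PX (ro)
open Pool.Agent.Y346.PA (S_KL)
open Pool.Agent.H543.DD

/-- primes are rough -/
theorem prime_rough (a : ℤ) (X H : ℕ) (hX : a.natAbs ≤ X) (z : ℝ) (hz : z ≤ (X : ℝ) ^ 2) :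
    ((Ioc X (X + H)).filter (fun n => (NN a n).Prime)).card ≤ rough a z X H := by
  unfold rough
  refine card_le_card fun n hn => ?_
  simp only [mem_filter, mem_Ioc] at hn ⊢
  refine ⟨hn.1, ?_⟩
  intro p hp hd
  have h11 : p ∣ NN a n := (dvd_NN a n p).2 hd
  have h12 : p = NN a n := (Nat.prime_dvd_prime_iff_eq hp hn.2).1 h11
  have h13 : (X : ℤ) + 1 ≤ n := by exact_mod_cast hn.1.1
  have h1 : |a| ≤ X := by
    rw [Int.abs_eq_natAbs]
    exact_mod_cast hX
  have h2 := neg_abs_le a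
  have h14 : (X : ℤ) ^ 2 ≤ (n : ℤ) ^ 2 + a := by nlinarith
  have h15 : (X : ℤ) ^ 2 ≤ (NN a n : ℤ) := by
    unfold NN
    exact h14.trans Int.le_natAbs
  have h16 : (X : ℝ) ^ 2 ≤ (p : ℝ) := by
    rw [h12]
    exact_mod_cast h15
  linarith

theorem eps_pr (a b c ε : ℝ) (hε : 0 < ε) (h : a * b * (12 / 13) = c) :
    ∃ e : ℝ, 0 < e ∧ e < 1 / 24 ∧ (a + e) * (b + e) / (13 / 12 - e) ≤ c + ε := by
  have hcont : Tendsto (fun x : ℝ => (a + x) * (b + x) / (13 / 12 - x))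
      (nhdsWithin 0 (Set.Ioi 0)) (nhds ((a + 0) * (b + 0) / (13 / 12 - 0))) := by
    apply Tendsto.mono_left _ nhdsWithin_le_nhds
    have h1 : ContinuousAt (fun x : ℝ => (a + x) * (b + x) / (13 / 12 - x)) 0 := by
      apply ContinuousAt.div
      · exact (by fun_prop : Continuous fun x : ℝ => (a + x) * (b + x)).continuousAt
      · exact (by fun_prop : Continuous fun x : ℝ => 13 / 12 - x).continuousAt
      · norm_num
    exact h1
  have h1 : (a + 0) * (b + 0) / (13 / 12 - 0) < c + ε := by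
    have : (a + 0) * (b + 0) / (13 / 12 - 0) = a * b * (12 / 13) := by ring
    rw [this, h]
    linarith
  have e1 : ∀ᶠ x : ℝ in nhdsWithin 0 (Set.Ioi 0), x < 1 / 24 := by
    apply Filter.Eventually.filter_mono nhdsWithin_le_nhds
    exact gt_mem_nhds (by norm_num)
  obtain ⟨x, h3, h4, h5⟩ := ((hcont.eventually (gt_mem_nhds h1)).and
    (e1.and self_mem_nhdsWithin)).exists
  exact ⟨x, h5, h4, h3.le⟩

/-- primes -/
theorem prime_up (kl : S_KL) {a : ℤ} (hna : ¬ IsSquare (-a)) (A0 : ℝ) (F f : ℝ → ℝ) (hSF : SF A0 F f)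
    (hA : A0 = 2 * Real.exp Real.eulerMascheroniConstant) (C : ℝ) (hC0 : 0 < C)
    (hC : Tendsto (fun z : ℝ => JR.dens a z * Real.log z) atTop
      (𝓝 (C * Real.exp (-Real.eulerMascheroniConstant)))) (ε : ℝ) (hε : 0 < ε) :
    ∃ δ : ℝ, 0 < δ ∧ ∀ᶠ X : ℕ in atTop, ∀ H : ℕ, (X : ℝ) ^ (1 - δ) ≤ H → H ≤ X →
      (((Ioc X (X + H)).filter (fun n => (NN a n).Prime)).card : ℝ) ≤
        (24 / 13 * C + ε) * (H / Real.log X) := by
  obtain ⟨E, hE⟩ : ∃ E : ℝ, E = Real.exp (-Real.eulerMascheroniConstant) := ⟨_, rfl⟩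
  have hE0 : 0 < E := by rw [hE]; exact Real.exp_pos _
  have hA0 := hSF.pos
  have hAE : A0 * E = 2 := by
    rw [hA, hE, mul_assoc, ← Real.exp_add]
    simp
  rw [← hE] at hC
  have hF1 : F 1 = A0 := by
    rw [hSF.F3 1 le_rfl (by norm_num), div_one]
  obtain ⟨e, he0, he1, he⟩ := eps_pr A0 (C * E) (24 / 13 * C) ε hε (by
    have : A0 * (C * E) * (12 / 13) = (A0 * E) * C * (12 / 13) := by ring
    rw [this, hAE]
    ring)
  obtain ⟨θ, hθ⟩ : ∃ θ : ℝ, θ = 13 / 12 - e := ⟨_, rfl⟩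
  rw [← hθ] at he
  have hθ0 : 0 < θ := by rw [hθ]; linarith
  obtain ⟨δ, hδ, h4⟩ := lin_all kl hna A0 F f hSF θ 1 hθ0 (by linarith) le_rfl e he0
  refine ⟨δ, hδ, ?_⟩
  have ev2 : ∀ᶠ X : ℕ in atTop, JR.dens a ((X : ℝ) ^ θ) * Real.log ((X : ℝ) ^ θ) ≤ C * E + e := by
    have h1 : Tendsto (fun X : ℕ => ((X : ℝ) ^ θ)) atTop atTop :=
      (tendsto_rpow_atTop hθ0).comp tendsto_natCast_atTop_atTop
    exact (hC.comp h1).eventually (ge_mem_nhds (show C * E < C * E + e by linarith))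
  filter_upwards [h4, ev2, eventually_ge_atTop 3, eventually_ge_atTop a.natAbs] with X h5 h6 h7 h7a
  intro H hH1 hH2
  have hXr : (3 : ℝ) ≤ X := by exact_mod_cast h7
  have hX0 : (0 : ℝ) < X := by linarith
  have hX1 : (1 : ℝ) ≤ X := by linarith
  have hlX : 0 < Real.log X := Real.log_pos (by linarith)
  have h8 := (h5 H hH1 hH2).2
  rw [div_one, hF1] at h8
  rw [Real.log_rpow hX0] at h6
  have hH0 : (0 : ℝ) ≤ H := Nat.cast_nonneg _
  have h9 : (((Ioc X (X + H)).filter (fun n => (NN a n).Prime)).card : ℝ) ≤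
      rough a ((X : ℝ) ^ θ) X H := by
    have h10 := prime_rough a X H h7a ((X : ℝ) ^ θ) (by
      rw [← Real.rpow_two]
      exact Real.rpow_le_rpow_of_exponent_le hX1 (by linarith))
    exact_mod_cast h10
  have h10 : JR.dens a ((X : ℝ) ^ θ) ≤ (C * E + e) / (θ * Real.log X) := by
    rw [le_div_iff₀ (mul_pos hθ0 hlX)]
    exact h6
  have h11 : 0 ≤ A0 + e := by linarith
  have h12 : (((Ioc X (X + H)).filter (fun n => (NN a n).Prime)).card : ℝ) ≤
      (A0 + e) * (H * JR.dens a ((X : ℝ) ^ θ)) := h9.trans h8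
  have h13 : (A0 + e) * (H * JR.dens a ((X : ℝ) ^ θ)) ≤
      (A0 + e) * (H * ((C * E + e) / (θ * Real.log X))) :=
    mul_le_mul_of_nonneg_left (mul_le_mul_of_nonneg_left h10 hH0) h11
  have h14 : (A0 + e) * (H * ((C * E + e) / (θ * Real.log X))) =
      ((A0 + e) * (C * E + e)) / θ * (H / Real.log X) := by
    rw [mul_div_assoc', mul_div_assoc', div_mul_div_comm]
    congr 1
    ring
  have h15 : ((A0 + e) * (C * E + e)) / θ * (H / Real.log X) ≤
      (24 / 13 * C + ε) * (H / Real.log X) :=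
    mul_le_mul_of_nonneg_right he (div_nonneg hH0 hlX.le)
  rw [h14] at h13
  exact (h12.trans h13).trans h15

theorem f_low {A0 : ℝ} {F f : ℝ → ℝ} (hSF : SF A0 F f) (s : ℝ) (hs : 2 < s) : 0 < f s := by
  have h1 := hSF.ef s hs.le
  have h2 : s - 2 ≤ ∫ x in (2 : ℝ)..s, F (x - 1) := by
    have h3 : ∫ _ in (2 : ℝ)..s, (1 : ℝ) = s - 2 := by simp
    rw [← h3]
    apply intervalIntegral.integral_mono_on hs.le
    · simp
    · apply ContinuousOn.intervalIntegrable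
      rw [Set.uIcc_of_le hs.le]
      apply hSF.cF.comp (by fun_prop)
      intro x hx
      rw [Set.mem_Icc] at hx
      rw [Set.mem_Ici]
      linarith [hx.1]
    · intro x hx
      rw [Set.mem_Icc] at hx
      exact hSF.F1 _ (by linarith [hx.1])
  have h3 : 0 < s * f s := by rw [h1]; linarith
  exact pos_of_mul_pos_right h3 (by linarith)

/-- numbers without small prime factors -/
theorem rough_low (kl : S_KL) {a : ℤ} (hna : ¬ IsSquare (-a)) (A0 : ℝ) (F f : ℝ → ℝ) (hSF : SF A0 F f)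
    (C : ℝ) (hC0 : 0 < C) (hC : Tendsto (fun z : ℝ => JR.dens a z * Real.log z) atTop (𝓝 C))
    (η : ℝ) (hη0 : 0 < η) (hη : η < 13 / 24) :
    ∃ δ : ℝ, 0 < δ ∧ ∃ c : ℝ, 0 < c ∧ ∀ᶠ X : ℕ in atTop, ∀ H : ℕ, (X : ℝ) ^ (1 - δ) ≤ H → H ≤ X →
      ∃ S : Finset ℕ, S ⊆ Ioc X (X + H) ∧ c * (H / Real.log X) ≤ S.card ∧
        ∀ n ∈ S, ∀ p : ℕ, p.Prime → p ∣ NN a n → (n : ℝ) ^ η < p := by
  classical
  set η' : ℝ := (η + 13 / 24) / 2 with hη'
  have h1 : η < η' := by rw [hη']; linarith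
  have h2 : η' < 13 / 24 := by rw [hη']; linarith
  have hη'0 : 0 < η' := by linarith
  set θ : ℝ := (2 * η' + 13 / 12) / 2 with hθ
  have h3 : 2 * η' < θ := by rw [hθ]; linarith
  have h4 : θ < 13 / 12 := by rw [hθ]; linarith
  set s : ℝ := θ / η' with hs
  have hs2 : 2 < s := by rw [hs, lt_div_iff₀ hη'0]; exact h3
  have hθ0 : 0 < θ := by linarith
  have hθs : θ / s = η' := by rw [hs]; field_simp
  have hf := f_low hSF s hs2
  obtain ⟨δ, hδ, h5⟩ := lin_all kl hna A0 F f hSF θ s (by linarith) h4 (by linarith) (f s / 2)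
    (by positivity)
  rw [hθs] at h5
  refine ⟨δ, hδ, f s / 2 * (C / (2 * η')), by positivity, ?_⟩
  have ev2 : ∀ᶠ X : ℕ in atTop, C / 2 ≤ JR.dens a ((X : ℝ) ^ η') * Real.log ((X : ℝ) ^ η') := by
    have h1 : Tendsto (fun X : ℕ => ((X : ℝ) ^ η')) atTop atTop :=
      (tendsto_rpow_atTop hη'0).comp tendsto_natCast_atTop_atTop
    exact (hC.comp h1).eventually (le_mem_nhds (show C / 2 < C by linarith))
  have ev3 : ∀ᶠ X : ℕ in atTop, (2 : ℝ) ^ η < (X : ℝ) ^ (η' - η) :=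
    ((tendsto_rpow_atTop (by linarith)).comp tendsto_natCast_atTop_atTop).eventually_gt_atTop _
  filter_upwards [h5, ev2, ev3, eventually_ge_atTop 3] with X h6 h7 h8 h9
  intro H hH1 hH2
  have hXr : (3 : ℝ) ≤ X := by exact_mod_cast h9
  have hX0 : (0 : ℝ) < X := by linarith
  have hlX : 0 < Real.log X := Real.log_pos (by linarith)
  have hH0 : (0 : ℝ) ≤ H := Nat.cast_nonneg _
  refine ⟨(Finset.Ioc X (X + H)).filter
    (fun n : ℕ => ∀ p : ℕ, p.Prime → (p : ℤ) ∣ (n : ℤ) ^ 2 + a → (X : ℝ) ^ η' ≤ p),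
    filter_subset _ _, ?_, ?_⟩
  · have h10 := (h6 H hH1 hH2).1
    have h11 : (rough a ((X : ℝ) ^ η') X H : ℝ) = (((Finset.Ioc X (X + H)).filter
        (fun n : ℕ => ∀ p : ℕ, p.Prime → (p : ℤ) ∣ (n : ℤ) ^ 2 + a → (X : ℝ) ^ η' ≤ p)).card : ℝ) := by
      unfold rough
      congr 2
    rw [← h11]
    refine le_trans ?_ h10
    rw [Real.log_rpow hX0] at h7
    have h12 : C / (2 * η') / Real.log X ≤ JR.dens a ((X : ℝ) ^ η') := by
      rw [div_div, div_le_iff₀ (by positivity)]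
      linarith
    have h13 : f s - f s / 2 = f s / 2 := by ring
    rw [h13]
    calc f s / 2 * (C / (2 * η')) * (H / Real.log X) = f s / 2 * (H * (C / (2 * η') / Real.log X)) := by
          ring
      _ ≤ _ := by gcongr
  · intro n hn p hp hd
    rw [mem_filter, mem_Ioc] at hn
    have h10 := hn.2 p hp ((dvd_NN a n p).1 hd)
    refine lt_of_lt_of_le ?_ h10
    have h11 : (n : ℝ) ≤ 2 * X := by
      have : n ≤ 2 * X := by omega
      exact_mod_cast this
    calc (n : ℝ) ^ η ≤ (2 * X) ^ η := Real.rpow_le_rpow (Nat.cast_nonneg _) h11 hη0.le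
      _ = 2 ^ η * (X : ℝ) ^ η := Real.mul_rpow (by norm_num) hX0.le
      _ < (X : ℝ) ^ (η' - η) * (X : ℝ) ^ η := by gcongr
      _ = (X : ℝ) ^ η' := by rw [← Real.rpow_add hX0]; congr 1; ring

end Pool.Agent.H543.DG
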