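import Pool.Agent.H543.DG.Def

/-!
# Reduced forms: every pair `(m, k)` is represented exactly once
-/

set_option autoImplicit false

namespace Pool.Agent.H543.DG

open Finset

/-- the value `A X ^ 2 + 2 B X Y + C Y ^ 2` -/
def ev (F : Fm) (X Y : ℤ) : ℤ := F.A * X ^ 2 + 2 * F.B * X * Y + F.C * Y ^ 2

/-- the bilinear form -/
def bl (F : Fm) (X Y U V : ℤ) : ℤ := F.A * X * U + F.B * (X * V + Y * U) + F.C * Y * V

/-- forms with the sign conditions -/
structure Pf (a : ℤ) (F : Fm) : Prop where
  A1 : 1 ≤ F.A
  C1 : 1 ≤ F.C
  B0 : 0 ≤ F.B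
  disc : F.A * F.C - F.B ^ 2 = a

/-- reduced forms -/
structure Red (a : ℤ) (F : Fm) : Prop extends Pf a F where
  red : (0 < a ∧ F.B < F.A ∧ F.B < F.C) ∨ (a < 0 ∧ F.A + F.C < 2 * F.B)

/-- a representation of `(m, k)` -/
structure Rp (F : Fm) (m k X Y U V : ℤ) : Prop where
  det : X * V - Y * U = 1
  X1 : 1 ≤ X
  Y0 : 0 ≤ Y
  em : ev F X Y = m
  ek : bl F X Y U V = k

/-- a nonsquare: the values do not vanish -/
theorem ne_zero_of {a : ℤ} (ha : ¬ IsSquare (-a)) (A B C : ℤ) (h : A * C - B ^ 2 = a) : C ≠ 0 := by
  intro h0
  apply ha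
  refine ⟨B, ?_⟩
  rw [← h, h0]
  ring

/-- the descent -/
theorem descent {a : ℤ} (ha : ¬ IsSquare (-a)) : ∀ n : ℕ, ∀ F : Fm, Pf a F →
    (if 0 < a then F.B else F.A + F.C) ≤ n → ∀ m k X Y U V : ℤ, Rp F m k X Y U V →
    ∃ G : Fm, Red a G ∧ ∃ X' Y' U' V' : ℤ, Rp G m k X' Y' U' V' := by
  have ha0 : a ≠ 0 := by
    rintro rfl
    exact ha ⟨0, by norm_num⟩
  intro n
  induction n with
  | zero =>
    intro F hF hn m k X Y U V hR
    obtain ⟨A, B, C⟩ := F
    obtain ⟨hA, hC, hB, hd⟩ := hF
    simp only at hA hC hB hd hn
    split_ifs at hn with hs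
    · exact ⟨⟨A, B, C⟩, ⟨⟨hA, hC, hB, hd⟩, Or.inl ⟨hs, by simp only; push_cast at hn; linarith,
        by simp only; push_cast at hn; linarith⟩⟩, X, Y, U, V, hR⟩
    · push_cast at hn
      linarith
  | succ n ih =>
    intro F hF hn m k X Y U V hR
    obtain ⟨A, B, C⟩ := F
    obtain ⟨hA, hC, hB, hd⟩ := hF
    obtain ⟨hdet, hX, hY, hm, hk⟩ := hR
    simp only at hA hC hB hd hn
    unfold ev at hm
    unfold bl at hk
    simp only at hm hk
    have hC1 : C - 2 * B + A ≠ 0 := ne_zero_of ha A (B - A) _ (by rw [← hd]; ring)
    split_ifs at hn with hs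
    · by_cases h1 : A ≤ B
      · -- `(p, q - p)`
        have h2 : 0 < C - 2 * B + A := by
          have h3 : 0 < A * (C - 2 * B + A) := by
            have : A * (C - 2 * B + A) = a + (B - A) ^ 2 := by rw [← hd]; ring
            rw [this]
            positivity
          exact (mul_pos_iff_of_pos_left (show (0 : ℤ) < A by linarith)).1 h3
        apply ih ⟨A, B - A, C - 2 * B + A⟩ ⟨hA, by simp only; linarith, by simp only; linarith,
          by simp only; rw [← hd]; ring⟩ _ m k (X + Y) Y (U + V) V
        · refine ⟨by linarith, by linarith, hY, ?_, ?_⟩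
          · unfold ev
            simp only
            rw [← hm]
            ring
          · unfold bl
            simp only
            rw [← hk]
            ring
        · rw [if_pos hs]
          simp only
          push_cast at hn
          linarith
      · by_cases h2 : C ≤ B
        · have h3 : 0 < C - 2 * B + A := by
            have h3 : 0 < C * (C - 2 * B + A) := by
              have : C * (C - 2 * B + A) = a + (B - C) ^ 2 := by rw [← hd]; ring
              rw [this]
              positivity
            exact (mul_pos_iff_of_pos_left (show (0 : ℤ) < C by linarith)).1 h3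
          apply ih ⟨C - 2 * B + A, B - C, C⟩ ⟨by simp only; linarith, hC, by simp only; linarith,
            by simp only; rw [← hd]; ring⟩ _ m k X (X + Y) U (U + V)
          · refine ⟨by linarith, hX, by linarith, ?_, ?_⟩
            · unfold ev
              simp only
              rw [← hm]
              ring
            · unfold bl
              simp only
              rw [← hk]
              ring
          · rw [if_pos hs]
            simp only
            push_cast at hn
            linarith
        · push Not at h1 h2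
          exact ⟨⟨A, B, C⟩, ⟨⟨hA, hC, hB, hd⟩, Or.inl ⟨hs, h1, h2⟩⟩, X, Y, U, V,
            ⟨hdet, hX, hY, hm, hk⟩⟩
    · have hs' : a < 0 := lt_of_le_of_ne (not_lt.1 hs) ha0
      by_cases h1 : A + C < 2 * B
      · exact ⟨⟨A, B, C⟩, ⟨⟨hA, hC, hB, hd⟩, Or.inr ⟨hs', h1⟩⟩, X, Y, U, V,
            ⟨hdet, hX, hY, hm, hk⟩⟩
      · push Not at h1
        have h2 : 0 < C - 2 * B + A := lt_of_le_of_ne (by linarith) (Ne.symm hC1)
        by_cases h3 : A < B
        · apply ih ⟨A, B - A, C - 2 * B + A⟩ ⟨hA, by simp only; linarith, by simp only; linarith,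
            by simp only; rw [← hd]; ring⟩ _ m k (X + Y) Y (U + V) V
          · refine ⟨by linarith, by linarith, hY, ?_, ?_⟩
            · unfold ev
              simp only
              rw [← hm]
              ring
            · unfold bl
              simp only
              rw [← hk]
              ring
          · rw [if_neg hs]
            simp only
            push_cast at hn
            linarith
        · push Not at h3
          have h4 : C < B := by
            by_contra h4
            push Not at h4
            have h5 : B * B ≤ A * C := mul_le_mul h3 h4 hB (by linarith)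
            nlinarith
          apply ih ⟨C - 2 * B + A, B - C, C⟩ ⟨by simp only; linarith, hC, by simp only; linarith,
            by simp only; rw [← hd]; ring⟩ _ m k X (X + Y) U (U + V)
          · refine ⟨by linarith, hX, by linarith, ?_, ?_⟩
            · unfold ev
              simp only
              rw [← hm]
              ring
            · unfold bl
              simp only
              rw [← hk]
              ring
          · rw [if_neg hs]
            simp only
            push_cast at hn
            linarith

/-- **existence** -/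
theorem red_exists {a : ℤ} (ha : ¬ IsSquare (-a)) (m k : ℤ) (hm : 0 < m) (h : m ∣ k ^ 2 + a) :
    ∃ G : Fm, Red a G ∧ ∃ X Y U V : ℤ, Rp G m k X Y U V := by
  obtain ⟨w, hw⟩ := h
  obtain ⟨n, hn⟩ : ∃ n : ℤ, n = 2 * |k| + |w| + 1 := ⟨_, rfl⟩
  have hk0 := abs_nonneg k
  have hw0 := abs_nonneg w
  have hk1 := neg_abs_le k
  have hw1 := neg_abs_le w
  have hn1 : 1 ≤ n := by linarith
  have hC : 1 ≤ w + 2 * k * n + m * n ^ 2 := by
    have h1 : n ^ 2 ≤ m * n ^ 2 := by nlinarith [sq_nonneg n]
    have h2 : -(2 * |k|) * n ≤ 2 * k * n := by nlinarith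
    have h3 : n ^ 2 = 2 * |k| * n + (|w| + 1) * n := by rw [sq]; nth_rw 1 [hn]; ring
    have h4 : (|w| + 1) ≤ (|w| + 1) * n := by nlinarith
    nlinarith
  have hB : 0 ≤ k + n * m := by
    have h1 : n ≤ n * m := by nlinarith
    linarith
  have hPf : Pf a ⟨m, k + n * m, w + 2 * k * n + m * n ^ 2⟩ := by
    refine ⟨by simp only; linarith, hC, hB, ?_⟩
    simp only
    linear_combination (-1 : ℤ) * hw
  have hRp : Rp ⟨m, k + n * m, w + 2 * k * n + m * n ^ 2⟩ m k 1 0 (-n) 1 := by
    refine ⟨by ring, le_refl _, le_refl _, ?_, ?_⟩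
    · unfold ev
      simp only
      ring
    · unfold bl
      simp only
      ring
  exact descent ha (if 0 < a then k + n * m else m + (w + 2 * k * n + m * n ^ 2)).toNat _ hPf
    (by simp only; exact Int.self_le_toNat _) m k 1 0 (-n) 1 hRp

end Pool.Agent.H543.DG
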