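import Pool.Agent.H543.DG.Red

/-!
# Reduced forms: uniqueness
-/

set_option autoImplicit false

namespace Pool.Agent.H543.DG

open Finset

/-- recover the form -/
theorem inv_A (F : Fm) (X Y U V : ℤ) (h : X * V - Y * U = 1) :
    F.A = V ^ 2 * ev F X Y - 2 * V * Y * bl F X Y U V + Y ^ 2 * ev F U V := by
  have : V ^ 2 * ev F X Y - 2 * V * Y * bl F X Y U V + Y ^ 2 * ev F U V =
      F.A * (X * V - Y * U) ^ 2 := by
    unfold ev bl
    ring
  rw [this, h]
  ring

theorem inv_B (F : Fm) (X Y U V : ℤ) (h : X * V - Y * U = 1) :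
    F.B = -(U * V) * ev F X Y + (X * V + Y * U) * bl F X Y U V - X * Y * ev F U V := by
  have : -(U * V) * ev F X Y + (X * V + Y * U) * bl F X Y U V - X * Y * ev F U V =
      F.B * (X * V - Y * U) ^ 2 := by
    unfold ev bl
    ring
  rw [this, h]
  ring

theorem inv_C (F : Fm) (X Y U V : ℤ) (h : X * V - Y * U = 1) :
    F.C = U ^ 2 * ev F X Y - 2 * U * X * bl F X Y U V + X ^ 2 * ev F U V := by
  have : U ^ 2 * ev F X Y - 2 * U * X * bl F X Y U V + X ^ 2 * ev F U V =
      F.C * (X * V - Y * U) ^ 2 := by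
    unfold ev bl
    ring
  rw [this, h]
  ring

/-- the third coefficient -/
theorem ev_w {a : ℤ} (F : Fm) (X Y U V m k : ℤ) (hF : F.A * F.C - F.B ^ 2 = a) (h : Rp F m k X Y U V) :
    m * ev F U V = k ^ 2 + a := by
  rw [← h.em, ← h.ek, ← hF]
  have : ev F X Y * ev F U V = bl F X Y U V ^ 2 + (F.A * F.C - F.B ^ 2) * (X * V - Y * U) ^ 2 := by
    unfold ev bl
    ring
  rw [this, h.det]
  ring

/-- the change of basis -/
theorem change {a : ℤ} (F F1 : Fm) (m k X Y U V X1 Y1 U1 V1 : ℤ) (hm : m ≠ 0)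
    (hF : F.A * F.C - F.B ^ 2 = a) (hF1 : F1.A * F1.C - F1.B ^ 2 = a)
    (h : Rp F m k X Y U V) (h1 : Rp F1 m k X1 Y1 U1 V1) :
    F1.A = ev F (X * V1 - U * Y1) (Y * V1 - V * Y1) ∧
    F1.B = bl F (X * V1 - U * Y1) (Y * V1 - V * Y1) (U * X1 - X * U1) (V * X1 - Y * U1) ∧
    F1.C = ev F (U * X1 - X * U1) (V * X1 - Y * U1) := by
  have hw := ev_w F X Y U V m k hF h
  have hw1 := ev_w F1 X1 Y1 U1 V1 m k hF1 h1
  have hw2 : ev F1 U1 V1 = ev F U V := mul_left_cancel₀ hm (by rw [hw, hw1])
  have e1 := inv_A F1 X1 Y1 U1 V1 h1.det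
  have e2 := inv_B F1 X1 Y1 U1 V1 h1.det
  have e3 := inv_C F1 X1 Y1 U1 V1 h1.det
  rw [h1.em, h1.ek, hw2, ← h.em, ← h.ek] at e1 e2 e3
  refine ⟨?_, ?_, ?_⟩
  · rw [e1]
    unfold ev bl
    ring
  · rw [e2]
    unfold ev bl
    ring
  · rw [e3]
    unfold ev bl
    ring

/-- half plane, one side -/
theorem half1 (A B C x t : ℤ) (hA : 1 ≤ A) (hB : 0 < B) (hC : 1 ≤ C) (hD : A * C < B ^ 2)
    (hr : A + C < 2 * B) (hx : 0 < x) (ht : x ≤ t) (hF : 0 < A * x ^ 2 - 2 * B * x * t + C * t ^ 2) :
    B * x < C * t ∧ A * x < B * t := by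
  have h1 : B * x < C * t := by
    by_contra h
    push Not at h
    have h2 : (t - x) * (C * (t + x) - 2 * B * x) ≤ 0 := by
      apply mul_nonpos_of_nonneg_of_nonpos (by linarith)
      nlinarith
    have h3 : A * x ^ 2 - 2 * B * x * t + C * t ^ 2 =
        x ^ 2 * (A - 2 * B + C) + (t - x) * (C * (t + x) - 2 * B * x) := by ring
    have h4 : x ^ 2 * (A - 2 * B + C) < 0 := by
      apply mul_neg_of_pos_of_neg (by positivity) (by linarith)
    linarith
  refine ⟨h1, ?_⟩
  have h2 : C * (A * x) < C * (B * t) := by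
    have h3 : B * (B * x) ≤ B * (C * t) := mul_le_mul_of_nonneg_left h1.le hB.le
    have h4 : A * C * x < B ^ 2 * x := mul_lt_mul_of_pos_right hD hx
    nlinarith
  exact lt_of_mul_lt_mul_left h2 (by linarith)

/-- the half plane -/
theorem half {a : ℤ} (F : Fm) (hF : Pf a F) (ha : a < 0) (hr : F.A + F.C < 2 * F.B) (c d X Y : ℤ)
    (hX : 0 ≤ X) (hY : 0 ≤ Y) (h1 : 0 < ev F c d) (h2 : 0 < bl F c d X Y) : 1 ≤ c + d := by
  obtain ⟨A, B, C⟩ := F
  obtain ⟨hA, hC, hB, hd⟩ := hF
  simp only at hA hC hB hd hr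
  unfold ev at h1
  unfold bl at h2
  simp only at h1 h2
  have hD : A * C < B ^ 2 := by linarith
  have hB' : 0 < B := by
    rcases lt_or_eq_of_le hB with h | h
    · exact h
    · rw [← h] at hr
      linarith
  by_contra h
  push Not at h
  have h3 : c + d ≤ 0 := by linarith
  have h4 : A * c * X + B * (c * Y + d * X) + C * d * Y = (A * c + B * d) * X + (B * c + C * d) * Y := by
    ring
  rw [h4] at h2
  rcases lt_trichotomy c 0 with hc | hc | hc
  · by_cases hd0 : d ≤ 0
    · have e1 : A * c + B * d ≤ 0 := by nlinarith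
      have e2 : B * c + C * d ≤ 0 := by nlinarith
      nlinarith
    · push Not at hd0
      obtain ⟨u1, u2⟩ := half1 C B A d (-c) hC hB' hA (by linarith) (by linarith) hd0 (by linarith)
        (by nlinarith)
      have e1 : A * c + B * d ≤ 0 := by linarith
      have e2 : B * c + C * d ≤ 0 := by linarith
      nlinarith
  · subst hc
    have e1 : A * 0 + B * d ≤ 0 := by nlinarith
    have e2 : B * 0 + C * d ≤ 0 := by nlinarith
    nlinarith
  · obtain ⟨u1, u2⟩ := half1 A B C c (-d) hA hB' hC (by linarith) (by linarith) hc (by linarith)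
        (by nlinarith)
    have e1 : A * c + B * d ≤ 0 := by linarith
    have e2 : B * c + C * d ≤ 0 := by linarith
    nlinarith

/-- the core: sign conditions force the identity -/
theorem core_neg (p q r s : ℤ) (hdet : p * s - q * r = 1) (h1 : 1 ≤ p + r) (h2 : 1 ≤ q + s)
    (h3 : 1 ≤ s - r) (h4 : 1 ≤ p - q) (X Y X1 Y1 : ℤ) (hX : 1 ≤ X) (hY : 0 ≤ Y) (hX1 : 1 ≤ X1)
    (hY1 : 0 ≤ Y1) (e1 : p * X1 + q * Y1 = X) (e2 : r * X1 + s * Y1 = Y) :
    p = 1 ∧ q = 0 ∧ r = 0 ∧ s = 1 := by
  have key : q = 0 ∧ r = 0 := by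
    by_cases hq : 0 ≤ q
    · by_cases hr : 0 ≤ r
      · have h5 : (q + 1) * (r + 1) ≤ p * s := mul_le_mul (by linarith) (by linarith) (by linarith)
          (by linarith)
        constructor <;> nlinarith
      · push Not at hr
        by_cases hq0 : q = 0
        · subst hq0
          have h5 : p * s = 1 := by linarith
          have h6 : 0 < p := by linarith
          have h8 : 0 < s := by
            by_contra h8
            push Not at h8
            nlinarith
          have h9 : p = 1 := by nlinarith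
          exfalso
          linarith
        · have hq1 : 1 ≤ q := by omega
          exfalso
          have h5 : p * s ≤ 0 := by nlinarith
          have h6 : 0 < p := by linarith
          have h7 : s ≤ 0 := by
            by_contra h7
            push Not at h7
            nlinarith
          nlinarith
    · push Not at hq
      by_cases hr : r ≤ 0
      · have h5 : (1 - r) * (1 - q) ≤ p * s := mul_le_mul (by linarith) (by linarith) (by linarith)
          (by linarith)
        constructor <;> nlinarith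
      · push Not at hr
        exfalso
        have h5 : p * s ≤ 0 := by nlinarith
        have h6 : 0 < s := by linarith
        have h7 : p ≤ 0 := by
          by_contra h7
          push Not at h7
          nlinarith
        nlinarith
  obtain ⟨hq, hr⟩ := key
  subst hq
  subst hr
  have h5 : p * s = 1 := by linarith
  have h6 : 1 ≤ p := by linarith
  have h7 : 1 ≤ s := by linarith
  refine ⟨?_, rfl, rfl, ?_⟩ <;> nlinarith

/-- the core, definite case: nonnegative matrices -/
theorem core_pos1 (A B C p q r s : ℤ) (hA : 1 ≤ A) (hC : 1 ≤ C) (hB : 0 ≤ B)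
    (hdet : p * s - q * r = 1) (hq : 0 ≤ q) (hr : 0 ≤ r) (hp : 1 ≤ p) (hs : 1 ≤ s)
    (h1 : A * p * q + B * (p * s + r * q) + C * r * s < A * p ^ 2 + 2 * B * p * r + C * r ^ 2)
    (h2 : A * p * q + B * (p * s + r * q) + C * r * s < A * q ^ 2 + 2 * B * q * s + C * s ^ 2) :
    q = 0 ∧ r = 0 := by
  have e1 : q < p := by
    by_contra h
    push Not at h
    have h3 : 1 ≤ p * (s - r) := by nlinarith
    have h4 : 0 < s - r := by
      by_contra h4
      push Not at h4
      nlinarith
    have h5 : 0 ≤ A * p * (q - p) := mul_nonneg (mul_nonneg (by linarith) (by linarith)) (by linarith)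
    have h6 : 0 ≤ B * (p * (s - r) + r * (q - p)) := mul_nonneg hB
      (add_nonneg (by linarith) (mul_nonneg hr (by linarith)))
    have h7 : 0 ≤ C * r * (s - r) := mul_nonneg (mul_nonneg (by linarith) hr) (by linarith)
    nlinarith
  have e2 : r < s := by
    by_contra h
    push Not at h
    have h3 : 1 ≤ s * (p - q) := by nlinarith
    have h5 : 0 ≤ A * q * (p - q) := mul_nonneg (mul_nonneg (by linarith) (by linarith)) (by linarith)
    have h6 : 0 ≤ B * (s * (p - q) + q * (r - s)) := mul_nonneg hB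
      (add_nonneg (by linarith) (mul_nonneg hq (by linarith)))
    have h7 : 0 ≤ C * s * (r - s) := mul_nonneg (mul_nonneg (by linarith) (by linarith)) (by linarith)
    nlinarith
  have h5 : (q + 1) * (r + 1) ≤ p * s := mul_le_mul (by linarith) (by linarith) (by linarith)
    (by linarith)
  constructor <;> nlinarith

/-- the opposite signs cannot occur -/
theorem core_pos2 (A B C p q r s : ℤ) (hA : 1 ≤ A) (hC : 1 ≤ C) (hB : 0 ≤ B)
    (hdet : p * s - q * r = 1) (hq : 0 < q) (hr : r < 0)
    (h0 : 0 ≤ A * p * q + B * (p * s + r * q) + C * r * s)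
    (X1 Y1 Y : ℤ) (hX1 : 1 ≤ X1) (hY1 : 0 ≤ Y1) (hY : 0 ≤ Y) (e2 : r * X1 + s * Y1 = Y) : False := by
  have h1 : q * r ≤ -1 := by nlinarith
  have h2 : p * s ≤ 0 := by linarith
  have h3 : 0 < s := by
    by_contra h3
    push Not at h3
    nlinarith
  have h4 : p ≤ 0 := by
    by_contra h4
    push Not at h4
    nlinarith
  have h5 : A * p * q ≤ 0 := by
    have : 0 ≤ A * (-p) * q := mul_nonneg (mul_nonneg (by linarith) (by linarith)) hq.le
    linarith
  have h6 : B * (p * s + r * q) ≤ 0 := mul_nonpos_of_nonneg_of_nonpos hB (by linarith)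
  have h7 : 0 < C * (-r) * s := mul_pos (mul_pos (by linarith) (by linarith)) h3
  linarith

end Pool.Agent.H543.DG
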