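import Pool.Agent.H543.DG.RedU

/-!
# Reduced forms: uniqueness, the theorem
-/

set_option autoImplicit false

namespace Pool.Agent.H543.DG

open Finset

theorem psign (p q r s : ℤ) (hdet : p * s - q * r = 1) (hqr : (0 ≤ q ∧ 0 ≤ r) ∨ (q ≤ 0 ∧ r ≤ 0))
    (X Y X1 Y1 : ℤ) (hX : 1 ≤ X) (hY : 0 ≤ Y) (hX1 : 1 ≤ X1)
    (hY1 : 0 ≤ Y1) (e1 : p * X1 + q * Y1 = X) (e2 : r * X1 + s * Y1 = Y) : 1 ≤ p ∧ 1 ≤ s := by
  have h0 : 0 ≤ q * r := by
    rcases hqr with ⟨h1, h2⟩ | ⟨h1, h2⟩
    · exact mul_nonneg h1 h2
    · exact mul_nonneg_of_nonpos_of_nonpos h1 h2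
  have h1 : 1 ≤ p * s := by linarith
  have h2 : 0 < p := by
    by_contra h
    push Not at h
    have hp : p < 0 := by
      rcases lt_or_eq_of_le h with h | h
      · exact h
      · rw [h] at h1
        linarith
    have hs : s < 0 := by
      by_contra hs
      push Not at hs
      nlinarith
    rcases hqr with ⟨h3, h4⟩ | ⟨h3, h4⟩
    · have h5 : 1 + (-p) * X1 ≤ q * Y1 := by linarith
      have h6 : (-s) * Y1 ≤ r * X1 := by linarith
      rcases lt_or_eq_of_le hY1 with h7 | h7
      · have h8 : (1 + (-p) * X1) * ((-s) * Y1) ≤ (q * Y1) * (r * X1) :=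
          mul_le_mul h5 h6 (mul_nonneg (by linarith) hY1) (mul_nonneg h3 hY1)
        have h9 : (q * Y1) * (r * X1) = (p * s - 1) * (X1 * Y1) := by
          rw [show p * s - 1 = q * r by linarith]
          ring
        rw [h9] at h8
        have h10 : 0 < (-s) * Y1 := mul_pos (by linarith) h7
        have h11 : 0 < X1 * Y1 := mul_pos (by linarith) h7
        nlinarith
      · rw [← h7] at e1
        nlinarith
    · have h5 : p * X1 < 0 := mul_neg_of_neg_of_pos hp (by linarith)
      have h6 : q * Y1 ≤ 0 := mul_nonpos_of_nonpos_of_nonneg h3 hY1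
      linarith
  refine ⟨by linarith, ?_⟩
  by_contra h
  push Not at h
  nlinarith

theorem posXY (A B X Y : ℤ) (hA : 0 < A) (hB : 0 ≤ B) (hX : 1 ≤ X) (hY : 0 ≤ Y) :
    0 < X * A + Y * B := by
  have h1 : 0 < X * A := mul_pos (by linarith) hA
  have h2 : 0 ≤ Y * B := mul_nonneg hY hB
  linarith

theorem one_of (p s : ℤ) (h : p * s = 1) (h1 : 1 ≤ p) (h2 : 1 ≤ s) : p = 1 ∧ s = 1 := by
  constructor <;> nlinarith

theorem red_unique {a : ℤ} (m k : ℤ) (hm : 0 < m) (F F1 : Fm) (hF : Red a F) (hF1 : Red a F1)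
    (X Y U V X1 Y1 U1 V1 : ℤ) (h : Rp F m k X Y U V) (h1 : Rp F1 m k X1 Y1 U1 V1) :
    F1 = F ∧ X1 = X ∧ Y1 = Y := by
  obtain ⟨c1, c2, c3⟩ := change F F1 m k X Y U V X1 Y1 U1 V1 hm.ne' hF.disc hF1.disc h h1
  obtain ⟨d1, d2, d3⟩ := change F1 F m k X1 Y1 U1 V1 X Y U V hm.ne' hF1.disc hF.disc h1 h
  obtain ⟨p, hp⟩ : ∃ p : ℤ, p = X * V1 - U * Y1 := ⟨_, rfl⟩
  obtain ⟨r, hr⟩ : ∃ r : ℤ, r = Y * V1 - V * Y1 := ⟨_, rfl⟩
  obtain ⟨q, hq⟩ : ∃ q : ℤ, q = U * X1 - X * U1 := ⟨_, rfl⟩
  obtain ⟨s, hs⟩ : ∃ s : ℤ, s = V * X1 - Y * U1 := ⟨_, rfl⟩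
  rw [← hp, ← hr] at c1 c2
  rw [← hq, ← hs] at c2 c3
  have p1 : X1 * V - U1 * Y = s := by rw [hs]; ring
  have p2 : Y1 * V - V1 * Y = -r := by rw [hr]; ring
  have p3 : U1 * X - X1 * U = -q := by rw [hq]; ring
  have p4 : V1 * X - Y1 * U = p := by rw [hp]; ring
  rw [p1, p2] at d1 d2
  rw [p3, p4] at d2 d3
  obtain ⟨hd, hX, hY, -, -⟩ := h
  obtain ⟨hd1, hX1, hY1, -, -⟩ := h1
  have hdet : p * s - q * r = 1 := by
    have : p * s - q * r = (X * V - Y * U) * (X1 * V1 - Y1 * U1) := by
      rw [hp, hs, hq, hr]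
      ring
    rw [this, hd, hd1]
    ring
  have e1 : p * X1 + q * Y1 = X := by
    have : p * X1 + q * Y1 = X * (X1 * V1 - Y1 * U1) := by
      rw [hp, hq]
      ring
    rw [this, hd1, mul_one]
  have e2 : r * X1 + s * Y1 = Y := by
    have : r * X1 + s * Y1 = Y * (X1 * V1 - Y1 * U1) := by
      rw [hr, hs]
      ring
    rw [this, hd1, mul_one]
  have e3 : s * X + (-q) * Y = X1 := by
    rw [← e1, ← e2]
    linear_combination X1 * hdet
  have e4 : (-r) * X + p * Y = Y1 := by
    rw [← e1, ← e2]
    linear_combination Y1 * hdet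
  have key : p = 1 ∧ q = 0 ∧ r = 0 ∧ s = 1 := by
    rcases hF.red with ⟨ha, r1, r2⟩ | ⟨ha, r1⟩
    · rcases hF1.red with ⟨-, r3, r4⟩ | ⟨ha', -⟩
      · have hdet' : s * p - (-q) * (-r) = 1 := by linarith
        have hfin : (0 ≤ q ∧ 0 ≤ r) ∨ (q ≤ 0 ∧ r ≤ 0) := by
          rcases le_or_gt 0 q with g1 | g1
          · rcases le_or_gt 0 r with g2 | g2
            · exact Or.inl ⟨g1, g2⟩
            · rcases lt_or_eq_of_le g1 with g3 | g3
              · exfalso
                apply core_pos2 F.A F.B F.C p q r s hF.A1 hF.C1 hF.B0 hdet g3 g2 _ X1 Y1 Y hX1 hY1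
                  hY e2
                have := hF1.B0
                rw [c2] at this
                unfold bl at this
                linarith
              · exact Or.inr ⟨by linarith, g2.le⟩
          · rcases le_or_gt r 0 with g2 | g2
            · exact Or.inr ⟨g1.le, g2⟩
            · exfalso
              apply core_pos2 F1.A F1.B F1.C s (-q) (-r) p hF1.A1 hF1.C1 hF1.B0 hdet' (by linarith)
                (by linarith) _ X Y Y1 hX hY hY1 e4
              have := hF.B0
              rw [d2] at this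
              unfold bl at this
              linarith
        obtain ⟨s1, s2⟩ := psign p q r s hdet hfin X Y X1 Y1 hX hY hX1 hY1 e1 e2
        have hz : q = 0 ∧ r = 0 := by
          rcases hfin with ⟨g1, g2⟩ | ⟨g1, g2⟩
          · apply core_pos1 F.A F.B F.C p q r s hF.A1 hF.C1 hF.B0 hdet g1 g2 s1 s2
            · rw [c1, c2] at r3
              unfold ev bl at r3
              linarith
            · rw [c3, c2] at r4
              unfold ev bl at r4
              linarith
          · have := core_pos1 F1.A F1.B F1.C s (-q) (-r) p hF1.A1 hF1.C1 hF1.B0 hdet' (by linarith)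
              (by linarith) s2 s1 (by
                rw [d1, d2] at r1
                unfold ev bl at r1
                linarith) (by
                rw [d3, d2] at r2
                unfold ev bl at r2
                linarith)
            exact ⟨by linarith [this.1], by linarith [this.2]⟩
        obtain ⟨z1, z2⟩ := hz
        rw [z1, z2] at hdet
        have h5 := one_of p s (by linarith) s1 s2
        exact ⟨h5.1, z1, z2, h5.2⟩
      · exfalso
        linarith
    · rcases hF1.red with ⟨ha', -⟩ | ⟨-, r3⟩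
      · exfalso
        linarith
      · have hB : 0 < F.B := by
          have := hF.A1
          have := hF.C1
          linarith
        have hB1 : 0 < F1.B := by
          have := hF1.A1
          have := hF1.C1
          linarith
        have hA := hF.A1
        have hA1 := hF1.A1
        have hC := hF.C1
        have hC1 := hF1.C1
        apply core_neg p q r s hdet _ _ _ _ X Y X1 Y1 hX hY hX1 hY1 e1 e2
        · apply half F hF.toPf ha r1 p r X Y (by linarith) hY (by rw [← c1]; linarith)
          have : bl F p r X Y = X1 * ev F p r + Y1 * bl F p r q s := by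
            rw [← e1, ← e2]
            unfold ev bl
            ring
          rw [this, ← c1, ← c2]
          exact posXY _ _ _ _ (by linarith) hB1.le hX1 hY1
        · apply half F hF.toPf ha r1 q s X Y (by linarith) hY (by rw [← c3]; linarith)
          have : bl F q s X Y = X1 * bl F p r q s + Y1 * ev F q s := by
            rw [← e1, ← e2]
            unfold ev bl
            ring
          rw [this, ← c3, ← c2]
          exact posXY _ _ _ _ hB1 (by linarith) hX1 hY1
        · have := half F1 hF1.toPf ha r3 s (-r) X1 Y1 (by linarith) hY1 (by rw [← d1]; linarith) (by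
            have : bl F1 s (-r) X1 Y1 = X * ev F1 s (-r) + Y * bl F1 s (-r) (-q) p := by
              conv_lhs => rw [← e3, ← e4]
              unfold ev bl
              ring
            rw [this, ← d1, ← d2]
            exact posXY _ _ _ _ (by linarith) hB.le hX hY)
          linarith
        · have := half F1 hF1.toPf ha r3 (-q) p X1 Y1 (by linarith) hY1 (by rw [← d3]; linarith) (by
            have : bl F1 (-q) p X1 Y1 = X * bl F1 s (-r) (-q) p + Y * ev F1 (-q) p := by
              conv_lhs => rw [← e3, ← e4]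
              unfold ev bl
              ring
            rw [this, ← d3, ← d2]
            exact posXY _ _ _ _ hB (by linarith) hX hY)
          linarith
  obtain ⟨k1, k2, k3, k4⟩ := key
  rw [k1, k2] at e1
  rw [k3, k4] at e2
  rw [k1, k3] at c1
  rw [k1, k2, k3, k4] at c2
  rw [k2, k4] at c3
  refine ⟨?_, by linarith, by linarith⟩
  obtain ⟨A, B, C⟩ := F
  obtain ⟨A1, B1, C1⟩ := F1
  unfold ev at c1 c3
  unfold bl at c2
  simp only at c1 c2 c3
  have t1 : A1 = A := by linarith
  have t2 : B1 = B := by linarith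
  have t3 : C1 = C := by linarith
  rw [t1, t2, t3]

end Pool.Agent.H543.DG
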