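import Pool.Agent.H543.DG.Def

/-!
# The sum over the divisors of `k ^ 2 + a` as a sum over pairs of a cone
-/

set_option autoImplicit false

namespace Pool.Agent.H543.DG

open Finset

/-- the set of pairs -/
noncomputable def Ns (F : Fm) (K : ℕ) (m k : ℤ) : Finset (ℤ × ℤ) :=
  (Icc 1 (K * m) ×ˢ Icc 1 (K * m)).filter (fun s : ℤ × ℤ => s.2 < s.1 ∧ qm F s.1 s.2 = m ∧
    m ∣ k * s.1 - F.B * s.1 + F.C * s.2 ∧ m ∣ k * s.2 + F.B * s.2 - F.A * s.1)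

theorem Nn_eq (F : Fm) (K : ℕ) (m k : ℤ) : Nn F K m k = (Ns F K m k).card := rfl

/-- membership does not need the box -/
theorem mem_Ns (F : Fm) (a : ℤ) (K : ℕ) (hF : Cone F a K) (m k x y : ℤ) :
    (x, y) ∈ Ns F K m k ↔ (0 < y ∧ y < x ∧ qm F x y = m ∧
      m ∣ k * x - F.B * x + F.C * y ∧ m ∣ k * y + F.B * y - F.A * x) := by
  unfold Ns
  rw [mem_filter, mem_product, mem_Icc, mem_Icc]
  simp only
  constructor
  · rintro ⟨⟨⟨h1, h2⟩, h3, h4⟩, h5, h6, h7, h8⟩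
    exact ⟨by linarith, h5, h6, h7, h8⟩
  · rintro ⟨h1, h2, h3, h4, h5⟩
    have h6 := hF.dn x y h1.le h2.le
    rw [h3] at h6
    have h7 : x ≤ x ^ 2 := by nlinarith
    exact ⟨⟨⟨by linarith, by linarith⟩, by linarith, by linarith⟩, h2, h3, h4, h5⟩

/-- `u` from `k` -/
theorem u_of (F : Fm) (a : ℤ) (K : ℕ) (hF : Cone F a K) (X H : ℕ) (m k x y : ℤ) (hm : 0 < m)
    (hk1 : (X : ℤ) < k) (hk2 : k ≤ X + H) (h : (x, y) ∈ Ns F K m k) :
    ∃ u : ℤ, u ∈ US F X H x y ∧ kk F x y u = k := by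
  rw [mem_Ns F a K hF] at h
  obtain ⟨h1, h2, h3, ⟨u, hu⟩, ⟨v', hv⟩⟩ := h
  have hx : 0 < x := by linarith
  obtain ⟨v, hv'⟩ : ∃ v : ℤ, v = -v' := ⟨_, rfl⟩
  have e1 : x * v + y * u = 1 := by
    have h4 : m * (x * v + y * u) = m * 1 := by
      have h5 : m * (x * v + y * u) = x * (-(m * v')) + y * (m * u) := by rw [hv']; ring
      rw [h5, ← hv, ← hu, mul_one]
      conv_rhs => rw [← h3]
      unfold qm
      ring
    exact mul_left_cancel₀ hm.ne' h4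
  have e2 := vv_of x y u v hx.ne' e1
  have e3 : kk F x y u = k := by
    have h4 : x * kk F x y u = x * k := by
      unfold kk
      rw [e2]
      have h5 : x * (F.A * x * u + F.B * (x * v - y * u) - F.C * y * v) =
          qm F x y * u + (F.B * x - F.C * y) * (x * v + y * u) := by
        unfold qm
        ring
      rw [h5, e1, h3]
      linarith
    exact mul_left_cancel₀ hx.ne' h4
  refine ⟨u, ?_, e3⟩
  rw [mem_US F X H x y u (by rw [h3]; exact hm)]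
  refine ⟨⟨-v, by linarith⟩, ?_, ?_⟩
  · rw [h3, ← hu]
    have : x * X < x * k := mul_lt_mul_of_pos_left hk1 hx
    linarith
  · rw [h3, ← hu]
    have : x * k ≤ x * (X + H) := mul_le_mul_of_nonneg_left hk2 hx.le
    linarith

/-- the sum over the divisors -/
theorem rep_sum (F : Fm) (a : ℤ) (K : ℕ) (hF : Cone F a K) (X H : ℕ) (M0 M : ℤ) (hM0 : 0 ≤ M0)
    (f : ℤ → ℤ → ℝ) :
    ∑ x ∈ Icc 1 (K * M), ∑ y ∈ Ioo 0 x, (if M0 < qm F x y ∧ qm F x y ≤ M then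
        ∑ u ∈ US F X H x y, f (qm F x y) (ww F x y u) else 0) =
      ∑ m ∈ Ioc M0 M, ∑ k ∈ (Ioc (X : ℤ) (X + H)).filter (fun k => m ∣ k ^ 2 + a),
        (Nn F K m k : ℝ) * f m ((k ^ 2 + a) / m) := by
  classical
  have h1 : ∑ x ∈ Icc 1 (K * M), ∑ y ∈ Ioo 0 x, (if M0 < qm F x y ∧ qm F x y ≤ M then
        ∑ u ∈ US F X H x y, f (qm F x y) (ww F x y u) else 0) =
      ∑ t ∈ ((Icc 1 (K * M)).sigma (fun x : ℤ => (Ioo 0 x).sigma (fun y => US F X H x y))).filter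
        (fun t => M0 < qm F t.1 t.2.1 ∧ qm F t.1 t.2.1 ≤ M),
        f (qm F t.1 t.2.1) (ww F t.1 t.2.1 t.2.2) := by
    rw [sum_filter, sum_sigma]
    apply sum_congr rfl
    intro x _
    rw [sum_sigma]
    apply sum_congr rfl
    intro y _
    split_ifs
    · rfl
    · simp
  have h2 : ∑ m ∈ Ioc M0 M, ∑ k ∈ (Ioc (X : ℤ) (X + H)).filter (fun k => m ∣ k ^ 2 + a),
        (Nn F K m k : ℝ) * f m ((k ^ 2 + a) / m) =
      ∑ t ∈ (Ioc M0 M).sigma (fun m : ℤ => ((Ioc (X : ℤ) (X + H)).filter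
          (fun k => m ∣ k ^ 2 + a)).sigma (fun k => Ns F K m k)),
        f t.1 ((t.2.1 ^ 2 + a) / t.1) := by
    rw [sum_sigma]
    apply sum_congr rfl
    intro m _
    rw [sum_sigma]
    apply sum_congr rfl
    intro k _
    simp only
    rw [sum_const, nsmul_eq_mul, Nn_eq]
  rw [h1, h2]
  apply sum_bij (fun t _ => (⟨qm F t.1 t.2.1, ⟨kk F t.1 t.2.1 t.2.2, (t.1, t.2.1)⟩⟩ :
    (_ : ℤ) × (_ : ℤ) × (ℤ × ℤ)))
  · rintro ⟨x, y, u⟩ ht
    simp only [mem_filter, mem_sigma, mem_Icc, mem_Ioo] at ht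
    obtain ⟨⟨hx, hy, hu⟩, hm⟩ := ht
    have hm0 : 0 < qm F x y := by linarith [hm.1]
    obtain ⟨s1, s2, s3, s4, s5⟩ := US_spec F a hF.disc X H x y u (by linarith [hx.1]) hm0 hu
    simp only [mem_sigma, mem_Ioc, mem_filter]
    refine ⟨hm, ⟨⟨s1, s2⟩, ⟨_, s3⟩⟩, ?_⟩
    rw [mem_Ns F a K hF]
    exact ⟨hy.1, hy.2, rfl, ⟨u, by linarith⟩, ⟨-vv x y u, by linarith⟩⟩
  · rintro ⟨x, y, u⟩ ht ⟨x', y', u'⟩ ht' heq
    simp only [mem_filter, mem_sigma, mem_Icc, mem_Ioo] at ht ht'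
    obtain ⟨⟨hx, hy, hu⟩, hm⟩ := ht
    obtain ⟨⟨hx', hy', hu'⟩, hm'⟩ := ht'
    have hm0 : 0 < qm F x y := by linarith [hm.1]
    have hm0' : 0 < qm F x' y' := by linarith [hm'.1]
    obtain ⟨s1, s2, s3, s4, s5⟩ := US_spec F a hF.disc X H x y u (by linarith [hx.1]) hm0 hu
    obtain ⟨r1, r2, r3, r4, r5⟩ := US_spec F a hF.disc X H x' y' u' (by linarith [hx'.1]) hm0' hu'
    simp only [Sigma.mk.injEq, heq_eq_eq, Prod.mk.injEq] at heq
    obtain ⟨e1, e2, e3, e4⟩ := heq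
    subst e3
    subst e4
    rw [e2] at s4
    have e4 : qm F x y * u = qm F x y * u' := by linarith
    have e5 : u = u' := mul_left_cancel₀ hm0.ne' e4
    rw [e5]
  · rintro ⟨m, k, ⟨x, y⟩⟩ ht
    simp only [mem_sigma, mem_Ioc, mem_filter] at ht
    obtain ⟨hm, ⟨⟨hk1, hk2⟩, hk⟩, hxy⟩ := ht
    have hm0 : 0 < m := by linarith [hm.1]
    obtain ⟨u, hu1, hu2⟩ := u_of F a K hF X H m k x y hm0 hk1 hk2 hxy
    rw [mem_Ns F a K hF] at hxy
    obtain ⟨h1, h2, h3, h4, h5⟩ := hxy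
    refine ⟨⟨x, y, u⟩, ?_, ?_⟩
    · simp only [mem_filter, mem_sigma, mem_Icc, mem_Ioo]
      have h6 := hF.dn x y h1.le h2.le
      rw [h3] at h6
      have h7 : x ≤ x ^ 2 := by nlinarith
      have h8 : (K : ℤ) * m ≤ K * M := mul_le_mul_of_nonneg_left hm.2 (Int.natCast_nonneg K)
      exact ⟨⟨⟨by linarith, by linarith⟩, ⟨h1, h2⟩, hu1⟩, by rw [h3]; exact hm⟩
    · simp only [Sigma.mk.injEq, heq_eq_eq]
      subst h3
      exact ⟨rfl, by rw [hu2]; exact ⟨rfl, trivial⟩⟩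
  · rintro ⟨x, y, u⟩ ht
    simp only [mem_filter, mem_sigma, mem_Icc, mem_Ioo] at ht
    obtain ⟨⟨hx, hy, hu⟩, hm⟩ := ht
    have hm0 : 0 < qm F x y := by linarith [hm.1]
    obtain ⟨s1, s2, s3, s4, s5⟩ := US_spec F a hF.disc X H x y u (by linarith [hx.1]) hm0 hu
    simp only
    rw [s3, Int.mul_ediv_cancel_left _ hm0.ne']

end Pool.Agent.H543.DG
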