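import Pool.Agent.H543.DG.Cn

/-!
# The variance: the diagonal and the pairs with a common prime
-/

set_option autoImplicit false

namespace Pool.Agent.H543.DG

open Finset
open scoped Classical

/-- the hypotheses -/
structure Hyp (a : ℤ) (K X H : ℕ) (B : Finset ℕ) (N M2 : ℕ) (T1 z0 R s : ℝ) : Prop where
  T0 : 1 ≤ T1
  z : 0 < z0
  s0 : 0 ≤ s
  T : ∀ k : ℤ, (X : ℤ) < k → k ≤ X + H → 0 < k ^ 2 + a ∧ ((k ^ 2 + a).natAbs.divisors.card : ℝ) ≤ T1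
  B1 : ∀ n ∈ B, 1 ≤ n ∧ n ≤ N
  cop : ∀ n ∈ B, ∀ c : ℤ, c ≠ 0 → |c| ≤ K → IsCoprime (n : ℤ) c
  G : ∑ n ∈ B, gd a n ≤ T1
  Gp : ∀ p ∈ B.biUnion Nat.primeFactors, ∑ n ∈ B.filter (fun n => p ∣ n), gd a n ≤ T1 / p
  P1 : ∑ p ∈ B.biUnion Nat.primeFactors, 1 / (p : ℝ) ≤ T1
  P2 : ∑ p ∈ B.biUnion Nat.primeFactors, 1 / (p : ℝ) ^ 2 ≤ T1 / z0
  P3 : ∀ p ∈ B.biUnion Nat.primeFactors, p ≠ 2 ∧ ¬ (p : ℤ) ∣ a ∧ p ≤ H
  R : ∑ n ∈ B, ((Rt a n).card : ℝ) ≤ R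
  s : ∀ n ∈ B, ∑ p ∈ n.primeFactors, (p : ℝ)⁻¹ ≤ s
  M2 : M2 ≤ H

theorem dv_sum (F : Fm) (a : ℤ) (hF : F.A * F.C - F.B ^ 2 = a) (X H : ℕ) (T1 : ℝ)
    (hT : ∀ k : ℤ, (X : ℤ) < k → k ≤ X + H → 0 < k ^ 2 + a ∧
      ((k ^ 2 + a).natAbs.divisors.card : ℝ) ≤ T1)
    (S : Finset ℕ) (x y u : ℤ) (hx : 0 < x) (hm : 0 < qm F x y) (hu : u ∈ US F X H x y) :
    ∑ n ∈ S, dv n (ww F x y u) ≤ T1 := by
  obtain ⟨s1, s2, s3, s4, s5⟩ := US_spec F a hF X H x y u hx hm hu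
  obtain ⟨t1, t2⟩ := hT _ s1 s2
  refine le_trans ?_ t2
  unfold dv
  rw [← sum_filter, sum_const, nsmul_eq_mul, mul_one]
  norm_cast
  apply card_le_card
  intro n hn
  rw [mem_filter] at hn
  rw [Nat.mem_divisors]
  constructor
  · rw [← Int.natCast_dvd, s3]
    exact hn.2.mul_left _
  · rw [Int.natAbs_ne_zero]
    exact t1.ne'

theorem dv_sum_p (F : Fm) (a : ℤ) (hF : F.A * F.C - F.B ^ 2 = a) (X H : ℕ) (T1 : ℝ)
    (hT : ∀ k : ℤ, (X : ℤ) < k → k ≤ X + H → 0 < k ^ 2 + a ∧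
      ((k ^ 2 + a).natAbs.divisors.card : ℝ) ≤ T1)
    (S : Finset ℕ) (p : ℕ) (x y u : ℤ) (hx : 0 < x) (hm : 0 < qm F x y) (hu : u ∈ US F X H x y) :
    ∑ n ∈ S.filter (fun n => p ∣ n), dv n (ww F x y u) ≤ T1 * dv p (ww F x y u) := by
  by_cases h : (p : ℤ) ∣ ww F x y u
  · have h1 : dv p (ww F x y u) = 1 := by unfold dv; rw [if_pos h]
    rw [h1, mul_one]
    exact dv_sum F a hF X H T1 hT _ x y u hx hm hu
  · have h1 : dv p (ww F x y u) = 0 := by unfold dv; rw [if_neg h]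
    rw [h1, mul_zero]
    apply le_of_eq
    apply sum_eq_zero
    intro n hn
    unfold dv
    rw [if_neg]
    intro h2
    apply h
    have : (p : ℤ) ∣ n := by exact_mod_cast (mem_filter.1 hn).2
    exact this.trans h2

theorem FF_le (F : Fm) (a : ℤ) (hF : F.A * F.C - F.B ^ 2 = a) (X H : ℕ) (T1 : ℝ)
    (hT : ∀ k : ℤ, (X : ℤ) < k → k ≤ X + H → 0 < k ^ 2 + a ∧
      ((k ^ 2 + a).natAbs.divisors.card : ℝ) ≤ T1)
    (b : ℕ → ℝ) (hb : ∀ n, |b n| ≤ 1) (B : Finset ℕ) (hG : ∑ n ∈ B, gd a n ≤ T1)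
    (x y u : ℤ) (hx : 0 < x) (hm : 0 < qm F x y) (hu : u ∈ US F X H x y) :
    (FF a b B (ww F x y u)) ^ 2 ≤ 4 * T1 ^ 2 := by
  have hd := dv_sum F a hF X H T1 hT B x y u hx hm hu
  generalize ww F x y u = w at *
  have h1 : |FF a b B w| ≤ 2 * T1 := by
    unfold FF
    calc |∑ n ∈ B, b n * (dv n w - gd a n)| ≤ ∑ n ∈ B, |b n * (dv n w - gd a n)| :=
          abs_sum_le_sum_abs _ _
      _ ≤ ∑ n ∈ B, (dv n w + gd a n) := by
          apply sum_le_sum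
          intro n _
          rw [abs_mul]
          have h2 : |dv n w - gd a n| ≤ dv n w + gd a n := by
            rw [abs_le]
            constructor <;> linarith [dv_nonneg n w, gd_nonneg a n]
          calc |b n| * |dv n w - gd a n| ≤ 1 * (dv n w + gd a n) :=
                mul_le_mul (hb n) h2 (abs_nonneg _) zero_le_one
            _ = _ := one_mul _
      _ = ∑ n ∈ B, dv n w + ∑ n ∈ B, gd a n := sum_add_distrib
      _ ≤ _ := by linarith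
  rw [← sq_abs]
  calc |FF a b B w| ^ 2 ≤ (2 * T1) ^ 2 := pow_le_pow_left₀ (abs_nonneg _) h1 2
    _ = _ := by ring

theorem card_l (L : ℕ) : (((Icc (-(L : ℤ)) L).erase 0).card : ℝ) = 2 * L := by
  have h1 : (0 : ℤ) ∈ Icc (-(L : ℤ)) L := by rw [mem_Icc]; constructor <;> omega
  rw [card_erase_of_mem h1, Int.card_Icc]
  have h2 : ((L : ℤ) + 1 - -(L : ℤ)).toNat - 1 = 2 * L := by omega
  rw [h2]
  push_cast
  ring

theorem card_k (X H : ℕ) : ∑ k ∈ Ioc (X : ℤ) (X + H), (1 : ℝ) = H := by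
  rw [sum_const, nsmul_eq_mul, mul_one, Int.card_Ioc]
  have : ((X : ℤ) + H - X).toNat = H := by omega
  rw [this]

/-- the set of the `x` -/
def XsOK (K M0 M2 : ℕ) (Xs : Finset ℕ) : Prop :=
  ∀ x ∈ Xs, 1 ≤ x ∧ K * (M0 + 1) ≤ x * x ∧ K * (x * x) ≤ M2

theorem xM (K M0 M2 : ℕ) (hK : 1 ≤ K) (Xs : Finset ℕ) (h : XsOK K M0 M2 Xs) (x : ℕ) (hx : x ∈ Xs) :
    (x : ℝ) ^ 2 ≤ M2 := by
  have h1 := (h x hx).2.2
  have h2 : x * x ≤ M2 := by nlinarith [Nat.zero_le (x * x)]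
  rw [sq]
  exact_mod_cast h2

theorem qpos (F : Fm) (a : ℤ) (K : ℕ) (hF : Cone F a K) (x : ℕ) (hx : 1 ≤ x) (y : ℤ)
    (hy : y ∈ Ioo 0 (x : ℤ)) : 0 < qm F x y ∧ (x : ℝ) ^ 2 ≤ K * (qm F x y : ℝ) := by
  rw [mem_Ioo] at hy
  have h := hF.dn x y hy.1.le hy.2.le
  have hx0 : (0 : ℤ) < x := by exact_mod_cast hx
  have h2 : (0 : ℤ) < (x : ℤ) ^ 2 := by positivity
  have hK : (0 : ℤ) ≤ K := Int.natCast_nonneg K
  refine ⟨?_, by exact_mod_cast h⟩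
  by_contra hc
  push Not at hc
  nlinarith

/-- the diagonal -/
theorem V_one (F : Fm) (a : ℤ) (K : ℕ) (hF : Cone F a K) (X H : ℕ) (B : Finset ℕ)
    (N M0 M2 : ℕ) (T1 z0 R s Nb : ℝ) (hyp : Hyp a K X H B N M2 T1 z0 R s) (hNb0 : 0 ≤ Nb)
    (hNb : ∀ m k : ℤ, (M0 : ℤ) < m → m ∣ k ^ 2 + a → (Nn F K m k : ℝ) ≤ Nb) (b : ℕ → ℝ)
    (hb : ∀ n, |b n| ≤ 1) (Xs : Finset ℕ) (hXs : XsOK K M0 M2 Xs) :
    ∑ x ∈ Xs, (x : ℝ) ^ 2 * ∑ y ∈ Ioo 0 (x : ℤ), ∑ u ∈ US F X H x y,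
      (FF a b B (ww F x y u)) ^ 2 ≤ 4 * T1 ^ 3 * Nb * M2 * H := by
  have hT1 : 0 < T1 := lt_of_lt_of_le one_pos hyp.T0
  have hM0 : (0 : ℝ) ≤ M2 := Nat.cast_nonneg M2
  have h1 := sum_pts F a K hF X H M0 M2 Nb hNb0 hNb Xs hXs T1 hyp.T (fun _ => 1)
    (fun _ => zero_le_one) (fun _ => 1) (fun _ => zero_le_one) (fun _ _ _ => le_rfl)
  rw [card_k] at h1
  calc ∑ x ∈ Xs, (x : ℝ) ^ 2 * ∑ y ∈ Ioo 0 (x : ℤ), ∑ u ∈ US F X H x y,
        (FF a b B (ww F x y u)) ^ 2 ≤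
      ∑ x ∈ Xs, (M2 : ℝ) * ∑ y ∈ Ioo 0 (x : ℤ), ∑ u ∈ US F X H x y, (4 * T1 ^ 2 * 1) := by
        apply sum_le_sum
        intro x hx
        have hx1 := (hXs x hx).1
        have hx0 : (0 : ℤ) < x := by exact_mod_cast hx1
        apply mul_le_mul (xM K M0 M2 hF.K1 Xs hXs x hx) _
          (sum_nonneg fun y _ => sum_nonneg fun u _ => sq_nonneg _) hM0
        apply sum_le_sum
        intro y hy
        apply sum_le_sum
        intro u hu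
        rw [mul_one]
        exact FF_le F a hF.disc X H T1 hyp.T b hb B hyp.G x y u hx0 (qpos F a K hF x hx1 y hy).1 hu
    _ = M2 * (4 * T1 ^ 2) * ∑ x ∈ Xs, ∑ y ∈ Ioo 0 (x : ℤ), ∑ u ∈ US F X H x y, (1 : ℝ) := by
        rw [mul_sum]
        apply sum_congr rfl
        intro x _
        simp_rw [← mul_sum]
        ring
    _ ≤ M2 * (4 * T1 ^ 2) * (Nb * (T1 * H)) := mul_le_mul_of_nonneg_left h1 (by positivity)
    _ = _ := by ring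

/-- the inequality for one pair -/
theorem V_step (K H M2 x q p T1 A U S : ℝ) (hK : 1 ≤ K) (hH : 0 ≤ H) (hx : 0 < x) (hq : 0 < q)
    (hqx : x ^ 2 ≤ K * q) (hxM : x ^ 2 ≤ M2) (hMH : M2 ≤ H) (hp : 0 < p) (hT1 : 0 < T1) (hA0 : 0 ≤ A)
    (hU0 : 0 ≤ U) (hS0 : 0 ≤ S) (hS : S ≤ T1 * (A + U / p))
    (hA : A ≤ 2 * ((H / q + 1) / p + 1)) (hU : U ≤ H / q + 1) :
    x ^ 2 * S ^ 2 ≤ 2 * T1 ^ 2 * ((4 * K * H / p + 2 * M2) * A + 2 * K * H / p ^ 2 * U) := by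
  have h2 : S ^ 2 ≤ (T1 * (A + U / p)) ^ 2 := pow_le_pow_left₀ hS0 hS 2
  have h3 : (T1 * (A + U / p)) ^ 2 ≤ 2 * T1 ^ 2 * (A * A + U * U / p ^ 2) := by
    have h4 : (A + U / p) ^ 2 ≤ 2 * (A * A + (U / p) ^ 2) := by nlinarith [sq_nonneg (A - U / p)]
    calc (T1 * (A + U / p)) ^ 2 = T1 ^ 2 * (A + U / p) ^ 2 := by ring
      _ ≤ T1 ^ 2 * (2 * (A * A + (U / p) ^ 2)) := mul_le_mul_of_nonneg_left h4 (by positivity)
      _ = _ := by ring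
  have hKH : H ≤ K * H := by nlinarith
  have hxm : x ^ 2 * (H / q + 1) ≤ 2 * (K * H) := by
    have h4 : x ^ 2 * (H / q) ≤ K * H := by
      rw [mul_div_assoc', div_le_iff₀ hq]
      have := mul_le_mul_of_nonneg_right hqx hH
      linarith
    linarith
  have h5 : x ^ 2 * (A * A) ≤ (4 * K * H / p + 2 * M2) * A := by
    calc x ^ 2 * (A * A) = (x ^ 2 * A) * A := by ring
      _ ≤ (x ^ 2 * (2 * ((H / q + 1) / p + 1))) * A := by
          apply mul_le_mul_of_nonneg_right _ hA0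
          exact mul_le_mul_of_nonneg_left hA (by positivity)
      _ = (2 * (x ^ 2 * (H / q + 1)) / p + 2 * x ^ 2) * A := by
          ring
      _ ≤ (2 * (2 * (K * H)) / p + 2 * M2) * A := by
          apply mul_le_mul_of_nonneg_right _ hA0
          apply add_le_add
          · apply div_le_div_of_nonneg_right _ hp.le
            linarith
          · linarith
      _ = _ := by ring
  have h6 : x ^ 2 * (U * U / p ^ 2) ≤ 2 * K * H / p ^ 2 * U := by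
    calc x ^ 2 * (U * U / p ^ 2) = (x ^ 2 * U) * (U / p ^ 2) := by ring
      _ ≤ (x ^ 2 * (H / q + 1)) * (U / p ^ 2) := by
          apply mul_le_mul_of_nonneg_right _ (by positivity)
          exact mul_le_mul_of_nonneg_left hU (by positivity)
      _ ≤ (2 * (K * H)) * (U / p ^ 2) := mul_le_mul_of_nonneg_right hxm (by positivity)
      _ = _ := by ring
  calc x ^ 2 * S ^ 2 ≤ x ^ 2 * (2 * T1 ^ 2 * (A * A + U * U / p ^ 2)) :=
        mul_le_mul_of_nonneg_left (h2.trans h3) (by positivity)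
    _ = 2 * T1 ^ 2 * (x ^ 2 * (A * A) + x ^ 2 * (U * U / p ^ 2)) := by ring
    _ ≤ _ := mul_le_mul_of_nonneg_left (add_le_add h5 h6) (by positivity)

/-- one prime -/
theorem V_p (F : Fm) (a : ℤ) (K : ℕ) (hF : Cone F a K) (X H : ℕ) (B : Finset ℕ)
    (N M0 M2 : ℕ) (T1 z0 R s Nb : ℝ) (hyp : Hyp a K X H B N M2 T1 z0 R s) (hNb0 : 0 ≤ Nb)
    (hNb : ∀ m k : ℤ, (M0 : ℤ) < m → m ∣ k ^ 2 + a → (Nn F K m k : ℝ) ≤ Nb)
    (Xs : Finset ℕ) (hXs : XsOK K M0 M2 Xs) (p : ℕ) (hpB : p ∈ B.biUnion Nat.primeFactors) :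
    ∑ x ∈ Xs, (x : ℝ) ^ 2 * ∑ y ∈ Ioo 0 (x : ℤ),
        (∑ u ∈ US F X H x y, ∑ n ∈ B.filter (fun n => p ∣ n), (dv n (ww F x y u) + gd a n)) ^ 2 ≤
        2 * T1 ^ 3 * Nb * (18 * K * (H : ℝ) ^ 2 * (1 / (p : ℝ) ^ 2) + 8 * H * M2 * (1 / (p : ℝ))) := by
  have hT1 : 0 < T1 := lt_of_lt_of_le one_pos hyp.T0
  have hK1 : (1 : ℝ) ≤ K := by exact_mod_cast hF.K1
  have hH0 : (0 : ℝ) ≤ H := Nat.cast_nonneg H
  have hM2H : (M2 : ℝ) ≤ H := by exact_mod_cast hyp.M2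
  have hM0 : (0 : ℝ) ≤ M2 := Nat.cast_nonneg M2
  have hpp : p.Prime := by
    rw [mem_biUnion] at hpB
    obtain ⟨n, _, hn⟩ := hpB
    exact Nat.prime_of_mem_primeFactors hn
  obtain ⟨hp2, hpa, hpH⟩ := hyp.P3 p hpB
  have hpr : (0 : ℝ) < p := by exact_mod_cast hpp.pos
  have hHp : 1 ≤ (H : ℝ) / p := by
    rw [le_div_iff₀ hpr, one_mul]
    exact_mod_cast hpH
  have hstep : ∀ x ∈ Xs, ∀ y ∈ Ioo 0 (x : ℤ), (x : ℝ) ^ 2 *
      (∑ u ∈ US F X H x y, ∑ n ∈ B.filter (fun n => p ∣ n), (dv n (ww F x y u) + gd a n)) ^ 2 ≤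
      2 * T1 ^ 2 * ((4 * K * H / p + 2 * M2) * ∑ u ∈ US F X H x y, dv p (ww F x y u) +
        2 * K * H / (p : ℝ) ^ 2 * ∑ u ∈ US F X H x y, (1 : ℝ)) := by
    intro x hx y hy
    have hx1 := (hXs x hx).1
    have hx0 : (0 : ℤ) < x := by exact_mod_cast hx1
    have hxr : (0 : ℝ) < x := by exact_mod_cast hx1
    obtain ⟨hq1, hq2⟩ := qpos F a K hF x hx1 y hy
    have hqr : (0 : ℝ) < (qm F x y : ℝ) := by exact_mod_cast hq1
    apply V_step K H M2 x (qm F x y) p T1 (∑ u ∈ US F X H x y, dv p (ww F x y u))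
      (∑ u ∈ US F X H x y, (1 : ℝ)) _ hK1 hH0 hxr hqr hq2 (xM K M0 M2 hF.K1 Xs hXs x hx) hM2H hpr hT1
      (sum_nonneg fun u _ => dv_nonneg _ _) (sum_nonneg fun u _ => zero_le_one)
    · apply sum_nonneg
      intro u _
      apply sum_nonneg
      intro n _
      exact add_nonneg (dv_nonneg _ _) (gd_nonneg _ _)
    · calc ∑ u ∈ US F X H x y, ∑ n ∈ B.filter (fun n => p ∣ n), (dv n (ww F x y u) + gd a n) ≤
          ∑ u ∈ US F X H x y, (T1 * dv p (ww F x y u) + T1 / p * 1) := by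
            apply sum_le_sum
            intro u hu
            rw [sum_add_distrib, mul_one]
            exact add_le_add (dv_sum_p F a hF.disc X H T1 hyp.T B p x y u hx0 hq1 hu) (hyp.Gp p hpB)
        _ = _ := by
            rw [sum_add_distrib, ← mul_sum, ← mul_sum]
            ring
    · have h6 := US_card_p F a hF.disc X H x hx1 y hq1 p hpp hp2 hpa
      refine le_trans (le_of_eq ?_) h6
      unfold dv
      rw [← sum_filter, sum_const, nsmul_eq_mul, mul_one]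
    · rw [sum_const, nsmul_eq_mul, mul_one]
      exact US_card F a hF.disc X H x hx1 y hq1
  -- sum over all points
  have hs1 : ∑ x ∈ Xs, ∑ y ∈ Ioo 0 (x : ℤ), ∑ u ∈ US F X H x y, dv p (ww F x y u) ≤
      Nb * (T1 * (4 * H / p)) := by
    have h1 := sum_pts F a K hF X H M0 M2 Nb hNb0 hNb Xs hXs T1 hyp.T (fun w => dv p w)
      (fun w => dv_nonneg p w)
      (fun k => if (p : ℤ) ∣ k ^ 2 + a then 1 else 0) (fun k => by split_ifs <;> norm_num) (by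
        intro k m hmk
        unfold dv
        by_cases h2 : (p : ℤ) ∣ (k ^ 2 + a) / m
        · rw [if_pos h2, if_pos]
          exact h2.trans (Int.ediv_dvd_of_dvd hmk)
        · rw [if_neg h2]
          split_ifs <;> norm_num)
    refine h1.trans ?_
    apply mul_le_mul_of_nonneg_left _ hNb0
    apply mul_le_mul_of_nonneg_left _ hT1.le
    rw [← sum_filter, sum_const, nsmul_eq_mul, mul_one]
    have h2 := k_card_p a X H p hpp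
    have h3 : (4 : ℝ) * H / p = 4 * (H / p) := by ring
    rw [h3]
    linarith
  have hs2 : ∑ x ∈ Xs, ∑ y ∈ Ioo 0 (x : ℤ), ∑ u ∈ US F X H x y, (1 : ℝ) ≤ Nb * (T1 * H) := by
    have h1 := sum_pts F a K hF X H M0 M2 Nb hNb0 hNb Xs hXs T1 hyp.T (fun _ => 1)
      (fun _ => zero_le_one) (fun _ => 1) (fun _ => zero_le_one) (fun _ _ _ => le_rfl)
    rw [card_k] at h1
    exact h1
  calc ∑ x ∈ Xs, (x : ℝ) ^ 2 * ∑ y ∈ Ioo 0 (x : ℤ),
      (∑ u ∈ US F X H x y, ∑ n ∈ B.filter (fun n => p ∣ n), (dv n (ww F x y u) + gd a n)) ^ 2 ≤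
      ∑ x ∈ Xs, ∑ y ∈ Ioo 0 (x : ℤ), 2 * T1 ^ 2 * ((4 * K * H / p + 2 * M2) *
        ∑ u ∈ US F X H x y, dv p (ww F x y u) + 2 * K * H / (p : ℝ) ^ 2 *
          ∑ u ∈ US F X H x y, (1 : ℝ)) := by
        apply sum_le_sum
        intro x hx
        rw [mul_sum]
        exact sum_le_sum fun y hy => hstep x hx y hy
    _ = 2 * T1 ^ 2 * ((4 * K * H / p + 2 * M2) *
          ∑ x ∈ Xs, ∑ y ∈ Ioo 0 (x : ℤ), ∑ u ∈ US F X H x y, dv p (ww F x y u) +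
        2 * K * H / (p : ℝ) ^ 2 *
          ∑ x ∈ Xs, ∑ y ∈ Ioo 0 (x : ℤ), ∑ u ∈ US F X H x y, (1 : ℝ)) := by
        rw [mul_add]
        simp_rw [mul_add, sum_add_distrib, mul_sum]
    _ ≤ 2 * T1 ^ 2 * ((4 * K * H / p + 2 * M2) * (Nb * (T1 * (4 * H / p))) +
        2 * K * H / (p : ℝ) ^ 2 * (Nb * (T1 * H))) := by
        apply mul_le_mul_of_nonneg_left _ (by positivity)
        apply add_le_add
        · exact mul_le_mul_of_nonneg_left hs1 (by positivity)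
        · exact mul_le_mul_of_nonneg_left hs2 (by positivity)
    _ = _ := by
        field_simp
        ring

/-- the pairs with a common prime -/
theorem V_three (F : Fm) (a : ℤ) (K : ℕ) (hF : Cone F a K) (X H : ℕ) (B : Finset ℕ)
    (N M0 M2 : ℕ) (T1 z0 R s Nb : ℝ) (hyp : Hyp a K X H B N M2 T1 z0 R s) (hNb0 : 0 ≤ Nb)
    (hNb : ∀ m k : ℤ, (M0 : ℤ) < m → m ∣ k ^ 2 + a → (Nn F K m k : ℝ) ≤ Nb)
    (Xs : Finset ℕ) (hXs : XsOK K M0 M2 Xs) :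
    ∑ x ∈ Xs, (x : ℝ) ^ 2 * ∑ p ∈ B.biUnion Nat.primeFactors, ∑ y ∈ Ioo 0 (x : ℤ),
      (∑ u ∈ US F X H x y, ∑ n ∈ B.filter (fun n => p ∣ n), (dv n (ww F x y u) + gd a n)) ^ 2 ≤
      2 * T1 ^ 4 * Nb * (18 * K * (H : ℝ) ^ 2 / z0 + 8 * H * M2) := by
  have hT1 : 0 < T1 := lt_of_lt_of_le one_pos hyp.T0
  have hz := hyp.z
  have hsw : ∑ x ∈ Xs, (x : ℝ) ^ 2 * ∑ p ∈ B.biUnion Nat.primeFactors, ∑ y ∈ Ioo 0 (x : ℤ),
    (∑ u ∈ US F X H x y, ∑ n ∈ B.filter (fun n => p ∣ n), (dv n (ww F x y u) + gd a n)) ^ 2 =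
    ∑ p ∈ B.biUnion Nat.primeFactors, ∑ x ∈ Xs, (x : ℝ) ^ 2 * ∑ y ∈ Ioo 0 (x : ℤ),
    (∑ u ∈ US F X H x y, ∑ n ∈ B.filter (fun n => p ∣ n), (dv n (ww F x y u) + gd a n)) ^ 2 := by
    rw [sum_comm]
    apply sum_congr rfl
    intro x _
    rw [mul_sum]
  rw [hsw]
  have hp := fun p hpB => V_p F a K hF X H B N M0 M2 T1 z0 R s Nb hyp hNb0 hNb Xs hXs p hpB
  calc _ ≤ ∑ p ∈ B.biUnion Nat.primeFactors,
      2 * T1 ^ 3 * Nb * (18 * K * (H : ℝ) ^ 2 * (1 / (p : ℝ) ^ 2) + 8 * H * M2 * (1 / (p : ℝ))) :=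
        sum_le_sum hp
    _ = 2 * T1 ^ 3 * Nb * (18 * K * (H : ℝ) ^ 2 * ∑ p ∈ B.biUnion Nat.primeFactors, 1 / (p : ℝ) ^ 2 +
        8 * H * M2 * ∑ p ∈ B.biUnion Nat.primeFactors, 1 / (p : ℝ)) := by
        rw [mul_sum, mul_sum, ← sum_add_distrib, mul_sum]
    _ ≤ 2 * T1 ^ 3 * Nb * (18 * K * (H : ℝ) ^ 2 * (T1 / z0) + 8 * H * M2 * T1) := by
        apply mul_le_mul_of_nonneg_left _ (by positivity)
        apply add_le_add
        · exact mul_le_mul_of_nonneg_left hyp.P2 (by positivity)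
        · exact mul_le_mul_of_nonneg_left hyp.P1 (by positivity)
    _ = _ := by ring

end Pool.Agent.H543.DG
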