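import Pool.Agent.H543.DG.Cop
import Pool.Agent.H543.DG.Vp

/-!
# The variance
-/

set_option autoImplicit false

namespace Pool.Agent.H543.DG

open Finset
open Pool.Agent.Y346.PA (S_KL)
open scoped Classical

/-- **The variance.** -/
theorem V_total (kl : S_KL) (ε : ℝ) (hε : 0 < ε) : ∃ C : ℝ, 1 ≤ C ∧ ∀ (F : Fm) (a : ℤ) (K : ℕ),
    Cone F a K → ∀ (X H : ℕ) (B : Finset ℕ)
    (N M0 M2 : ℕ) (T1 z0 R s Nb : ℝ), Hyp a K X H B N M2 T1 z0 R s → 0 ≤ Nb →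
    (∀ m k : ℤ, (M0 : ℤ) < m → m ∣ k ^ 2 + a → (Nn F K m k : ℝ) ≤ Nb) →
    ∀ b : ℕ → ℝ, (∀ n, |b n| ≤ 1) →
    ∀ (Xs : Finset ℕ), XsOK K M0 M2 Xs → ∀ hw : ℕ → ℕ, (∀ x, 1 ≤ hw x) →
    ∑ x ∈ Xs, (x : ℝ) ^ 2 * ∑ y ∈ Ioo 0 (x : ℤ), (SS F a X H b B x y) ^ 2 ≤
      4 * T1 ^ 3 * Nb * M2 * H + 2 * T1 ^ 4 * Nb * (18 * K * (H : ℝ) ^ 2 / z0 + 8 * H * M2) +
      ∑ x ∈ Xs, 2 * K * H * ((16 * Vv K X H x (hw x) + 16 + 4 * s * K * H / x) * T1 ^ 2 +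
        4 * (E2 C ε K X H x (hw x) N * R ^ 2)) := by
  obtain ⟨C, hC, hc⟩ := D4_bound kl ε hε
  refine ⟨C, hC, ?_⟩
  intro F a K hF X H B N M0 M2 T1 z0 R s Nb hyp hNb0 hNb b hb Xs hXs hw hw1
  have hT1 : 0 < T1 := lt_of_lt_of_le one_pos hyp.T0
  have hH0 : (0 : ℝ) ≤ H := Nat.cast_nonneg H
  have hCc := fun n hn => hyp.cop n hn F.C hF.C0 hF.hC
  have p1 := V_one F a K hF X H B N M0 M2 T1 z0 R s Nb hyp hNb0 hNb b hb Xs hXs
  have p3 := V_three F a K hF X H B N M0 M2 T1 z0 R s Nb hyp hNb0 hNb Xs hXs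
  -- second part
  have p2 : ∑ x ∈ Xs, (x : ℝ) ^ 2 *
      ∑ l ∈ (Icc (-(((K * H) / (x * x) : ℕ) : ℤ)) ((K * H) / (x * x) : ℕ)).erase 0,
        ∑ n1 ∈ B, ∑ n2 ∈ B.filter (fun n2 => Nat.Coprime n1 n2), |D4 F a X H x l n1 n2| ≤
      ∑ x ∈ Xs, 2 * K * H * ((16 * Vv K X H x (hw x) + 16 + 4 * s * K * H / x) * T1 ^ 2 +
        4 * (E2 C ε K X H x (hw x) N * R ^ 2)) := by
    apply sum_le_sum
    intro x hx
    have hx1' := (hXs x hx).1
    have hxr : (0 : ℝ) < x := by exact_mod_cast hx1'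
    have hs0 : 0 ≤ s := hyp.s0
    have hb1 : ∀ (l : ℤ), ∀ n1 ∈ B, ∀ n2 ∈ B, Nat.Coprime n1 n2 → |D4 F a X H x l n1 n2| ≤
        gd a n1 * gd a n2 * (16 * Vv K X H x (hw x) + 16 + 4 * s * K * H / x) +
      4 * (((Rt a n1).card : ℝ) * (Rt a n2).card * E2 C ε K X H x (hw x) N) :=
      fun l n1 hn1 n2 hn2 hc12 => hc F a K hF X H x (hw x) N l hx1' (hw1 x) s n1 n2 (hyp.B1 n1 hn1).1
        (hyp.B1 n2 hn2).1 (hyp.B1 n1 hn1).2 (hyp.B1 n2 hn2).2 hc12 (hCc n1 hn1) (hCc n2 hn2)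
        (hyp.s n1 hn1) (hyp.s n2 hn2)
    have hc10 : 0 ≤ 16 * Vv K X H x (hw x) + 16 + 4 * s * K * H / x := by unfold Vv; positivity
    have hE0 : 0 ≤ E2 C ε K X H x (hw x) N := by
      unfold E2 TT Vv
      have : 0 ≤ C := by linarith
      positivity
    generalize 16 * Vv K X H x (hw x) + 16 + 4 * s * K * H / x = c1 at *
    generalize E2 C ε K X H x (hw x) N = c2 at *
    have h1 : ∀ l : ℤ, ∑ n1 ∈ B, ∑ n2 ∈ B.filter (fun n2 => Nat.Coprime n1 n2),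
        |D4 F a X H x l n1 n2| ≤ c1 * T1 ^ 2 + 4 * (c2 * R ^ 2) := by
      intro l
      calc ∑ n1 ∈ B, ∑ n2 ∈ B.filter (fun n2 => Nat.Coprime n1 n2), |D4 F a X H x l n1 n2| ≤
          ∑ n1 ∈ B, ∑ n2 ∈ B.filter (fun n2 => Nat.Coprime n1 n2), (gd a n1 * gd a n2 * c1 +
            4 * (((Rt a n1).card : ℝ) * (Rt a n2).card * c2)) := by
            apply sum_le_sum
            intro n1 hn1
            apply sum_le_sum
            intro n2 hn2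
            rw [mem_filter] at hn2
            exact hb1 l n1 hn1 n2 hn2.1 hn2.2
        _ ≤ ∑ n1 ∈ B, ∑ n2 ∈ B, (gd a n1 * gd a n2 * c1 +
            4 * (((Rt a n1).card : ℝ) * (Rt a n2).card * c2)) := by
            apply sum_le_sum
            intro n1 _
            apply sum_le_sum_of_subset_of_nonneg (filter_subset _ _)
            intro n2 _ _
            have := gd_nonneg a n1
            have := gd_nonneg a n2
            positivity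
        _ = (∑ n ∈ B, gd a n) ^ 2 * c1 + 4 * (c2 * (∑ n ∈ B, ((Rt a n).card : ℝ)) ^ 2) := by
            rw [sq, sq, sum_mul_sum, sum_mul_sum, sum_mul, mul_sum, mul_sum, ← sum_add_distrib]
            apply sum_congr rfl
            intro n1 _
            rw [sum_mul, mul_sum, mul_sum, ← sum_add_distrib]
            apply sum_congr rfl
            intro n2 _
            ring
        _ ≤ T1 ^ 2 * c1 + 4 * (c2 * R ^ 2) := by
            have e1 : (∑ n ∈ B, gd a n) ^ 2 ≤ T1 ^ 2 :=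
              pow_le_pow_left₀ (sum_nonneg fun n _ => gd_nonneg a n) hyp.G 2
            have e2 : (∑ n ∈ B, ((Rt a n).card : ℝ)) ^ 2 ≤ R ^ 2 :=
              pow_le_pow_left₀ (sum_nonneg fun n _ => Nat.cast_nonneg _) hyp.R 2
            have e3 := mul_le_mul_of_nonneg_right e1 hc10
            have e4 := mul_le_mul_of_nonneg_left e2 hE0
            linarith
        _ = _ := by ring
    have h2 : ∑ l ∈ (Icc (-(((K * H) / (x * x) : ℕ) : ℤ)) ((K * H) / (x * x) : ℕ)).erase 0,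
        ∑ n1 ∈ B, ∑ n2 ∈ B.filter (fun n2 => Nat.Coprime n1 n2), |D4 F a X H x l n1 n2| ≤
        2 * ((K * H) / (x * x) : ℕ) * (c1 * T1 ^ 2 + 4 * (c2 * R ^ 2)) := by
      refine (sum_le_sum fun l _ => h1 l).trans ?_
      rw [sum_const, nsmul_eq_mul, card_l]
    have h3 : (((K * H) / (x * x) : ℕ) : ℝ) * (x : ℝ) ^ 2 ≤ K * H := by
      have : ((K * H) / (x * x)) * (x * x) ≤ K * H := Nat.div_mul_le_self _ _
      rw [sq]
      exact_mod_cast this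
    calc (x : ℝ) ^ 2 * _ ≤ (x : ℝ) ^ 2 * (2 * ((K * H) / (x * x) : ℕ) * (c1 * T1 ^ 2 + 4 * (c2 * R ^ 2))) :=
          mul_le_mul_of_nonneg_left h2 (by positivity)
      _ = 2 * ((((K * H) / (x * x) : ℕ) : ℝ) * (x : ℝ) ^ 2) * (c1 * T1 ^ 2 + 4 * (c2 * R ^ 2)) := by ring
      _ ≤ 2 * (K * H) * (c1 * T1 ^ 2 + 4 * (c2 * R ^ 2)) := by
          apply mul_le_mul_of_nonneg_right _ (by positivity)
          linarith
      _ = _ := by ring
  calc ∑ x ∈ Xs, (x : ℝ) ^ 2 * ∑ y ∈ Ioo 0 (x : ℤ), (SS F a X H b B x y) ^ 2 ≤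
      ∑ x ∈ Xs, ((x : ℝ) ^ 2 * ∑ y ∈ Ioo 0 (x : ℤ), ∑ u ∈ US F X H x y, (FF a b B (ww F x y u)) ^ 2 +
        (x : ℝ) ^ 2 * ∑ l ∈ (Icc (-(((K * H) / (x * x) : ℕ) : ℤ)) ((K * H) / (x * x) : ℕ)).erase 0,
        ∑ n1 ∈ B, ∑ n2 ∈ B.filter (fun n2 => Nat.Coprime n1 n2), |D4 F a X H x l n1 n2| +
        (x : ℝ) ^ 2 * ∑ p ∈ B.biUnion Nat.primeFactors, ∑ y ∈ Ioo 0 (x : ℤ),
          (∑ u ∈ US F X H x y, ∑ n ∈ B.filter (fun n => p ∣ n), (dv n (ww F x y u) + gd a n)) ^ 2) := by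
        apply sum_le_sum
        intro x hx
        have h1 := sq_expand F a K hF X H x (hXs x hx).1 b hb B (fun n hn => (hyp.B1 n hn).1)
        rw [← mul_add, ← mul_add]
        exact mul_le_mul_of_nonneg_left h1 (by positivity)
    _ = _ := by rw [sum_add_distrib, sum_add_distrib]
    _ ≤ _ := by linarith

end Pool.Agent.H543.DG
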