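import Pool.Graph.R_seed8.Y346.PA.KL

/-!
# Points on modular hyperbolas in windows
-/

set_option autoImplicit false

namespace Pool.Agent.H543.DG

open Finset
open Pool.Agent.Y346.PA (S_KL)
open scoped Classical

/-- boxes with shifts -/
theorem kl_shift (kl : S_KL) (ε : ℝ) (hε : 0 < ε) : ∃ C : ℝ, 1 ≤ C ∧ ∀ Q : ℕ, 1 ≤ Q →
    ∀ a b a' b' s t : ℤ, a ≤ b → a' ≤ b' →
    |(((∑ y ∈ Ioc a b, ((Ioc a' b').filter (fun u => (Q : ℤ) ∣ (y + s) * (u + t) - 1)).card : ℕ)) : ℝ) -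
      ((b : ℝ) - a) * ((b' : ℝ) - a') * ((Q.totient : ℝ) / (Q : ℝ) ^ 2)| ≤
      C * (Q : ℝ) ^ ε * Real.sqrt Q +
        C * (Q : ℝ) ^ ε / Real.sqrt Q * (((b : ℝ) - a) + ((b' : ℝ) - a')) := by
  obtain ⟨C, hC, H⟩ := kl ε hε
  refine ⟨C, hC, ?_⟩
  intro Q hQ a b a' b' s t hab hab'
  have h1 := H Q 1 hQ le_rfl (Nat.coprime_one_right Q) (a + s) (b + s) (a' + t) (b' + t) 0 0
    (by linarith) (by linarith)
  have h2 : ∑ y ∈ Ioc a b, ((Ioc a' b').filter (fun u => (Q : ℤ) ∣ (y + s) * (u + t) - 1)).card =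
      ((Ioc (a + s) (b + s) ×ˢ Ioc (a' + t) (b' + t)).filter (fun w : ℤ × ℤ =>
        w.1 ≡ 0 [ZMOD ((1 : ℕ) : ℤ)] ∧ w.2 ≡ 0 [ZMOD ((1 : ℕ) : ℤ)] ∧ (Q : ℤ) ∣ w.1 * w.2 - 1)).card := by
    have h3 : ∑ y ∈ Ioc a b, ((Ioc a' b').filter (fun u => (Q : ℤ) ∣ (y + s) * (u + t) - 1)).card =
        ((Ioc a b ×ˢ Ioc a' b').filter (fun w : ℤ × ℤ => (Q : ℤ) ∣ (w.1 + s) * (w.2 + t) - 1)).card := by
      rw [card_filter, sum_product]
      apply sum_congr rfl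
      intro y _
      rw [card_filter]
    rw [h3]
    apply card_bij (fun w _ => (w.1 + s, w.2 + t))
    · intro w hw
      rw [mem_filter, mem_product, mem_Ioc, mem_Ioc] at hw
      rw [mem_filter, mem_product, mem_Ioc, mem_Ioc]
      refine ⟨⟨⟨by linarith [hw.1.1.1], by linarith [hw.1.1.2]⟩, ⟨by linarith [hw.1.2.1], by linarith [hw.1.2.2]⟩⟩,
        ?_, ?_, hw.2⟩
      · rw [Nat.cast_one]; exact Int.modEq_one
      · rw [Nat.cast_one]; exact Int.modEq_one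
    · intro w _ w' _ h
      rw [Prod.mk.injEq] at h
      exact Prod.ext (by linarith [h.1]) (by linarith [h.2])
    · intro w hw
      rw [mem_filter, mem_product, mem_Ioc, mem_Ioc] at hw
      refine ⟨(w.1 - s, w.2 - t), ?_, ?_⟩
      · rw [mem_filter, mem_product, mem_Ioc, mem_Ioc]
        refine ⟨⟨⟨by simp only; linarith [hw.1.1.1], by simp only; linarith [hw.1.1.2]⟩,
          ⟨by simp only; linarith [hw.1.2.1], by simp only; linarith [hw.1.2.2]⟩⟩, ?_⟩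
        simp only [sub_add_cancel]
        exact hw.2.2.2
      · simp
  rw [h2]
  push_cast at h1
  have e1 : ((b : ℝ) + s - (a + s)) * ((b' : ℝ) + t - (a' + t)) * (Q.totient : ℝ) /
      ((Q : ℝ) ^ 2 * (1 : ℝ) ^ 2) = ((b : ℝ) - a) * ((b' : ℝ) - a') * ((Q.totient : ℝ) / (Q : ℝ) ^ 2) := by
    ring
  have e2 : C * (Q : ℝ) ^ ε * (Real.sqrt Q + ((b : ℝ) + s - (a + s) + ((b' : ℝ) + t - (a' + t))) / Real.sqrt Q) =
      C * (Q : ℝ) ^ ε * Real.sqrt Q +
        C * (Q : ℝ) ^ ε / Real.sqrt Q * (((b : ℝ) - a) + ((b' : ℝ) - a')) := by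
    ring
  rw [e1, e2] at h1
  exact_mod_cast h1

/-- number of points above `y` -/
noncomputable def Np (lo hi : ℤ → ℝ) (Q s t y : ℤ) : ℕ :=
  ((Ioc ⌊lo y⌋ ⌊hi y⌋).filter (fun u => Q ∣ (y + s) * (u + t) - 1)).card

/-- one window -/
theorem win (lo hi : ℤ → ℝ) (Q s t : ℤ) (θ e1 e2 : ℝ) (hθ : 0 ≤ θ) (he1 : 0 ≤ e1) (he2 : 0 ≤ e2)
    (H : ∀ a b a' b' : ℤ, a ≤ b → a' ≤ b' →
      |(((∑ y ∈ Ioc a b, ((Ioc a' b').filter (fun u => Q ∣ (y + s) * (u + t) - 1)).card : ℕ)) : ℝ) -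
        ((b : ℝ) - a) * ((b' : ℝ) - a') * θ| ≤ e1 + e2 * (((b : ℝ) - a) + ((b' : ℝ) - a')))
    (a b : ℤ) (hab : a ≤ b) (lam mu V : ℝ) (hV : 0 ≤ V)
    (h1 : ∀ y ∈ Ioc a b, |lo y - lam| ≤ V) (h2 : ∀ y ∈ Ioc a b, |hi y - mu| ≤ V) :
    |((∑ y ∈ Ioc a b, Np lo hi Q s t y : ℕ) : ℝ) - ((b : ℝ) - a) * max (mu - lam) 0 * θ| ≤
      ((b : ℝ) - a) * (2 * V + 2) * θ + (e1 + e2 * (((b : ℝ) - a) + (max (mu - lam) 0 + 2 * V + 2))) := by
  have hba : (0 : ℝ) ≤ (b : ℝ) - a := by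
    have : (a : ℝ) ≤ b := by exact_mod_cast hab
    linarith
  have hmx : 0 ≤ max (mu - lam) 0 := le_max_right _ _
  have hmx' : mu - lam ≤ max (mu - lam) 0 := le_max_left _ _
  rw [abs_le]
  constructor
  · -- lower bound
    by_cases hc : ⌈lam + V⌉ ≤ ⌊mu - V⌋
    · have h3 := H a b ⌈lam + V⌉ ⌊mu - V⌋ hab hc
      have h4 : ∑ y ∈ Ioc a b, ((Ioc ⌈lam + V⌉ ⌊mu - V⌋).filter
          (fun u => Q ∣ (y + s) * (u + t) - 1)).card ≤ ∑ y ∈ Ioc a b, Np lo hi Q s t y := by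
        apply sum_le_sum
        intro y hy
        apply card_le_card
        apply filter_subset_filter
        apply Ioc_subset_Ioc
        · have h5 := (abs_le.1 (h1 y hy)).2
          have h6 : (⌊lo y⌋ : ℝ) ≤ (⌈lam + V⌉ : ℝ) := by
            have := Int.floor_le (lo y)
            have := Int.le_ceil (lam + V)
            linarith
          exact_mod_cast h6
        · apply Int.floor_le_floor
          have h5 := (abs_le.1 (h2 y hy)).1
          linarith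
      have h5 : ((∑ y ∈ Ioc a b, ((Ioc ⌈lam + V⌉ ⌊mu - V⌋).filter
          (fun u => Q ∣ (y + s) * (u + t) - 1)).card : ℕ) : ℝ) ≤
          ((∑ y ∈ Ioc a b, Np lo hi Q s t y : ℕ) : ℝ) := by exact_mod_cast h4
      have h6 := (abs_le.1 h3).1
      have h7 : mu - lam - 2 * V - 2 ≤ (⌊mu - V⌋ : ℝ) - (⌈lam + V⌉ : ℝ) := by
        have := Int.lt_floor_add_one (mu - V)
        have := Int.ceil_lt_add_one (lam + V)
        linarith
      have h8 : (⌊mu - V⌋ : ℝ) - (⌈lam + V⌉ : ℝ) ≤ mu - lam := by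
        have := Int.floor_le (mu - V)
        have := Int.le_ceil (lam + V)
        linarith
      have h9 : (0 : ℝ) ≤ (⌊mu - V⌋ : ℝ) - (⌈lam + V⌉ : ℝ) := by
        have : (⌈lam + V⌉ : ℝ) ≤ (⌊mu - V⌋ : ℝ) := by exact_mod_cast hc
        linarith
      have h10 : max (mu - lam) 0 = mu - lam := max_eq_left (by linarith)
      rw [h10]
      have h11 : ((b : ℝ) - a) * θ * (mu - lam - 2 * V - 2) ≤
          ((b : ℝ) - a) * θ * ((⌊mu - V⌋ : ℝ) - (⌈lam + V⌉ : ℝ)) :=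
        mul_le_mul_of_nonneg_left h7 (by positivity)
      have h12 : e2 * (((b : ℝ) - a) + ((⌊mu - V⌋ : ℝ) - (⌈lam + V⌉ : ℝ))) ≤
          e2 * (((b : ℝ) - a) + (mu - lam + 2 * V + 2)) :=
        mul_le_mul_of_nonneg_left (by linarith) he2
      nlinarith
    · push Not at hc
      have h7 : mu - lam ≤ 2 * V + 2 := by
        have h8 : (⌊mu - V⌋ : ℝ) < (⌈lam + V⌉ : ℝ) := by exact_mod_cast hc
        have := Int.lt_floor_add_one (mu - V)
        have := Int.ceil_lt_add_one (lam + V)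
        linarith
      have h8 : max (mu - lam) 0 ≤ 2 * V + 2 := max_le h7 (by linarith)
      have h9 : (0 : ℝ) ≤ ((∑ y ∈ Ioc a b, Np lo hi Q s t y : ℕ) : ℝ) := Nat.cast_nonneg _
      have h10 : ((b : ℝ) - a) * θ * max (mu - lam) 0 ≤ ((b : ℝ) - a) * θ * (2 * V + 2) :=
        mul_le_mul_of_nonneg_left h8 (by positivity)
      have h11 : 0 ≤ e2 * (((b : ℝ) - a) + (max (mu - lam) 0 + 2 * V + 2)) := by positivity
      nlinarith
  · -- upper bound
    by_cases hc : ⌊lam - V⌋ ≤ ⌊mu + V⌋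
    · have h3 := H a b ⌊lam - V⌋ ⌊mu + V⌋ hab hc
      have h4 : ∑ y ∈ Ioc a b, Np lo hi Q s t y ≤ ∑ y ∈ Ioc a b, ((Ioc ⌊lam - V⌋ ⌊mu + V⌋).filter
          (fun u => Q ∣ (y + s) * (u + t) - 1)).card := by
        apply sum_le_sum
        intro y hy
        apply card_le_card
        apply filter_subset_filter
        apply Ioc_subset_Ioc
        · apply Int.floor_le_floor
          have h5 := (abs_le.1 (h1 y hy)).1
          linarith
        · apply Int.floor_le_floor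
          have h5 := (abs_le.1 (h2 y hy)).2
          linarith
      have h5 : ((∑ y ∈ Ioc a b, Np lo hi Q s t y : ℕ) : ℝ) ≤ ((∑ y ∈ Ioc a b, ((Ioc ⌊lam - V⌋ ⌊mu + V⌋).filter
          (fun u => Q ∣ (y + s) * (u + t) - 1)).card : ℕ) : ℝ) := by exact_mod_cast h4
      have h6 := (abs_le.1 h3).2
      have h7 : (⌊mu + V⌋ : ℝ) - (⌊lam - V⌋ : ℝ) ≤ max (mu - lam) 0 + 2 * V + 2 := by
        have := Int.floor_le (mu + V)
        have := Int.lt_floor_add_one (lam - V)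
        linarith
      have h11 : ((b : ℝ) - a) * θ * ((⌊mu + V⌋ : ℝ) - (⌊lam - V⌋ : ℝ)) ≤
          ((b : ℝ) - a) * θ * (max (mu - lam) 0 + 2 * V + 2) :=
        mul_le_mul_of_nonneg_left h7 (by positivity)
      have h12 : e2 * (((b : ℝ) - a) + ((⌊mu + V⌋ : ℝ) - (⌊lam - V⌋ : ℝ))) ≤
          e2 * (((b : ℝ) - a) + (max (mu - lam) 0 + 2 * V + 2)) :=
        mul_le_mul_of_nonneg_left (by linarith) he2
      nlinarith
    · push Not at hc
      have h4 : ∑ y ∈ Ioc a b, Np lo hi Q s t y = 0 := by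
        apply sum_eq_zero
        intro y hy
        unfold Np
        rw [card_eq_zero, filter_eq_empty_iff]
        intro u hu
        exfalso
        rw [mem_Ioc] at hu
        have h5 := (abs_le.1 (h1 y hy)).1
        have h6 := (abs_le.1 (h2 y hy)).2
        have h7 : ⌊lam - V⌋ ≤ ⌊lo y⌋ := Int.floor_le_floor (by linarith)
        have h8 : ⌊hi y⌋ ≤ ⌊mu + V⌋ := Int.floor_le_floor (by linarith)
        linarith [hu.1, hu.2]
      rw [h4]
      have h10 : 0 ≤ ((b : ℝ) - a) * max (mu - lam) 0 * θ := by positivity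
      have h11 : 0 ≤ e2 * (((b : ℝ) - a) + (max (mu - lam) 0 + 2 * V + 2)) := by positivity
      have h12 : 0 ≤ ((b : ℝ) - a) * (2 * V + 2) * θ := by positivity
      push_cast
      linarith

/-- several windows -/
theorem wins (lo hi : ℤ → ℝ) (Q s t : ℤ) (θ e1 e2 : ℝ) (hθ : 0 ≤ θ) (he1 : 0 ≤ e1) (he2 : 0 ≤ e2)
    (H : ∀ a b a' b' : ℤ, a ≤ b → a' ≤ b' →
      |(((∑ y ∈ Ioc a b, ((Ioc a' b').filter (fun u => Q ∣ (y + s) * (u + t) - 1)).card : ℕ)) : ℝ) -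
        ((b : ℝ) - a) * ((b' : ℝ) - a') * θ| ≤ e1 + e2 * (((b : ℝ) - a) + ((b' : ℝ) - a')))
    (c : ℕ → ℤ) (lam mu : ℕ → ℝ) (V T : ℝ) (hV : 0 ≤ V) (W : ℕ) (hc : ∀ j < W, c j ≤ c (j + 1))
    (h1 : ∀ j < W, ∀ y ∈ Ioc (c j) (c (j + 1)), |lo y - lam j| ≤ V)
    (h2 : ∀ j < W, ∀ y ∈ Ioc (c j) (c (j + 1)), |hi y - mu j| ≤ V)
    (hT : ∀ j < W, ((c (j + 1) : ℝ) - c j) + (max (mu j - lam j) 0 + 2 * V + 2) ≤ T) :
    |((∑ y ∈ Ioc (c 0) (c W), Np lo hi Q s t y : ℕ) : ℝ) -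
        (∑ j ∈ range W, ((c (j + 1) : ℝ) - c j) * max (mu j - lam j) 0) * θ| ≤
      ((c W : ℝ) - c 0) * (2 * V + 2) * θ + W * (e1 + e2 * T) := by
  induction W with
  | zero => simp
  | succ W ih =>
    have ih' := ih (fun j hj => hc j (by omega)) (fun j hj => h1 j (by omega))
      (fun j hj => h2 j (by omega)) (fun j hj => hT j (by omega))
    have h3 := win lo hi Q s t θ e1 e2 hθ he1 he2 H (c W) (c (W + 1)) (hc W (by omega)) (lam W) (mu W) V hV
      (h1 W (by omega)) (h2 W (by omega))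
    have hc0 : c 0 ≤ c W := by
      have : ∀ n ≤ W, c 0 ≤ c n := by
        intro n
        induction n with
        | zero => intro _; exact le_rfl
        | succ n ihn => intro hn; exact (ihn (by omega)).trans (hc n (by omega))
      exact this W le_rfl
    have h4 : ∑ y ∈ Ioc (c 0) (c (W + 1)), Np lo hi Q s t y =
        ∑ y ∈ Ioc (c 0) (c W), Np lo hi Q s t y + ∑ y ∈ Ioc (c W) (c (W + 1)), Np lo hi Q s t y := by
      rw [← sum_union]
      · rw [Ioc_union_Ioc_eq_Ioc hc0 (hc W (by omega))]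
      · rw [disjoint_left]
        intro y hy hy'
        rw [mem_Ioc] at hy hy'
        omega
    rw [h4, sum_range_succ]
    have h5 := hT W (by omega)
    have h6 : e2 * (((c (W + 1) : ℝ) - c W) + (max (mu W - lam W) 0 + 2 * V + 2)) ≤ e2 * T :=
      mul_le_mul_of_nonneg_left h5 he2
    push_cast
    rw [abs_le] at ih' h3 ⊢
    push_cast at ih' h3
    constructor
    · nlinarith [ih'.1, h3.1]
    · nlinarith [ih'.2, h3.2]

end Pool.Agent.H543.DG
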