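import Pool.Agent.H543.DG.Def
import Pool.Agent.H543.DG.Wg

/-!
# Points on modular hyperbolas in the region of the dispersion method
-/

set_option autoImplicit false

namespace Pool.Agent.H543.DG

open Finset
open Pool.Agent.Y346.PA (S_KL)
open scoped Classical

theorem qm_pos (F : Fm) (a : ℤ) (K : ℕ) (hF : Cone F a K) (x y : ℤ) (hx : 0 < x) (hy0 : 0 ≤ y)
    (hy : y ≤ x) : 0 < qm F x y := by
  have h := hF.dn x y hy0 hy
  have h2 : 0 < x ^ 2 := by positivity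
  have hK : (0 : ℤ) ≤ K := Int.natCast_nonneg K
  by_contra hc
  push Not at hc
  nlinarith

/-- the variation of the ends -/
theorem lo_lip (F : Fm) (a : ℤ) (K : ℕ) (hF : Cone F a K) (X : ℕ) (x y y' : ℤ) (hx : 0 < x)
    (hy0 : 0 ≤ y) (hy : y ≤ x) (hy0' : 0 ≤ y') (hy' : y' ≤ x) :
    |lo F X x y - lo F X x y'| ≤ |(y : ℝ) - y'| * (6 * (K : ℝ) ^ 4 * ((X : ℕ) + 1) / (x : ℝ) ^ 2) := by
  have hxr : (0 : ℝ) < x := by exact_mod_cast hx
  have hm := qm_pos F a K hF x y hx hy0 hy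
  have hm' := qm_pos F a K hF x y' hx hy0' hy'
  have hmr : (0 : ℝ) < (qm F x y : ℝ) := by exact_mod_cast hm
  have hmr' : (0 : ℝ) < (qm F x y' : ℝ) := by exact_mod_cast hm'
  have hK1 : (1 : ℝ) ≤ K := by exact_mod_cast hF.K1
  have hK0 : (0 : ℝ) < K := by linarith
  have hX : (0 : ℝ) ≤ X := Nat.cast_nonneg X
  have hA : |(F.A : ℝ)| ≤ K := by exact_mod_cast hF.hA
  have hB : |(F.B : ℝ)| ≤ K := by exact_mod_cast hF.hB
  have hC : |(F.C : ℝ)| ≤ K := by exact_mod_cast hF.hC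
  have hyr0 : (0 : ℝ) ≤ y := by exact_mod_cast hy0
  have hyr : (y : ℝ) ≤ x := by exact_mod_cast hy
  have hyr0' : (0 : ℝ) ≤ y' := by exact_mod_cast hy0'
  have hyr' : (y' : ℝ) ≤ x := by exact_mod_cast hy'
  have q1 : (qm F x y : ℝ) = F.A * (x : ℝ) ^ 2 - 2 * F.B * x * y + F.C * (y : ℝ) ^ 2 := by
    unfold qm
    push_cast
    ring
  have q2 : (qm F x y' : ℝ) = F.A * (x : ℝ) ^ 2 - 2 * F.B * x * y' + F.C * (y' : ℝ) ^ 2 := by
    unfold qm
    push_cast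
    ring
  have d1 : (x : ℝ) ^ 2 ≤ K * (qm F x y : ℝ) := by exact_mod_cast hF.dn x y hy0 hy
  have d2 : (x : ℝ) ^ 2 ≤ K * (qm F x y' : ℝ) := by exact_mod_cast hF.dn x y' hy0' hy'
  unfold lo
  have h1 : ((x : ℝ) * ((X : ℝ) - F.B) + F.C * y) / (qm F x y : ℝ) -
      ((x : ℝ) * ((X : ℝ) - F.B) + F.C * y') / (qm F x y' : ℝ) =
      (((y' : ℝ) - y) * (x * ((X : ℝ) - F.B) * (-2 * F.B * x + F.C * (y + y')) +
        F.C * (F.C * (y * y') - F.A * (x : ℝ) ^ 2))) /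
        ((qm F x y : ℝ) * (qm F x y' : ℝ)) := by
    rw [div_sub_div _ _ hmr.ne' hmr'.ne']
    congr 1
    rw [q1, q2]
    ring
  rw [h1, abs_div, abs_of_pos (mul_pos hmr hmr'), abs_mul, abs_sub_comm (y' : ℝ) y]
  rw [mul_div_assoc]
  apply mul_le_mul_of_nonneg_left _ (abs_nonneg _)
  rw [div_le_div_iff₀ (mul_pos hmr hmr') (by positivity)]
  have b1 : |(X : ℝ) - F.B| ≤ X + K := by
    refine (abs_sub _ _).trans ?_
    rw [abs_of_nonneg hX]
    linarith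
  have b2 : |-2 * (F.B : ℝ) * x + F.C * (y + y')| ≤ 4 * K * x := by
    refine (abs_add_le _ _).trans ?_
    have e1 : |-2 * (F.B : ℝ) * x| = 2 * (|(F.B : ℝ)| * x) := by
      rw [abs_mul, abs_mul, abs_of_pos hxr]
      norm_num
      ring
    have e2 : |(F.C : ℝ) * (y + y')| = |(F.C : ℝ)| * (y + y') := by
      rw [abs_mul, abs_of_nonneg (by linarith : (0 : ℝ) ≤ y + y')]
    rw [e1, e2]
    have e3 : |(F.B : ℝ)| * x ≤ K * x := mul_le_mul_of_nonneg_right hB hxr.le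
    have e4 : |(F.C : ℝ)| * (y + y') ≤ K * (2 * x) :=
      mul_le_mul hC (by linarith) (by linarith) hK0.le
    linarith
  have b3 : |(F.C : ℝ) * (y * y') - F.A * (x : ℝ) ^ 2| ≤ 2 * K * (x : ℝ) ^ 2 := by
    refine (abs_sub _ _).trans ?_
    rw [abs_mul (F.C : ℝ), abs_mul (F.A : ℝ), abs_of_nonneg (mul_nonneg hyr0 hyr0'),
      abs_of_nonneg (sq_nonneg (x : ℝ))]
    have e3 : |(F.C : ℝ)| * (y * y') ≤ K * (x * x) :=
      mul_le_mul hC (mul_le_mul hyr hyr' hyr0' hxr.le) (mul_nonneg hyr0 hyr0') hK0.le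
    have e4 : |(F.A : ℝ)| * (x : ℝ) ^ 2 ≤ K * (x : ℝ) ^ 2 :=
      mul_le_mul_of_nonneg_right hA (by positivity)
    nlinarith
  have b4 : |(x : ℝ) * ((X : ℝ) - F.B) * (-2 * F.B * x + F.C * (y + y')) +
        F.C * (F.C * (y * y') - F.A * (x : ℝ) ^ 2)| ≤ (x : ℝ) ^ 2 * (6 * (K : ℝ) ^ 2 * (X + 1)) := by
    refine (abs_add_le _ _).trans ?_
    rw [abs_mul, abs_mul, abs_mul, abs_of_pos hxr]
    have e1 : (x : ℝ) * |(X : ℝ) - F.B| * |-2 * (F.B : ℝ) * x + F.C * (y + y')| ≤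
        (x : ℝ) * (X + K) * (4 * K * x) := by
      apply mul_le_mul _ b2 (abs_nonneg _) (by positivity)
      exact mul_le_mul_of_nonneg_left b1 hxr.le
    have e2 : |(F.C : ℝ)| * |(F.C : ℝ) * (y * y') - F.A * (x : ℝ) ^ 2| ≤ K * (2 * K * (x : ℝ) ^ 2) :=
      mul_le_mul hC b3 (abs_nonneg _) hK0.le
    have e3 : (x : ℝ) * (X + K) * (4 * K * x) + K * (2 * K * (x : ℝ) ^ 2) =
        (x : ℝ) ^ 2 * (4 * K * X + 6 * (K : ℝ) ^ 2) := by ring
    have e4 : 4 * (K : ℝ) * X + 6 * (K : ℝ) ^ 2 ≤ 6 * (K : ℝ) ^ 2 * (X + 1) := by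
      have : (K : ℝ) * X ≤ (K : ℝ) ^ 2 * X := by
        apply mul_le_mul_of_nonneg_right _ hX
        nlinarith
      nlinarith
    calc _ ≤ (x : ℝ) * (X + K) * (4 * K * x) + K * (2 * K * (x : ℝ) ^ 2) := add_le_add e1 e2
      _ = (x : ℝ) ^ 2 * (4 * K * X + 6 * (K : ℝ) ^ 2) := e3
      _ ≤ _ := mul_le_mul_of_nonneg_left e4 (by positivity)
  calc |(x : ℝ) * ((X : ℝ) - F.B) * (-2 * F.B * x + F.C * (y + y')) +
        F.C * (F.C * (y * y') - F.A * (x : ℝ) ^ 2)| * (x : ℝ) ^ 2 ≤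
      ((x : ℝ) ^ 2 * (6 * (K : ℝ) ^ 2 * (X + 1))) * (x : ℝ) ^ 2 :=
        mul_le_mul_of_nonneg_right b4 (by positivity)
    _ = (6 * (K : ℝ) ^ 2 * (X + 1)) * ((x : ℝ) ^ 2 * (x : ℝ) ^ 2) := by ring
    _ ≤ (6 * (K : ℝ) ^ 2 * (X + 1)) * ((K * (qm F x y : ℝ)) * (K * (qm F x y' : ℝ))) := by
        apply mul_le_mul_of_nonneg_left _ (by positivity)
        exact mul_le_mul d1 d2 (by positivity) (by positivity)
    _ = _ := by ring

theorem cw_abs (x : ℤ) (hx : 0 < x) (h j : ℕ) : 0 ≤ cw x h j ∧ cw x h j ≤ x := by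
  unfold cw
  have h0 : (0 : ℤ) ≤ j * h := by positivity
  constructor
  · apply le_min <;> linarith
  · have := min_le_right ((j : ℤ) * h) (x - 1)
    linarith

theorem cw_mono (x : ℤ) (h j : ℕ) : cw x h j ≤ cw x h (j + 1) := by
  unfold cw
  apply min_le_min_right
  push_cast
  have : (0 : ℤ) ≤ h := by positivity
  nlinarith

theorem cw_step (x : ℤ) (h j : ℕ) : cw x h (j + 1) - cw x h j ≤ h := by
  unfold cw
  have h1 : ((j + 1 : ℕ) : ℤ) * h = (j : ℤ) * h + h := by push_cast; ring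
  rw [h1]
  have h2 : (0 : ℤ) ≤ h := by positivity
  rcases le_total ((j : ℤ) * h) (x - 1) with h3 | h3
  · rw [min_eq_left h3]
    have := min_le_left ((j : ℤ) * h + h) (x - 1)
    linarith
  · rw [min_eq_right h3]
    have := min_le_right ((j : ℤ) * h + h) (x - 1)
    linarith

theorem cw_zero (x : ℤ) (hx : 0 < x) (h : ℕ) : cw x h 0 = 0 := by
  unfold cw
  push_cast
  rw [zero_mul, min_eq_left (by linarith)]

theorem cw_last (x : ℤ) (hx : 0 < x) (h : ℕ) (hh : 1 ≤ h) : cw x h (Wn x h) = x - 1 := by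
  unfold cw Wn
  apply min_eq_right
  have h1 : x.toNat < h * (x.toNat / h + 1) := Nat.lt_mul_div_succ _ hh
  have h2 : (x.toNat : ℤ) = x := Int.toNat_of_nonneg (by linarith)
  have h3 : (x.toNat : ℤ) < h * ((x.toNat / h + 1 : ℕ) : ℤ) := by exact_mod_cast h1
  rw [h2] at h3
  linarith

theorem Wn_le (x : ℤ) (hx : 0 < x) (h : ℕ) : (Wn x h : ℝ) ≤ x / h + 1 := by
  unfold Wn
  push_cast
  have h1 : ((x.toNat / h : ℕ) : ℝ) ≤ (x.toNat : ℝ) / h := Nat.cast_div_le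
  have h2 : (x.toNat : ℝ) = x := by
    have : (x.toNat : ℤ) = x := Int.toNat_of_nonneg (by linarith)
    exact_mod_cast this
  rw [h2] at h1
  linarith

theorem hilo (F : Fm) (a : ℤ) (K : ℕ) (hF : Cone F a K) (X H : ℕ) (x l y : ℤ) (hx : 0 < x)
    (hy0 : 0 ≤ y) (hy : y ≤ x) : hi1 F X H x l y - lo1 F X x l y ≤ K * H / x := by
  have hxr : (0 : ℝ) < x := by exact_mod_cast hx
  have hm := qm_pos F a K hF x y hx hy0 hy
  have hmr : (0 : ℝ) < (qm F x y : ℝ) := by exact_mod_cast hm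
  have d1 : (x : ℝ) ^ 2 ≤ K * (qm F x y : ℝ) := by exact_mod_cast hF.dn x y hy0 hy
  unfold hi1 lo1 lo
  have h1 : (0 : ℝ) ≤ x * ((max l 0 : ℤ) : ℝ) := by
    apply mul_nonneg hxr.le
    exact_mod_cast le_max_right _ _
  have h2 : (0 : ℝ) ≤ x * ((max (-l) 0 : ℤ) : ℝ) := by
    apply mul_nonneg hxr.le
    exact_mod_cast le_max_right _ _
  have h3 : ((x : ℝ) * (((X + H : ℕ) : ℝ) - F.B) + F.C * y) / (qm F x y : ℝ) -
      ((x : ℝ) * ((X : ℝ) - F.B) + F.C * y) / (qm F x y : ℝ) = x * H / (qm F x y : ℝ) := by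
    push_cast
    rw [← sub_div]
    congr 1
    ring
  have hH : (0 : ℝ) ≤ H := Nat.cast_nonneg H
  have h4 : (x : ℝ) * H / (qm F x y : ℝ) ≤ K * H / x := by
    rw [div_le_div_iff₀ hmr hxr]
    have : (x : ℝ) ^ 2 * H ≤ (K * (qm F x y : ℝ)) * H := mul_le_mul_of_nonneg_right d1 hH
    nlinarith
  linarith

theorem AA_nonneg (F : Fm) (X H : ℕ) (x l : ℤ) (h : ℕ) : 0 ≤ AA F X H x l h := by
  unfold AA
  apply sum_nonneg
  intro j _
  apply mul_nonneg
  · have h1 : (cw x h j : ℝ) ≤ cw x h (j + 1) := by exact_mod_cast cw_mono x h j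
    linarith
  · exact le_max_right _ _

theorem AA_le (F : Fm) (a : ℤ) (K : ℕ) (hF : Cone F a K) (X H : ℕ) (x l : ℤ) (hx : 0 < x) (h : ℕ)
    (hh : 1 ≤ h) : AA F X H x l h ≤ K * H := by
  have hxr : (0 : ℝ) < x := by exact_mod_cast hx
  unfold AA
  calc ∑ j ∈ range (Wn x h), ((cw x h (j + 1) : ℝ) - cw x h j) *
    max (hi1 F X H x l (cw x h j) - lo1 F X x l (cw x h j)) 0 ≤
      ∑ j ∈ range (Wn x h), ((cw x h (j + 1) : ℝ) - cw x h j) * (K * H / x) := by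
        apply sum_le_sum
        intro j _
        apply mul_le_mul_of_nonneg_left
        · obtain ⟨c1, c2⟩ := cw_abs x hx h j
          exact max_le (hilo F a K hF X H x l _ hx c1 c2) (by positivity)
        · have h1 : (cw x h j : ℝ) ≤ cw x h (j + 1) := by exact_mod_cast cw_mono x h j
          linarith
    _ = ((cw x h (Wn x h) : ℝ) - cw x h 0) * (K * H / x) := by
        rw [← sum_mul, sum_range_sub (fun j => (cw x h j : ℝ))]
    _ ≤ x * (K * H / x) := by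
        apply mul_le_mul_of_nonneg_right _ (by positivity)
        rw [cw_zero x hx, cw_last x hx h hh]
        push_cast
        linarith
    _ = _ := by field_simp

/-- the error -/
noncomputable def Er (C ε : ℝ) (K X H x h Q : ℕ) : ℝ :=
  x * (2 * Vv K X H x h + 2) * ((Q.totient : ℝ) / (Q : ℝ) ^ 2) +
    (x / h + 1) * (C * (Q : ℝ) ^ ε * Real.sqrt Q + C * (Q : ℝ) ^ ε / Real.sqrt Q * TT K X H x h)

/-- **The count.** -/
theorem HC_asym (kl : S_KL) (ε : ℝ) (hε : 0 < ε) : ∃ C : ℝ, 1 ≤ C ∧ ∀ (F : Fm) (a : ℤ) (K : ℕ),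
    Cone F a K → ∀ (X H x : ℕ) (l : ℤ) (h : ℕ), 1 ≤ x → 1 ≤ h → ∀ (Q : ℕ) (s t : ℤ), 1 ≤ Q →
    |(HC F X H x l Q s t : ℝ) - AA F X H x l h * ((Q.totient : ℝ) / (Q : ℝ) ^ 2)| ≤
      Er C ε K X H x h Q := by
  obtain ⟨C, hC, hkl⟩ := kl_shift kl ε hε
  refine ⟨C, hC, ?_⟩
  intro F a K hF X H x l h hx1 hh Q s t hQ
  have hx : (0 : ℤ) < x := by exact_mod_cast hx1
  have hxr : (0 : ℝ) < x := by exact_mod_cast hx1
  have hQr : (0 : ℝ) < Q := by exact_mod_cast hQ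
  have hhr : (0 : ℝ) < h := by exact_mod_cast hh
  have hC0 : 0 < C := by linarith
  obtain ⟨V, hV⟩ : ∃ V : ℝ, V = Vv K X H x h := ⟨_, rfl⟩
  have hV0 : 0 ≤ V := by rw [hV]; unfold Vv; positivity
  have hrange : ∀ j : ℕ, ∀ y ∈ Ioc (cw x h j) (cw x h (j + 1)), 0 ≤ y ∧ y ≤ x ∧
      |(y : ℝ) - (cw x h j : ℝ)| ≤ h := by
    intro j y hy
    obtain ⟨c1, c2⟩ := cw_abs x hx h j
    obtain ⟨c3, c4⟩ := cw_abs x hx h (j + 1)
    rw [mem_Ioc] at hy
    refine ⟨by linarith [hy.1], by linarith [hy.2], ?_⟩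
    have h3 : (cw x h j : ℝ) < y := by exact_mod_cast hy.1
    have h4 : y - cw x h j ≤ h := by linarith [cw_step x h j, hy.2]
    have h5 : (y : ℝ) - (cw x h j : ℝ) ≤ h := by exact_mod_cast h4
    rw [abs_of_pos (by linarith)]
    exact h5
  have key := wins (lo1 F X x l) (hi1 F X H x l) Q s t ((Q.totient : ℝ) / (Q : ℝ) ^ 2)
    (C * (Q : ℝ) ^ ε * Real.sqrt Q) (C * (Q : ℝ) ^ ε / Real.sqrt Q) (by positivity) (by positivity)
    (by positivity) (fun a b a' b' hab hab' => hkl Q hQ a b a' b' s t hab hab')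
    (cw x h) (fun j => lo1 F X x l (cw x h j)) (fun j => hi1 F X H x l (cw x h j)) V
    (h + (K * H / x + 2 * V + 2)) hV0 (Wn x h) (fun j _ => cw_mono x h j) ?_ ?_ ?_
  · rw [cw_zero x hx, cw_last x hx h hh] at key
    have h1 : Ioc (0 : ℤ) (x - 1) = Ioo 0 (x : ℤ) := by
      ext y
      rw [mem_Ioc, mem_Ioo]
      omega
    rw [h1] at key
    have h2 : ∑ y ∈ Ioo (0 : ℤ) x, Np (lo1 F X x l) (hi1 F X H x l) Q s t y = HC F X H x l Q s t := rfl
    rw [h2] at key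
    refine key.trans ?_
    unfold Er TT
    have h3 : (((x - 1 : ℤ) : ℝ) - ((0 : ℤ) : ℝ)) ≤ x := by
      push_cast
      linarith
    have h4 := Wn_le x hx h
    push_cast at h4
    rw [← hV]
    apply add_le_add
    · apply mul_le_mul_of_nonneg_right _ (by positivity)
      exact mul_le_mul_of_nonneg_right h3 (by positivity)
    · exact mul_le_mul_of_nonneg_right h4 (by positivity)
  · intro j _ y hy
    obtain ⟨r1, r2, r3⟩ := hrange j y hy
    obtain ⟨c1, c2⟩ := cw_abs x hx h j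
    have h1 : lo1 F X x l y - lo1 F X x l (cw x h j) = lo F X x y - lo F X x (cw x h j) := by
      unfold lo1
      ring
    rw [h1]
    refine (lo_lip F a K hF X x y _ hx r1 r2 c1 c2).trans ?_
    rw [hV]
    unfold Vv
    have h3 : (6 * (K : ℝ) ^ 4 * ((X : ℕ) + 1) / ((x : ℤ) : ℝ) ^ 2 : ℝ) ≤
        6 * (K : ℝ) ^ 4 * ((X + H : ℕ) + 1) / (x : ℝ) ^ 2 := by
      push_cast
      apply div_le_div_of_nonneg_right _ (by positivity)
      have : (0 : ℝ) ≤ H := Nat.cast_nonneg H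
      apply mul_le_mul_of_nonneg_left _ (by positivity)
      linarith
    exact mul_le_mul r3 h3 (by positivity) hhr.le
  · intro j _ y hy
    obtain ⟨r1, r2, r3⟩ := hrange j y hy
    obtain ⟨c1, c2⟩ := cw_abs x hx h j
    have h1 : hi1 F X H x l y - hi1 F X H x l (cw x h j) = lo F (X + H) x y - lo F (X + H) x (cw x h j) := by
      unfold hi1
      ring
    rw [h1]
    refine (lo_lip F a K hF (X + H) x y _ hx r1 r2 c1 c2).trans ?_
    rw [hV]
    unfold Vv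
    have h3 : (6 * (K : ℝ) ^ 4 * (((X + H : ℕ) : ℕ) + 1) / ((x : ℤ) : ℝ) ^ 2 : ℝ) =
        6 * (K : ℝ) ^ 4 * ((X + H : ℕ) + 1) / (x : ℝ) ^ 2 := by
      push_cast
      rfl
    rw [h3]
    exact mul_le_mul_of_nonneg_right r3 (by positivity)
  · intro j _
    have h1 : ((cw x h (j + 1) : ℝ) - cw x h j) ≤ h := by exact_mod_cast cw_step x h j
    obtain ⟨c1, c2⟩ := cw_abs x hx h j
    have h2 : max (hi1 F X H x l (cw x h j) - lo1 F X x l (cw x h j)) 0 ≤ K * H / x := by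
      have h3 := hilo F a K hF X H x l _ hx c1 c2
      push_cast at h3
      exact max_le h3 (by positivity)
    linarith

end Pool.Agent.H543.DG
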